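import Pool.Agent.W2helper31.SN.Groups
import Pool.Agent.W2helper31.NM.Main

/-! Balanced vectors of multiplicities: emptiness and independence outside the window. -/

set_option autoImplicit false

namespace Pool.Agent.W2helper31.SN

open Finset Pool.Agent.TH176.Nag Pool.Agent.TH603.Sur

/-- The multiplicities `w i` are balanced with the bound `M`: they are positive and at most `M`,
`36 M ^ 2 ≤ ∑ (w i) ^ 2`, `4 (r + 1) M ^ 2 ≤ ∑ (w i) ^ 2` for the number `r` of the different
multiplicities smaller than `M`, and at most as many of these values `t` are attained at most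
`M / t` times as the value `M` is attained. -/
structure Bal {ι : Type} [Fintype ι] (w : ι → ℕ) (M : ℕ) : Prop where
  pos : 0 < M
  one : ∀ i, 1 ≤ w i
  le : ∀ i, w i ≤ M
  mass : 36 * M ^ 2 ≤ ∑ i, w i ^ 2
  values : 4 * (((univ.image w).erase M).card + 1) * M ^ 2 ≤ ∑ i, w i ^ 2
  light : (((univ.image w).erase M).filter fun t =>
    (univ.filter fun i => w i = t).card * t ≤ M).card ≤ (univ.filter fun i => w i = M).card

variable {ι : Type} [Fintype ι] {w : ι → ℕ} {M : ℕ}

theorem Bal.scale (h : Bal w M) {a : ℕ} (ha : a * M ^ 2 ≤ ∑ i, w i ^ 2) :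
    (a : ℝ) * ((M : ℝ) + 1) ^ 2 ≤ ∑ i, ((w i : ℝ) + 1) ^ 2 := by
  have hM : (0 : ℝ) < M := by exact_mod_cast h.pos
  have h1 : (a : ℝ) * (M : ℝ) ^ 2 ≤ ∑ i, (w i : ℝ) ^ 2 := by exact_mod_cast ha
  have h2 : ((M : ℝ) + 1) ^ 2 * ∑ i, (w i : ℝ) ^ 2 ≤ (∑ i, ((w i : ℝ) + 1) ^ 2) * (M : ℝ) ^ 2 := by
    rw [mul_sum, sum_mul]
    refine sum_le_sum fun i _ => ?_
    have h3 : (w i : ℝ) ≤ M := by exact_mod_cast h.le i
    have h4 : (0 : ℝ) ≤ w i := Nat.cast_nonneg _
    rw [← mul_pow, ← mul_pow]
    refine pow_le_pow_left₀ (by positivity) ?_ 2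
    linarith
  have h3 : (a : ℝ) * ((M : ℝ) + 1) ^ 2 * (M : ℝ) ^ 2 ≤ (∑ i, ((w i : ℝ) + 1) ^ 2) * (M : ℝ) ^ 2 := by
    refine le_trans ?_ h2
    have := mul_le_mul_of_nonneg_left h1 (show 0 ≤ ((M : ℝ) + 1) ^ 2 by positivity)
    linarith
  exact le_of_mul_le_mul_right h3 (by positivity)

/-- independence above the window -/
theorem Bal.sur (h : Bal w M) {d : ℕ} (hlt : ∑ i, ((w i : ℝ) + 1) ^ 2 < ((d : ℝ) + 3) ^ 2) :
    Sur w (TZ d) := by
  classical
  have h36 := h.scale h.mass
  have hval := h.scale h.values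
  push_cast at h36 hval
  obtain ⟨V, hV⟩ : ∃ V : Finset ℕ, V = (univ.image w).erase M := ⟨_, rfl⟩
  have hlight := h.light
  rw [← hV] at hval hlight
  rcases V.eq_empty_or_nonempty with hVe | hVne
  · -- only the largest value
    have hall : ∀ i, w i = M := by
      intro i
      by_contra hi
      have : w i ∈ V := by
        rw [hV, mem_erase]
        exact ⟨hi, mem_image_of_mem _ (mem_univ i)⟩
      rw [hVe] at this
      exact absurd this (notMem_empty _)
    refine Sur_lights (r := 1) le_rfl (fun _ => 0) (fun _ => h.pos) (fun _ => 0)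
      (fun i => Or.inl (hall i)) (fun _ => 0) (fun l => Or.inl ?_) (by simp) h36 ?_ hlt
    · have : IsEmpty {i // ¬ w i = M ∧ (fun _ : ι => (0 : Fin 1)) i = l} :=
        ⟨fun i => i.2.1 (hall i.1)⟩
      simp
    · push_cast
      have : 0 ≤ ((M : ℝ) + 1) ^ 2 := by positivity
      linarith
  · obtain ⟨e⟩ : Nonempty (V ≃ Fin V.card) := ⟨V.equivFin⟩
    obtain ⟨v0, hv0⟩ := hVne
    have hvM : ∀ t ∈ V, t < M := by
      intro t ht
      rw [hV, mem_erase, mem_image] at ht
      obtain ⟨h1, i, -, h2⟩ := ht
      have := h.le i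
      omega
    have hmem : ∀ i, ¬ w i = M → w i ∈ V := by
      intro i hi
      rw [hV, mem_erase]
      exact ⟨hi, mem_image_of_mem _ (mem_univ i)⟩
    obtain ⟨v, hv⟩ : ∃ v : Fin V.card → ℕ, ∀ l, v l = (e.symm l : ℕ) := ⟨_, fun _ => rfl⟩
    have hvV : ∀ l, v l ∈ V := fun l => by rw [hv]; exact (e.symm l).2
    obtain ⟨φ, hφ⟩ : ∃ φ : ι → Fin V.card, ∀ i (hi : w i ∈ V), φ i = e ⟨w i, hi⟩ := by
      refine ⟨fun i => if hi : w i ∈ V then e ⟨w i, hi⟩ else e ⟨v0, hv0⟩, fun i hi => ?_⟩
      simp only [dif_pos hi]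
    have hφl : ∀ i, ¬ w i = M → ∀ l, (φ i = l ↔ w i = v l) := by
      intro i hi l
      rw [hφ i (hmem i hi), hv]
      constructor
      · rintro rfl
        rw [Equiv.symm_apply_apply]
      · intro h1
        rw [← e.apply_symm_apply l]
        congr 1
        exact Subtype.ext h1
    have hcard : ∀ l, Fintype.card {i // ¬ w i = M ∧ φ i = l} =
        (univ.filter fun i => w i = v l).card := by
      intro l
      rw [Fintype.card_subtype]
      congr 1
      ext i
      simp only [mem_filter, mem_univ, true_and]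
      constructor
      · rintro ⟨h1, h2⟩
        exact (hφl i h1 l).1 h2
      · intro h1
        have h2 : ¬ w i = M := by
          rw [h1]
          exact (hvM _ (hvV l)).ne
        exact ⟨h2, (hφl i h2 l).2 h1⟩
    refine Sur_lights (r := V.card) (card_pos.2 ⟨v0, hv0⟩) v (fun l => hvM _ (hvV l)) φ
      (fun i => ?_) (fun l => if (univ.filter fun i => w i = v l).card * (v l + 1) < M + 1 then 1
        else 0) (fun l => ?_) ?_ h36 ?_ hlt
    · by_cases hi : w i = M
      · exact Or.inl hi
      · exact Or.inr ((hφl i hi _).1 rfl)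
    · rw [hcard l]
      have hM1 : (0 : ℝ) < (M : ℝ) + 1 := by positivity
      split_ifs with hl
      · left
        have h1 : ((univ.filter fun i => w i = v l).card : ℝ) * ((v l : ℝ) + 1) < (M : ℝ) + 1 := by
          exact_mod_cast hl
        have h2 : ((univ.filter fun i => w i = v l).card : ℝ) * (((v l : ℝ) + 1) / (M + 1)) ≤ 1 := by
          rw [← mul_div_assoc, div_le_one hM1]
          exact h1.le
        have h3 : (0 : ℝ) ≤ ((v l : ℝ) + 1) / (M + 1) := by positivity
        have h4 : ((v l : ℝ) + 1) / (M + 1) ≤ 1 := by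
          rw [div_le_one hM1]
          have : (v l : ℝ) ≤ M := by exact_mod_cast (hvM _ (hvV l)).le
          linarith
        have h5 : (0 : ℝ) ≤ ((univ.filter fun i => w i = v l).card : ℝ) *
          (((v l : ℝ) + 1) / (M + 1)) := by positivity
        rw [Nat.cast_one]
        calc ((univ.filter fun i => w i = v l).card : ℝ) * (((v l : ℝ) + 1) / (M + 1)) *
              (1 - ((v l : ℝ) + 1) / (M + 1)) ≤ 1 * 1 :=
              mul_le_mul h2 (by linarith) (by linarith) (by norm_num)
          _ = 1 := one_mul 1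
      · right
        rw [not_lt] at hl
        exact_mod_cast hl
    · rw [← Fintype.card_subtype] at hlight
      have e1 : ∑ l : Fin V.card, (if (univ.filter fun i => w i = v l).card * (v l + 1) < M + 1
          then 1 else 0) = (V.filter fun t =>
            (univ.filter fun i => w i = t).card * (t + 1) < M + 1).card := by
        rw [card_filter, ← Finset.sum_coe_sort V]
        refine (Fintype.sum_equiv e.symm _ _ fun l => ?_)
        rw [hv]
      rw [e1]
      refine le_trans (card_le_card ?_) (hlight.trans (le_of_eq (by simp [Fintype.card_subtype])))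
      intro t ht
      rw [mem_filter] at ht ⊢
      refine ⟨ht.1, ?_⟩
      have h1 := ht.2
      rcases Nat.eq_zero_or_pos (univ.filter fun i => w i = t).card with h0 | h0
      · rw [h0]; omega
      · have : (univ.filter fun i => w i = t).card * (t + 1) =
          (univ.filter fun i => w i = t).card * t + (univ.filter fun i => w i = t).card := by ring
        omega
    · linarith

/-- emptiness below the window -/
theorem Bal.emp (h : Bal w M) {d : ℕ} (hlt : (d : ℝ) ^ 2 < ∑ i, (w i : ℝ) ^ 2) :
    Emp w (TZ d) := by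
  classical
  have hM0 : (0 : ℝ) < M := by exact_mod_cast h.pos
  obtain ⟨V, hV⟩ : ∃ V : Finset ℕ, V = (univ.image w).erase M := ⟨_, rfl⟩
  have hlight := h.light
  have hval := h.values
  rw [← hV] at hval hlight
  have h36 : 36 * (M : ℝ) ^ 2 ≤ ∑ i, (w i : ℝ) ^ 2 := by exact_mod_cast h.mass
  have hval' : 4 * ((V.card : ℝ) + 1) * (M : ℝ) ^ 2 ≤ ∑ i, (w i : ℝ) ^ 2 := by exact_mod_cast hval
  obtain ⟨Q, hQ⟩ : ∃ Q : ℝ, Q = ∑ i, (w i : ℝ) ^ 2 := ⟨_, rfl⟩
  rw [← hQ] at h36 hval' hlt
  have hQ0 : 0 < Q := by
    have : 0 < (M : ℝ) ^ 2 := by positivity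
    linarith
  obtain ⟨c, hc⟩ : ∃ c : ℝ, c = √Q := ⟨_, rfl⟩
  have hcc : c ^ 2 = Q := by rw [hc]; exact Real.sq_sqrt hQ0.le
  have hc0 : 0 < c := by rw [hc]; exact Real.sqrt_pos.2 hQ0
  have hdc : (d : ℝ) < c := by
    rw [← hcc] at hlt
    exact lt_of_pow_lt_pow_left₀ 2 hc0.le hlt
  have hne : Nonempty ι := by
    by_contra hcon
    rw [not_nonempty_iff] at hcon
    rw [hQ] at hQ0
    simp at hQ0
  have hx0 : ∀ i, (0 : ℝ) < w i := fun i => by exact_mod_cast h.one i
  have h6 : 6 * (M : ℝ) ≤ c := by
    have : (6 * (M : ℝ)) ^ 2 ≤ c ^ 2 := by rw [hcc]; linarith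
    exact le_of_sq_le_sq this hc0.le
  have hmem : ∀ i, ¬ w i = M → w i ∈ V := by
    intro i hi
    rw [hV, mem_erase]
    exact ⟨hi, mem_image_of_mem _ (mem_univ i)⟩
  have hU : Pool.Agent.TH146.MN.UU' (fun i => (w i : ℝ)) (2 * (M : ℝ)) := by
    rcases V.eq_empty_or_nonempty with hVe | hVne
    · have hall : ∀ i, w i = M := by
        intro i
        by_contra hi
        have := hmem i hi
        rw [hVe] at this
        exact absurd this (notMem_empty _)
      refine Pool.Agent.W2helper31.NM.U_main hM0 hx0 {1 / 2} (singleton_nonempty _) ?_ ?_ ?_ ?_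
      · intro t ht
        rw [mem_singleton] at ht
        have : (1 : ℝ) ≤ M := by exact_mod_cast h.pos
        rw [ht]
        constructor <;> linarith
      · intro i
        left
        show (w i : ℝ) = M
        rw [hall i]
      · refine (card_filter_le _ _).trans ?_
        rw [card_singleton]
        refine card_pos.2 ?_
        obtain ⟨i⟩ := hne
        exact ⟨i, mem_filter.2 ⟨mem_univ _, by simp [hall i]⟩⟩
      · rw [card_singleton, ← hQ]
        push_cast
        have : 0 ≤ (M : ℝ) ^ 2 := by positivity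
        linarith
    · refine Pool.Agent.W2helper31.NM.U_main hM0 hx0 (V.image fun t : ℕ => (t : ℝ))
        (hVne.image _) ?_ ?_ ?_ ?_
      · intro t ht
        rw [mem_image] at ht
        obtain ⟨a, ha, rfl⟩ := ht
        rw [hV, mem_erase, mem_image] at ha
        obtain ⟨h1, i, -, h2⟩ := ha
        have h3 := h.le i
        have h4 := h.one i
        refine ⟨by exact_mod_cast (by omega : 0 < a), by exact_mod_cast (by omega : a < M)⟩
      · intro i
        by_cases hi : w i = M
        · left
          show (w i : ℝ) = M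
          rw [hi]
        · right
          exact mem_image.2 ⟨w i, hmem i hi, rfl⟩
      · have e1 : ((V.image fun t : ℕ => (t : ℝ)).filter fun t =>
            ((univ.filter fun i => (w i : ℝ) = t).card : ℝ) * t ≤ M) =
            (V.filter fun t => (univ.filter fun i => w i = t).card * t ≤ M).image
              fun t : ℕ => (t : ℝ) := by
          ext t
          simp only [mem_filter, mem_image]
          constructor
          · rintro ⟨⟨a, ha, rfl⟩, h1⟩
            refine ⟨a, ⟨ha, ?_⟩, rfl⟩
            have h2 : (univ.filter fun i => (w i : ℝ) = a) = univ.filter fun i => w i = a := by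
              ext i
              simp
            rw [h2] at h1
            exact_mod_cast h1
          · rintro ⟨a, ⟨ha, h1⟩, rfl⟩
            refine ⟨⟨a, ha, rfl⟩, ?_⟩
            have h2 : (univ.filter fun i => (w i : ℝ) = a) = univ.filter fun i => w i = a := by
              ext i
              simp
            rw [h2]
            exact_mod_cast h1
        rw [e1]
        refine card_image_le.trans (hlight.trans (le_of_eq ?_))
        congr 1
        ext i
        simp
      · rw [card_image_of_injective _ Nat.cast_injective, ← hQ]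
        have : 0 ≤ (M : ℝ) ^ 2 := by positivity
        linarith
  refine Pool.Agent.TH146.MN.star_rep' (x := fun i => (w i : ℝ)) (c := c) (W := M) hx0 hne hM0 h6
    (by rw [hcc, hQ]) hU w d fun i => ?_
  have := mul_lt_mul_of_pos_left hdc (hx0 i)
  linarith

end Pool.Agent.W2helper31.SN
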