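import Pool.Agent.W2helper31.SN.Dbl

/-! A block of equal multiplicities and further points are balanced. -/

set_option autoImplicit false

namespace Pool.Agent.W2helper31.SN

open Finset

/-- the multiplicities `x i` of further points are admissible for `N` points of multiplicity at
least `B` -/
structure Adm (N B : ℕ) {k : ℕ} (x : Fin k → ℕ) : Prop where
  one : ∀ i, 1 ≤ x i
  pos : 0 < B
  mass : 36 ≤ N
  values : 4 * ((univ.image x).card + 1) ≤ N
  large : (∀ i, x i ≤ B) ∨ ∃ i0, (∀ i, x i ≤ x i0) ∧ 36 * x i0 ^ 2 ≤ N * B ^ 2 ∧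
    4 * ((univ.image x).card + 1) * x i0 ^ 2 ≤ N * B ^ 2 ∧
    ((univ.image x).filter fun t => t < x i0 ∧ (univ.filter fun i => x i = t).card * t ≤ x i0).card ≤
      (univ.filter fun i => x i = x i0).card

theorem sum_block {N b k : ℕ} (x : Fin k → ℕ) :
    ∑ i, (Sum.elim (fun _ : Fin N => b) x) i ^ 2 = N * b ^ 2 + ∑ i, x i ^ 2 := by
  rw [Fintype.sum_sum_type]
  simp

theorem card_block {N b k : ℕ} (x : Fin k → ℕ) (t : ℕ) :
    (univ.filter fun i => (Sum.elim (fun _ : Fin N => b) x) i = t).card =
      (if b = t then N else 0) + (univ.filter fun i => x i = t).card := by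
  rw [card_filter, Fintype.sum_sum_type, card_filter]
  congr 1
  simp only [Sum.elim_inl]
  split_ifs <;> simp

/-- the block is balanced -/
theorem Adm.bal {N B b k : ℕ} {x : Fin k → ℕ} (h : Adm N B x) (hb : B ≤ b) :
    ∃ M, Bal (Sum.elim (fun _ : Fin N => b) x) M := by
  have hB := h.pos
  have hN := h.mass
  have hv := h.values
  have hone : ∀ i, 1 ≤ (Sum.elim (fun _ : Fin N => b) x) i := by
    rintro (i | i)
    · exact hB.trans_le hb
    · exact h.one i
  by_cases hall : ∀ i, x i ≤ b
  · -- the block is the largest value
    refine ⟨b, by omega, hone, ?_, ?_, ?_, ?_⟩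
    · rintro (i | i)
      · exact le_rfl
      · exact hall i
    · rw [sum_block]
      exact le_add_right (Nat.mul_le_mul_right _ hN)
    · rw [sum_block]
      refine le_add_right (Nat.mul_le_mul_right _ (le_trans ?_ hv))
      have : ((univ.image (Sum.elim (fun _ : Fin N => b) x)).erase b).card ≤
          (univ.image x).card := by
        refine card_le_card ?_
        intro t ht
        rw [mem_erase, mem_image] at ht
        obtain ⟨h1, i, -, h2⟩ := ht
        rcases i with i | i
        · exact absurd h2.symm h1
        · exact mem_image.2 ⟨i, mem_univ _, h2⟩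
      omega
    · rw [card_block, if_pos rfl]
      refine (card_filter_le _ _).trans ?_
      have : ((univ.image (Sum.elim (fun _ : Fin N => b) x)).erase b).card ≤
          (univ.image x).card := by
        refine card_le_card ?_
        intro t ht
        rw [mem_erase, mem_image] at ht
        obtain ⟨h1, i, -, h2⟩ := ht
        rcases i with i | i
        · exact absurd h2.symm h1
        · exact mem_image.2 ⟨i, mem_univ _, h2⟩
      omega
  · obtain ⟨i0, hmax, h36, hval, hlight⟩ := h.large.resolve_left (fun h1 => hall fun i =>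
      (h1 i).trans hb)
    have hE : b < x i0 := by
      push Not at hall
      obtain ⟨i, hi⟩ := hall
      exact hi.trans_le (hmax i)
    have hNB : N * B ^ 2 ≤ N * b ^ 2 := Nat.mul_le_mul_left _ (Nat.pow_le_pow_left hb 2)
    have hcard : ((univ.image (Sum.elim (fun _ : Fin N => b) x)).erase (x i0)).card ≤
        (univ.image x).card := by
      have h1 : (univ.image (Sum.elim (fun _ : Fin N => b) x)).erase (x i0) ⊆
          insert b ((univ.image x).erase (x i0)) := by
        intro t ht
        rw [mem_erase, mem_image] at ht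
        obtain ⟨h1, i, -, h2⟩ := ht
        rcases i with i | i
        · exact mem_insert.2 (Or.inl h2.symm)
        · exact mem_insert.2 (Or.inr (mem_erase.2 ⟨h1, mem_image.2 ⟨i, mem_univ _, h2⟩⟩))
      have h2 : x i0 ∈ univ.image x := mem_image.2 ⟨i0, mem_univ _, rfl⟩
      have h3 := (card_le_card h1).trans (card_insert_le _ _)
      rw [card_erase_of_mem h2] at h3
      have h4 : 0 < (univ.image x).card := card_pos.2 ⟨_, h2⟩
      omega
    refine ⟨x i0, by omega, hone, ?_, ?_, ?_, ?_⟩
    · rintro (i | i)
      · exact hE.le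
      · exact hmax i
    · rw [sum_block]
      exact le_add_right (h36.trans hNB)
    · rw [sum_block]
      refine le_add_right (le_trans (Nat.mul_le_mul_right _ ?_) (hval.trans hNB))
      omega
    · rw [card_block, if_neg hE.ne, zero_add]
      refine le_trans (card_le_card ?_) hlight
      intro t ht
      rw [mem_filter, mem_erase, mem_image] at ht
      obtain ⟨⟨h1, i, -, h2⟩, h3⟩ := ht
      rw [card_block] at h3
      have hbt : b ≠ t := by
        rintro rfl
        rw [if_pos rfl] at h3
        have h4 : N * b ≤ x i0 := le_trans (Nat.mul_le_mul_right _ (Nat.le_add_right _ _)) h3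
        have h5 : 36 * (N * b) ^ 2 ≤ N * b ^ 2 :=
          le_trans (Nat.mul_le_mul_left _ (Nat.pow_le_pow_left h4 2)) (h36.trans hNB)
        have h6 : 0 < b := hB.trans_le hb
        have h7 : 36 * (N * b) ^ 2 = (36 * N) * (N * b ^ 2) := by ring
        have h8 : 0 < N * b ^ 2 := by positivity
        rw [h7] at h5
        have h9 : 1 * (N * b ^ 2) < (36 * N) * (N * b ^ 2) := Nat.mul_lt_mul_of_pos_right (by omega) h8
        omega
      rw [if_neg hbt, zero_add] at h3
      rcases i with i | i
      · exact absurd h2 hbt
      · refine mem_filter.2 ⟨mem_image.2 ⟨i, mem_univ _, h2⟩, ?_, h3⟩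
        exact lt_of_le_of_ne (h2 ▸ hmax i) h1

end Pool.Agent.W2helper31.SN
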