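import Pool.Agent.W2helper31.SN.Rem

/-! Many points of equal multiplicity and arbitrary further points: every degree. -/

set_option autoImplicit false

namespace Pool.Agent.W2helper31.SN

open Finset Pool.Agent.TH176.Nag Pool.Agent.TH603.Sur Pool.Agent.TH2.NU Pool.Agent.TH641.UM
  Pool.Agent.TH105.QH Pool.Agent.H932R3

theorem loss_C {N m S A n L : ℕ} (hn : n < A ^ 2 * (N + 1)) (h1 : 4 * L ≤ N) (h2 : N < 16 * L)
    (hL : 36 ≤ L) (hA : 1 ≤ A) (h3 : 4096 * L ^ 2 ≤ n * m ^ 2) (hS : 25 * S ^ 2 ≤ n * m ^ 2) :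
    (N + (3 * ((A - 1) * (m + 1)) + S)) ^ 2 ≤ N * (A * m + 1) ^ 2 := by
  obtain ⟨σ, hσ⟩ : ∃ σ : ℝ, σ = √(N : ℝ) := ⟨_, rfl⟩
  have hσ2 : σ ^ 2 = N := by rw [hσ]; exact Real.sq_sqrt (Nat.cast_nonneg _)
  have hσ0 : 0 ≤ σ := by rw [hσ]; exact Real.sqrt_nonneg _
  obtain ⟨a, ha⟩ : ∃ a : ℝ, a = (A : ℝ) := ⟨_, rfl⟩
  have ha1 : 1 ≤ a := by rw [ha]; exact_mod_cast hA
  have hLR : (36 : ℝ) ≤ L := by exact_mod_cast hL
  have hσL : 4 * (L : ℝ) ≤ σ ^ 2 := by rw [hσ2]; exact_mod_cast h1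
  have hσL2 : σ ^ 2 ≤ 16 * (L : ℝ) := by rw [hσ2]; exact_mod_cast h2.le
  have hσ12 : 12 ≤ σ := by
    have : (12 : ℝ) ^ 2 ≤ σ ^ 2 := by linarith
    exact le_of_sq_le_sq this hσ0
  have hnR : (n : ℝ) ≤ a ^ 2 * (σ ^ 2 + 1) := by
    rw [ha, hσ2]; exact_mod_cast hn.le
  have hm0 : 1 ≤ m := by
    rcases Nat.eq_zero_or_pos m with h0 | h0
    · rw [h0] at h3
      nlinarith
    · exact h0
  have hmR : (1 : ℝ) ≤ m := by exact_mod_cast hm0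
  obtain ⟨t, ht⟩ : ∃ t : ℝ, t = a * m := ⟨_, rfl⟩
  have ht0 : 0 < t := by rw [ht]; positivity
  have hn2 : (n : ℝ) * m ^ 2 ≤ (t * (σ + 1 / 24)) ^ 2 := by
    have g1 : σ ^ 2 + 1 ≤ (σ + 1 / 24) ^ 2 := by nlinarith
    calc (n : ℝ) * m ^ 2 ≤ a ^ 2 * (σ ^ 2 + 1) * m ^ 2 :=
          mul_le_mul_of_nonneg_right hnR (sq_nonneg _)
      _ = t ^ 2 * (σ ^ 2 + 1) := by rw [ht]; ring
      _ ≤ t ^ 2 * (σ + 1 / 24) ^ 2 := mul_le_mul_of_nonneg_left g1 (sq_nonneg _)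
      _ = (t * (σ + 1 / 24)) ^ 2 := by ring
  have hSR : 5 * (S : ℝ) ≤ t * (σ + 1 / 24) := by
    have g1 : 25 * (S : ℝ) ^ 2 ≤ n * m ^ 2 := by exact_mod_cast hS
    have g2 : (5 * (S : ℝ)) ^ 2 ≤ (t * (σ + 1 / 24)) ^ 2 := by
      have e1 : (5 * (S : ℝ)) ^ 2 = 25 * (S : ℝ) ^ 2 := by ring
      rw [e1]
      exact g1.trans hn2
    exact le_of_sq_le_sq g2 (by positivity)
  have hσt : 4 * σ ≤ t := by
    have g1 : 4096 * (L : ℝ) ^ 2 ≤ n * m ^ 2 := by exact_mod_cast h3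
    have g2 : (n : ℝ) * m ^ 2 ≤ t ^ 2 * (σ ^ 2 + 1) := by
      calc (n : ℝ) * m ^ 2 ≤ a ^ 2 * (σ ^ 2 + 1) * m ^ 2 :=
            mul_le_mul_of_nonneg_right hnR (sq_nonneg _)
        _ = t ^ 2 * (σ ^ 2 + 1) := by rw [ht]; ring
    have g3 : (N : ℝ) + 1 ≤ 16 * L := by exact_mod_cast h2
    rw [← hσ2] at g3
    have g4 : t ^ 2 * (σ ^ 2 + 1) ≤ t ^ 2 * (16 * L) := mul_le_mul_of_nonneg_left g3 (sq_nonneg _)
    have g5 : (16 * (L : ℝ)) * (256 * L) ≤ (16 * L) * t ^ 2 := by nlinarith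
    have g6 : 256 * (L : ℝ) ≤ t ^ 2 := le_of_mul_le_mul_left g5 (by positivity)
    have g7 : (4 * σ) ^ 2 ≤ t ^ 2 := by
      have : (4 * σ) ^ 2 = 16 * σ ^ 2 := by ring
      rw [this]
      linarith
    exact le_of_sq_le_sq g7 ht0.le
  have hA1 : ((A - 1 : ℕ) : ℝ) = a - 1 := by rw [Nat.cast_sub hA, ha]; norm_num
  have hAm : (a - 1) * ((m : ℝ) + 1) ≤ 2 * t := by
    have : a * m ≥ a := by nlinarith
    rw [ht]; nlinarith
  have key : σ ^ 2 + (3 * ((a - 1) * ((m : ℝ) + 1)) + S) ≤ σ * (t + 1) := by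
    have g1 : 4 * (σ * σ) ≤ σ * t := by
      have := mul_le_mul_of_nonneg_left hσt hσ0
      linarith
    have g2 : 12 * t ≤ σ * t := mul_le_mul_of_nonneg_right hσ12 ht0.le
    nlinarith
  have h4 : ((N : ℝ) + (3 * (((A - 1 : ℕ) : ℝ) * (m + 1)) + S)) ^ 2 ≤ (N : ℝ) * (A * m + 1) ^ 2 := by
    rw [hA1, ← hσ2, ← ha, ← mul_pow, ← ht]
    refine pow_le_pow_left₀ ?_ key 2
    have : 0 ≤ (a - 1) * ((m : ℝ) + 1) := mul_nonneg (by linarith) (by linarith)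
    have : (0 : ℝ) ≤ S := Nat.cast_nonneg _
    nlinarith [sq_nonneg σ]
  exact_mod_cast h4

/-- arbitrary further points -/
theorem many {n m k L : ℕ} {x : Fin k → ℕ} (hL : 36 ≤ L)
    (hr : n * 4 ^ (univ.image x).card ≤ 4 ^ (L + 2)) (h3 : 4096 * L ^ 2 ≤ n * m ^ 2)
    (hx : ∀ i, 1 ≤ x i ∧ 16 * L * x i ^ 2 ≤ n * m ^ 2)
    (hS : 25 * (∑ i, (x i + 1)) ^ 2 ≤ n * m ^ 2) (hn : 16 * L ≤ n) :
    Ex (Fin.append (fun _ : Fin n => m) x) := by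
  have hm0 : 1 ≤ m := by
    rcases Nat.eq_zero_or_pos m with h0 | h0
    · rw [h0] at h3
      nlinarith
    · exact h0
  obtain ⟨K, hK⟩ : ∃ K, K = Nat.log 4 (n / (4 * L)) := ⟨_, rfl⟩
  have hL0 : 0 < 4 * L := by omega
  have h0 : 4 ≤ n / (4 * L) := by
    rw [Nat.le_div_iff_mul_le hL0]
    omega
  have h1 : 4 ^ K ≤ n / (4 * L) := by
    rw [hK]
    exact Nat.pow_log_le_self 4 (by omega)
  have h2 : n / (4 * L) < 4 ^ (K + 1) := by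
    rw [hK]
    exact Nat.lt_pow_succ_log_self (by norm_num) _
  rw [Nat.le_div_iff_mul_le hL0] at h1
  rw [Nat.div_lt_iff_lt_mul hL0] at h2
  have hK1 : 1 ≤ K := by
    rw [hK]
    exact Nat.log_pos (by norm_num) h0
  obtain ⟨J, hJ⟩ : ∃ J, K = J + 1 := ⟨K - 1, by omega⟩
  have hp : 0 < 4 ^ K := by positivity
  have e4 : 4 ^ K = (2 ^ K) ^ 2 := by
    rw [← pow_mul, mul_comm K 2, pow_mul]; norm_num
  obtain ⟨N, hN⟩ : ∃ N, N = n / 4 ^ K := ⟨_, rfl⟩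
  have hN1 : 4 * L ≤ N := by
    rw [hN, Nat.le_div_iff_mul_le hp]
    calc 4 * L * 4 ^ K = 4 ^ K * (4 * L) := by ring
      _ ≤ n := h1
  have hN2 : N < 16 * L := by
    rw [hN, Nat.div_lt_iff_lt_mul hp]
    calc n < 4 ^ (K + 1) * (4 * L) := h2
      _ = 16 * L * 4 ^ K := by rw [pow_succ]; ring
  have hN3 : n < 4 ^ K * (N + 1) := by
    rw [hN]
    have := Nat.lt_mul_div_succ n hp
    linarith
  have hKr : K + (univ.image x).card + 1 ≤ L := by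
    by_contra hcon
    rw [not_le] at hcon
    have g1 : 4 ^ (L + 3) ≤ 4 ^ (K + (univ.image x).card + 3) :=
      Nat.pow_le_pow_right (by norm_num) (by omega)
    have g2 : 4 ^ (K + (univ.image x).card + 3) = 4 ^ K * 64 * 4 ^ (univ.image x).card := by
      rw [pow_add, pow_add]; ring
    have g3 : 4 ^ K * 64 * 4 ^ (univ.image x).card ≤ n * 4 ^ (univ.image x).card := by
      refine Nat.mul_le_mul_right _ (le_trans ?_ h1)
      exact Nat.mul_le_mul_left _ (by omega)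
    have g4 : 4 ^ (L + 2) < 4 ^ (L + 3) := Nat.pow_lt_pow_right (by norm_num) (by omega)
    omega
  have hxB : ∀ i, x i ≤ 2 ^ K * m := by
    intro i
    have g1 : 16 * L * x i ^ 2 < 16 * L * (2 ^ K * m) ^ 2 := by
      calc 16 * L * x i ^ 2 ≤ n * m ^ 2 := (hx i).2
        _ < (16 * L * 4 ^ K) * m ^ 2 := by
            refine Nat.mul_lt_mul_of_pos_right ?_ (by positivity)
            calc n < 4 ^ (K + 1) * (4 * L) := h2
              _ = 16 * L * 4 ^ K := by rw [pow_succ]; ring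
        _ = 16 * L * (2 ^ K * m) ^ 2 := by rw [e4]; ring
    have g2 : x i ^ 2 < (2 ^ K * m) ^ 2 := lt_of_mul_lt_mul_left g1 (Nat.zero_le _)
    exact (lt_of_pow_lt_pow_left₀ 2 (Nat.zero_le _) g2).le
  have hloss := loss_C (N := N) (m := m) (S := ∑ i, (x i + 1)) (A := 2 ^ K) (n := n) (L := L)
    (by rw [← e4]; exact hN3) hN1 hN2 hL (Nat.one_le_pow _ _ (by norm_num)) h3 hS
  subst hJ
  refine iterR J n m k x hm0 (by rw [← hN]; omega) (by rw [← hN]; omega)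
    (fun i => ⟨(hx i).1, hxB i⟩) ?_
  rw [← hN]
  exact hloss

end Pool.Agent.W2helper31.SN
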