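import Pool.Agent.W2helper31.SN.Bal
import Pool.Agent.TH105.QH.All3

/-! Clusters of four points and further points: every degree. -/

set_option autoImplicit false

namespace Pool.Agent.W2helper31.SN

open Finset Pool.Agent.TH176.Nag Pool.Agent.TH603.Sur Pool.Agent.TH2.NU Pool.Agent.TH641.UM
  Pool.Agent.TH105.QH Pool.Agent.H932R3

/-- the degrees in which the points of multiplicity `b` impose independent conditions and those of
multiplicity `b + 1` leave no forms -/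
theorem dbl_deg {N b k d B B' : ℕ} {e : Fin k → ℕ} (hN : 0 < N)
    (h1 : Bal (Sum.elim (fun _ : Fin N => b) e) B)
    (h2 : Bal (Sum.elim (fun _ : Fin N => b + 1) e) B')
    (hlo : (N : ℝ) * ((b : ℝ) + 1) ^ 2 + ∑ i, ((e i : ℝ) + 1) ^ 2 < ((d : ℝ) + 3) ^ 2)
    (hhi : (d : ℝ) ^ 2 < N * ((b : ℝ) + 1) ^ 2 + ∑ i, (e i : ℝ) ^ 2) :
    ((d + 2).choose 2 ≤ Pool.Agent.TH603.Sur.cond (V N b e) → Emp (V N b e) (TZ d)) ∧
    (Pool.Agent.TH603.Sur.cond (V N b e) ≤ (d + 2).choose 2 → Sur (V N b e) (TZ d)) := by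
  have hS : Sur (Sum.elim (fun _ : Fin N => b) e) (TZ d) := by
    refine h1.sur ?_
    rw [Fintype.sum_sum_type]
    simp only [Sum.elim_inl, Sum.elim_inr, sum_const, card_univ, Fintype.card_fin, nsmul_eq_mul]
    exact hlo
  have hE : Emp (Sum.elim (fun _ : Fin N => b + 1) e) (TZ d) := by
    refine h2.emp ?_
    rw [Fintype.sum_sum_type]
    simp only [Sum.elim_inl, Sum.elim_inr, sum_const, card_univ, Fintype.card_fin, nsmul_eq_mul]
    push_cast
    exact hhi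
  have hD := doublingB (N := N) (b := b) (e := e) hN (S := Pool.Agent.TH387.SH.TF d)
    (fun u hu => by
      have h1 : u ∈ TZ d := by rw [← Pool.Agent.TH387.SH.coe_TF]; exact mem_coe.2 hu
      exact ⟨h1.1, h1.2.1⟩)
    (by rw [Pool.Agent.TH387.SH.coe_TF]; exact hS) (by rw [Pool.Agent.TH387.SH.coe_TF]; exact hE)
  rw [Pool.Agent.TH387.SH.coe_TF, Pool.Agent.TH387.SH.card_TF] at hD
  exact hD

/-- the loss -/
def loss (N b : ℕ) {k : ℕ} (e : Fin k → ℕ) : ℕ := (if Even b then N else 0) + ∑ i, (e i + 1)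

theorem two_cond (N b : ℕ) {k : ℕ} (e : Fin k → ℕ) :
    2 * Pool.Agent.TH603.Sur.cond (V N b e) + loss N b e =
      N * (b + 1) ^ 2 + ∑ i, (e i + 1) ^ 2 := by
  have h1 : 2 * Pool.Agent.TH603.Sur.cond e + ∑ i, (e i + 1) = ∑ i, (e i + 1) ^ 2 := by
    unfold Pool.Agent.TH603.Sur.cond
    rw [mul_sum, ← sum_add_distrib]
    refine sum_congr rfl fun i _ => ?_
    rw [two_choose]
    ring
  have h2 : 2 * (N * ((b + 1).choose 2 + (b + 1) / 2)) + (if Even b then N else 0) =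
      N * (b + 1) ^ 2 := by
    have h3 := two_choose b
    have h4 : 2 * (N * ((b + 1).choose 2 + (b + 1) / 2)) =
        N * (2 * (b + 1).choose 2 + 2 * ((b + 1) / 2)) := by ring
    rw [h4, h3]
    rcases Nat.even_or_odd b with hb | hb
    · rw [if_pos hb]
      obtain ⟨c, rfl⟩ := hb
      have : (c + c + 1) / 2 = c := by omega
      rw [this]; ring
    · rw [if_neg (Nat.not_even_iff_odd.2 hb)]
      obtain ⟨c, rfl⟩ := hb
      have : (2 * c + 1 + 1) / 2 = c + 1 := by omega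
      rw [this]; ring
  rw [cond_V]
  unfold loss
  rw [← h1, ← h2]
  ring

/-- the critical degree exists -/
theorem exists_crit (c : ℕ) (hc : 1 ≤ c) : ∃ D : ℕ, (D + 2).choose 2 ≤ c ∧ c < (D + 3).choose 2 := by
  have hex : ∃ D : ℕ, c < (D + 3).choose 2 := by
    refine ⟨c, ?_⟩
    have h1 : (c + 3).choose 1 ≤ (c + 3).choose 2 := by
      rw [Nat.choose_one_right]
      have h3 : 2 * (c + 3).choose 2 = (c + 2) * (c + 3) := two_choose (c + 2)
      nlinarith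
    rw [Nat.choose_one_right] at h1
    omega
  obtain ⟨D, hD, hmin⟩ : ∃ D, c < (D + 3).choose 2 ∧ ∀ D' < D, ¬ c < (D' + 3).choose 2 := by
    classical
    exact ⟨Nat.find hex, Nat.find_spec hex, fun D' h => Nat.find_min hex h⟩
  refine ⟨D, ?_, hD⟩
  rcases Nat.eq_zero_or_pos D with h0 | h0
  · subst h0
    simpa using hc
  · have := hmin (D - 1) (by omega)
    rw [not_lt] at this
    have e : D - 1 + 3 = D + 2 := by omega
    rwa [e] at this

/-- the two critical degrees -/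
theorem ends {N b k B B' : ℕ} {e : Fin k → ℕ} (hN : 0 < N)
    (h1 : Bal (Sum.elim (fun _ : Fin N => b) e) B)
    (h2 : Bal (Sum.elim (fun _ : Fin N => b + 1) e) B')
    (hloss : loss N b e ^ 2 ≤ N * (b + 1) ^ 2 + ∑ i, (e i + 1) ^ 2) :
    ∃ D : ℕ, (D + 2).choose 2 ≤ Pool.Agent.TH603.Sur.cond (V N b e) ∧
      Pool.Agent.TH603.Sur.cond (V N b e) < (D + 3).choose 2 ∧ Emp (V N b e) (TZ D) ∧
      Sur (V N b e) (TZ (D + 1)) := by
  obtain ⟨c, hc⟩ : ∃ c, c = Pool.Agent.TH603.Sur.cond (V N b e) := ⟨_, rfl⟩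
  obtain ⟨p, hp⟩ : ∃ p, p = loss N b e := ⟨_, rfl⟩
  obtain ⟨A, hA⟩ : ∃ A, A = N * (b + 1) ^ 2 + ∑ i, (e i + 1) ^ 2 := ⟨_, rfl⟩
  have hcA := two_cond N b e
  rw [← hc, ← hp, ← hA] at hcA
  rw [← hp, ← hA] at hloss
  have hB := h1.scale h1.mass
  have hsum1 : ∑ i, (((Sum.elim (fun _ : Fin N => b) e) i : ℝ) + 1) ^ 2 = (A : ℝ) := by
    rw [Fintype.sum_sum_type]
    simp only [Sum.elim_inl, Sum.elim_inr, sum_const, card_univ, Fintype.card_fin, nsmul_eq_mul]
    rw [hA]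
    push_cast
    ring
  rw [hsum1] at hB
  have hB36 : 36 * (B + 1) ^ 2 ≤ A := by exact_mod_cast hB
  have hB1 : 1 ≤ B := h1.pos
  have hA144 : 144 ≤ A := by nlinarith
  have hc1 : 1 ≤ c := by
    by_contra hcon
    have : c = 0 := by omega
    rw [this] at hcA
    have : p = A := by omega
    rw [this] at hloss
    nlinarith
  obtain ⟨D, hD1, hD2⟩ := exists_crit c hc1
  have hD1' : 2 * (D + 2).choose 2 = (D + 1) * (D + 2) := two_choose (D + 1)
  have hD2' : 2 * (D + 3).choose 2 = (D + 2) * (D + 3) := two_choose (D + 2)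
  have hcD1 : (D + 1) * (D + 2) ≤ 2 * c := by omega
  have hcD2 : 2 * c + 2 ≤ (D + 2) * (D + 3) := by omega
  -- the loss is small
  have hpD : p ≤ D + 4 := by
    by_contra hcon
    rw [not_le] at hcon
    have g1 : A + 2 ≤ (D + 2) * (D + 3) + p := by omega
    have g2 : (D + 5) * (D + 4) ≤ p * (p - 1) := Nat.mul_le_mul (by omega) (by omega)
    have g3 : p * (p - 1) + p = p ^ 2 := by
      obtain ⟨q, rfl⟩ := Nat.exists_eq_add_of_lt (show 0 < p by omega)
      simp only [Nat.zero_add, Nat.add_sub_cancel]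
      ring
    nlinarith
  have hAD : A + 1 ≤ (D + 3) ^ 2 := by
    have g1 : A + 2 ≤ (D + 2) * (D + 3) + p := by omega
    nlinarith
  -- the sum of the further multiplicities
  obtain ⟨se, hse⟩ : ∃ se, se = ∑ i, e i := ⟨_, rfl⟩
  have hpse : se + k ≤ p := by
    rw [hp, hse]
    unfold loss
    rw [sum_add_distrib, sum_const, card_univ, Fintype.card_fin, smul_eq_mul, mul_one]
    omega
  have hseD : se ≤ D := by
    rcases Nat.lt_or_ge k 4 with hk | hk
    · have g1 : se ≤ k * B := by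
        rw [hse]
        have : ∑ i, e i ≤ ∑ _i : Fin k, B := sum_le_sum fun i _ => h1.le (Sum.inr i)
        simpa using this
      have g2 : k * B ≤ 3 * B := Nat.mul_le_mul_right _ (by omega)
      have g3 : 6 * (B + 1) < D + 3 := by
        by_contra hcon
        rw [not_lt] at hcon
        have : (D + 3) ^ 2 ≤ (6 * (B + 1)) ^ 2 := Nat.pow_le_pow_left hcon 2
        nlinarith
      omega
    · omega
  have hQ : ∑ i, (e i + 1) ^ 2 = ∑ i, e i ^ 2 + 2 * se + k := by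
    have : ∀ i, (e i + 1) ^ 2 = e i ^ 2 + 2 * e i + 1 := fun i => by ring
    simp only [this, sum_add_distrib, sum_const, card_univ, Fintype.card_fin, smul_eq_mul, mul_one]
    rw [hse, mul_sum]
  have hAR : (N : ℝ) * ((b : ℝ) + 1) ^ 2 + ∑ i, ((e i : ℝ) + 1) ^ 2 = A := by
    rw [hA]; push_cast; ring
  have hER : (N : ℝ) * ((b : ℝ) + 1) ^ 2 + ∑ i, (e i : ℝ) ^ 2 = A - 2 * se - k := by
    rw [hA, hQ]; push_cast; ring
  have hloD : (N : ℝ) * ((b : ℝ) + 1) ^ 2 + ∑ i, ((e i : ℝ) + 1) ^ 2 < ((D : ℝ) + 3) ^ 2 := by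
    rw [hAR]
    have : (A : ℝ) + 1 ≤ ((D : ℝ) + 3) ^ 2 := by exact_mod_cast hAD
    linarith
  have hhiD : ((D + 1 : ℕ) : ℝ) ^ 2 < N * ((b : ℝ) + 1) ^ 2 + ∑ i, (e i : ℝ) ^ 2 := by
    rw [hER]
    have g1 : (D + 1) ^ 2 + 2 * se + k + 1 ≤ A := by nlinarith
    have g2 : ((D : ℝ) + 1) ^ 2 + 2 * se + k + 1 ≤ A := by exact_mod_cast g1
    push_cast
    linarith
  have hD3 : ((D : ℝ) + 3) ^ 2 ≤ (((D + 1 : ℕ) : ℝ) + 3) ^ 2 := by
    have : (0 : ℝ) ≤ D := Nat.cast_nonneg D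
    push_cast
    nlinarith
  have hD4 : (D : ℝ) ^ 2 ≤ ((D + 1 : ℕ) : ℝ) ^ 2 := by
    have : (0 : ℝ) ≤ D := Nat.cast_nonneg D
    push_cast
    nlinarith
  have k1 := dbl_deg hN h1 h2 hloD (by linarith)
  have k2 := dbl_deg hN h1 h2 (d := D + 1) (by linarith) hhiD
  rw [hc] at hD1 hD2
  exact ⟨D, hD1, hD2, k1.1 hD1, k2.2 hD2.le⟩

/-- **every degree** -/
theorem every {N b k B B' : ℕ} {e : Fin k → ℕ} (hN : 0 < N)
    (h1 : Bal (Sum.elim (fun _ : Fin N => b) e) B)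
    (h2 : Bal (Sum.elim (fun _ : Fin N => b + 1) e) B')
    (hloss : loss N b e ^ 2 ≤ N * (b + 1) ^ 2 + ∑ i, (e i + 1) ^ 2)
    {n : ℕ} {w : Fin n → ℕ} (hw : ms w = ms (V N b e)) :
    ∃ F : MvPolynomial (Fin n × Fin 2) ℚ, F ≠ 0 ∧ ∀ {L : Type} [Field L] [CharZero L]
      (P : Fin n → Fin 2 → L), MvPolynomial.aeval (fun ij : Fin n × Fin 2 => P ij.1 ij.2) F ≠ 0 →
      ∀ d, ExpDim L w P d := by
  obtain ⟨D, a1, a2, a3, a4⟩ := ends hN h1 h2 hloss
  exact expDim_of_ends hw a1 a2 a3 a4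

end Pool.Agent.W2helper31.SN
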