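import Pool.Agent.W2helper31.SN.Heavy

/-! Independence for weights with few values below the maximum. -/

set_option autoImplicit false

namespace Pool.Agent.W2helper31.SN

open Finset Pool.Agent.TH176.Nag Pool.Agent.TH603.Sur Pool.Agent.TH181.NagM Pool.Agent.TH648.SH

/-- distribution of points to groups -/
theorem exists_distr {T : Type} [Fintype T] {r : ℕ} (hr : 1 ≤ r) (n : Fin r → ℕ)
    (h : ∑ l, n l ≤ Fintype.card T) :
    ∃ g : T → Fin r, ∀ l, n l ≤ Fintype.card {t // g t = l} := by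
  classical
  obtain ⟨f⟩ : Nonempty ((Σ l, Fin (n l)) ↪ T) := Function.Embedding.nonempty_of_card_le (by
    rw [Fintype.card_sigma]
    simpa using h)
  refine ⟨fun t => if ht : ∃ q, f q = t then ht.choose.1 else ⟨0, by omega⟩, fun l => ?_⟩
  have e : Fintype.card (Fin (n l)) = n l := Fintype.card_fin _
  rw [← e]
  refine Fintype.card_le_of_injective (fun j => ⟨f ⟨l, j⟩, ?_⟩) ?_
  · have hx : ∃ q, f q = f ⟨l, j⟩ := ⟨_, rfl⟩
    have h1 := f.injective hx.choose_spec
    show (if ht : ∃ q, f q = f ⟨l, j⟩ then ht.choose.1 else (⟨0, by omega⟩ : Fin r)) = l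
    rw [dif_pos hx, h1]
  · intro j j' hj
    simp only [Subtype.mk.injEq] at hj
    have := f.injective hj
    simpa using this

theorem Box.equiv {κ κ' : Type} [Fintype κ] [Fintype κ'] (e : κ ≃ κ') {w : κ' → ℕ} {H σ : ℝ}
    (h : Box (fun i => w (e i)) H σ) : Box w H σ := by
  obtain ⟨lx, ux, ly, uy, h1, h2, h3, h4, h5, h6⟩ := h
  refine ⟨lx, ux, ly, uy, h1, h2, h3, h4, h5, fun X Y g1 g2 g3 g4 => ?_⟩
  exact Pool.Agent.TH745.MN.Sur_emb e e.injective (fun _ => rfl) (fun k _ => e.surjective k)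
    (h6 X Y g1 g2 g3 g4)

/-- independence for weights with few values below the maximum -/
theorem Sur_lights {ι : Type} [Fintype ι] {w : ι → ℕ} {M r d : ℕ} (hr : 1 ≤ r)
    (v : Fin r → ℕ) (hv : ∀ l, v l < M) (φ : ι → Fin r) (hw : ∀ i, w i = M ∨ w i = v (φ i))
    (n : Fin r → ℕ)
    (hn : ∀ l, (Fintype.card {i // ¬ w i = M ∧ φ i = l} : ℝ) * (((v l : ℝ) + 1) / (M + 1)) *
      (1 - ((v l : ℝ) + 1) / (M + 1)) ≤ n l ∨
        (M : ℝ) + 1 ≤ Fintype.card {i // ¬ w i = M ∧ φ i = l} * ((v l : ℝ) + 1))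
    (hsum : ∑ l, n l ≤ Fintype.card {i // w i = M})
    (h36 : 36 * ((M : ℝ) + 1) ^ 2 ≤ ∑ i, ((w i : ℝ) + 1) ^ 2)
    (hr4 : 4 * ((r : ℝ) + 1) * ((M : ℝ) + 1) ^ 2 ≤ ∑ i, ((w i : ℝ) + 1) ^ 2)
    (hlt : ∑ i, ((w i : ℝ) + 1) ^ 2 < ((d : ℝ) + 3) ^ 2) : Sur w (TZ d) := by
  classical
  obtain ⟨g, hg⟩ := exists_distr hr n hsum
  obtain ⟨gr, hgr1, hgr2⟩ : ∃ gr : ι → Fin r, (∀ i (h : w i = M), gr i = g ⟨i, h⟩) ∧
      ∀ i, ¬ w i = M → gr i = φ i := by
    refine ⟨fun i => if h : w i = M then g ⟨i, h⟩ else φ i, fun i h => ?_, fun i h => ?_⟩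
    · simp only [dif_pos h]
    · simp only [dif_neg h]
  obtain ⟨H, hH⟩ : ∃ H : ℝ, H = (M : ℝ) + 1 := ⟨_, rfl⟩
  have hH1 : 1 ≤ H := by
    have : (0 : ℝ) ≤ M := Nat.cast_nonneg M
    linarith
  have hH0 : 0 < H := by linarith
  rw [← hH] at hn h36 hr4
  obtain ⟨Q, hQ⟩ : ∃ Q : ℝ, Q = ∑ i, ((w i : ℝ) + 1) ^ 2 := ⟨_, rfl⟩
  rw [← hQ] at h36 hr4 hlt
  obtain ⟨c', hc1, hc2⟩ := exists_between hlt
  have hQ0 : 0 < Q := by
    have : 0 < 36 * H ^ 2 := by positivity
    linarith
  obtain ⟨c, hc⟩ : ∃ c : ℝ, c = √c' := ⟨_, rfl⟩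
  have hcc : c ^ 2 = c' := by rw [hc]; exact Real.sq_sqrt (by linarith)
  have hc0 : 0 ≤ c := by rw [hc]; exact Real.sqrt_nonneg _
  have hcd : c < d + 3 := by
    have : c ^ 2 < ((d : ℝ) + 3) ^ 2 := by rw [hcc]; exact hc2
    exact lt_of_pow_lt_pow_left₀ 2 (by positivity) this
  have hr0 : (0 : ℝ) < r := by exact_mod_cast hr
  obtain ⟨ε, hε⟩ : ∃ ε : ℝ, ε = (c' - Q) / (r * H ^ 2) := ⟨_, rfl⟩
  have hε0 : 0 < ε := by rw [hε]; exact div_pos (by linarith) (by positivity)
  have hεr : r * ε * H ^ 2 = c' - Q := by rw [hε]; field_simp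
  -- the sum over a group
  obtain ⟨Sg, hSg⟩ : ∃ Sg : Fin r → ℝ, ∀ l, Sg l = ∑ i : {i // gr i = l}, ((w i.1 : ℝ) + 1) ^ 2 :=
    ⟨_, fun _ => rfl⟩
  have hSgsum : ∑ l, Sg l = Q := by
    rw [hQ, ← Finset.sum_fiberwise Finset.univ gr]
    refine Finset.sum_congr rfl fun l _ => ?_
    rw [hSg]
    exact (Finset.sum_subtype (Finset.univ.filter fun i => gr i = l) (fun i => by simp)
      (fun i => ((w i : ℝ) + 1) ^ 2)).symm
  have key : Sur (fun x : (Σ l, {i // gr i = l}) => w x.2.1) (TZ d) := by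
    refine Sur_plane_box hr (c := c) (H := H) (σ := fun l => Sg l / H ^ 2 + ε) hH0 ?_ ?_ hcd ?_ ?_
    · have h1 : (6 * H) ^ 2 ≤ c ^ 2 := by rw [hcc]; nlinarith
      exact le_of_sq_le_sq h1 hc0
    · rw [hcc]; linarith
    · rw [hcc, sum_add_distrib, ← sum_div, hSgsum, sum_const, card_univ, Fintype.card_fin,
        nsmul_eq_mul, add_mul, div_mul_cancel₀ _ (by positivity), hεr]
      linarith
    · intro l
      show Box (fun j : {i // gr i = l} => w j.1) H (Sg l / H ^ 2 + ε)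
      -- the light or heavy group and the top points
      have hcard : Fintype.card {i // ¬ w i = M ∧ φ i = l} =
          Fintype.card {i : {i // gr i = l} // ¬ w i.1 = M} := by
        refine Fintype.card_congr ?_
        exact ⟨fun i => ⟨⟨i.1, by rw [hgr2 _ i.2.1]; exact i.2.2⟩, i.2.1⟩,
          fun i => ⟨i.1.1, i.2, by rw [← hgr2 _ i.2]; exact i.1.2⟩, fun i => rfl, fun i => rfl⟩
      have hvl1 : (1 : ℝ) ≤ (v l : ℝ) + 1 := by
        have : (0 : ℝ) ≤ v l := Nat.cast_nonneg _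
        linarith
      have hvlH : (v l : ℝ) + 1 < H := by
        rw [hH]
        have : (v l : ℝ) < M := by exact_mod_cast hv l
        linarith
      have hw1 : ∀ i : {i : {i // gr i = l} // ¬ w i.1 = M}, (w i.1.1 : ℝ) + 1 ≤ (v l : ℝ) + 1 := by
        intro i
        have h1 := (hw i.1.1).resolve_left i.2
        have h2 := hgr2 _ i.2
        rw [i.1.2] at h2
        rw [h1, ← h2]
      have hw2 : ∀ i : {i : {i // gr i = l} // w i.1 = M}, (w i.1.1 : ℝ) + 1 ≤ H := by
        intro i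
        rw [i.2, hH]
      have hb : Box (Sum.elim (fun i : {i : {i // gr i = l} // ¬ w i.1 = M} => w i.1.1)
          (fun i : {i : {i // gr i = l} // w i.1 = M} => w i.1.1)) H
          ((Fintype.card {i : {i // gr i = l} // w i.1 = M} : ℝ) +
            Fintype.card {i : {i // gr i = l} // ¬ w i.1 = M} * (((v l : ℝ) + 1) / H) ^ 2 + ε) := by
        rcases hn l with h | h
        · refine box_light hvl1 hvlH hw1 hw2 ?_ hε0
          rw [← hcard]
          refine h.trans ?_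
          have h1 := hg l
          have h2 : Fintype.card {t : {i // w i = M} // g t = l} ≤
              Fintype.card {i : {i // gr i = l} // w i.1 = M} := by
            refine Fintype.card_le_of_injective
              (fun t => ⟨⟨t.1.1, by rw [hgr1 _ t.1.2]; exact t.2⟩, t.1.2⟩) ?_
            rintro ⟨⟨i, hi⟩, hi'⟩ ⟨⟨j, hj⟩, hj'⟩ hij
            simp only [Subtype.mk.injEq] at hij
            subst hij
            rfl
          exact_mod_cast h1.trans h2
        · rw [hcard] at h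
          have h1 := (box_heavy hvl1 hvlH hw1 h (show 0 < ε / 2 by positivity)).add hH1 hw2
            (show 0 < ε / 2 by positivity)
          refine h1.mono le_rfl ?_
          linarith
      have e1 : (Fintype.card {i : {i // gr i = l} // w i.1 = M} : ℝ) +
          Fintype.card {i : {i // gr i = l} // ¬ w i.1 = M} * (((v l : ℝ) + 1) / H) ^ 2 =
          Sg l / H ^ 2 := by
        rw [hSg, ← (Equiv.sumCompl (fun i : {i // gr i = l} => w i.1 = M)).sum_comp
          (fun i => ((w i.1 : ℝ) + 1) ^ 2), Fintype.sum_sum_type]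
        have g1 : ∀ i : {i : {i // gr i = l} // w i.1 = M},
            ((w (((Equiv.sumCompl (fun i : {i // gr i = l} => w i.1 = M)) (Sum.inl i)).1) : ℝ) + 1) ^ 2
              = H ^ 2 := fun i => by
          rw [Equiv.sumCompl_apply_inl, i.2, hH]
        have g2 : ∀ i : {i : {i // gr i = l} // ¬ w i.1 = M},
            ((w (((Equiv.sumCompl (fun i : {i // gr i = l} => w i.1 = M)) (Sum.inr i)).1) : ℝ) + 1) ^ 2
              = ((v l : ℝ) + 1) ^ 2 := fun i => by
          rw [Equiv.sumCompl_apply_inr]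
          have h1 := (hw i.1.1).resolve_left i.2
          have h2 := hgr2 _ i.2
          rw [i.1.2] at h2
          rw [h1, ← h2]
        rw [sum_congr rfl fun i _ => g1 i, sum_congr rfl fun i _ => g2 i, sum_const, sum_const,
          card_univ, card_univ, nsmul_eq_mul, nsmul_eq_mul]
        field_simp
      rw [e1] at hb
      refine Box.equiv ((Equiv.sumComm _ _).trans
        (Equiv.sumCompl (fun i : {i // gr i = l} => w i.1 = M))) ?_
      convert hb using 1
      funext i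
      rcases i with i | i
      · simp
      · simp
  exact Pool.Agent.TH745.MN.Sur_emb (Equiv.sigmaFiberEquiv gr) (Equiv.sigmaFiberEquiv gr).injective
    (fun _ => rfl) (fun k _ => (Equiv.sigmaFiberEquiv gr).surjective k) key

end Pool.Agent.W2helper31.SN
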