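import Pool.Agent.W2helper31.SN.Plane

/-! Tubes for independence: a heavy group, and adding points of the largest weight. -/

set_option autoImplicit false

namespace Pool.Agent.W2helper31.SN

open Finset Pool.Agent.TH176.Nag Pool.Agent.TH603.Sur Pool.Agent.TH181.NagM

/-- a group with `k x ≥ 1`, the case of a flattening along the first diagonal -/
theorem box_heavyA {κ : Type} [Fintype κ] {w : κ → ℕ} {H h : ℝ} (hh : 1 ≤ h) (hhH : h < H)
    (hw : ∀ i, (w i : ℝ) + 1 ≤ h) (u v : ℤ) (hu : 1 ≤ u) (hc : IsCoprime u v)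
    (hux : u * (h / H) < 1) (h1 : (Fintype.card κ : ℝ) * (h / H) * (1 - u * (h / H)) < v)
    (h2 : (v : ℝ) < Fintype.card κ * (h / H)) {ε : ℝ} (hε : 0 < ε) :
    Box w H (Fintype.card κ * (h / H) ^ 2 + ε) := by
  have hH : 0 < H := by linarith
  obtain ⟨k, hk⟩ : ∃ k : ℝ, k = Fintype.card κ := ⟨_, rfl⟩
  obtain ⟨x, hx⟩ : ∃ x : ℝ, x = h / H := ⟨_, rfl⟩
  have hxH : x * H = h := by rw [hx]; field_simp
  have hx0 : 0 < x := by rw [hx]; exact div_pos (by linarith) hH
  rw [← hk, ← hx] at h1 h2 ⊢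
  rw [← hx] at hux
  have hu1 : (1 : ℝ) ≤ u := by exact_mod_cast hu
  have hu0 : (0 : ℝ) < u := by linarith
  have hkx0 : 0 ≤ k * x := mul_nonneg (by rw [hk]; exact Nat.cast_nonneg _) hx0.le
  have hv0 : (0 : ℝ) < v := lt_of_le_of_lt (mul_nonneg hkx0 (by linarith)) h1
  have hkx : 0 < k * x := hv0.trans h2
  have hk0 : 0 < k := pos_of_mul_pos_left hkx hx0.le
  obtain ⟨y0, hy0⟩ : ∃ y0 : ℝ, y0 = (k * x - v) / u := ⟨_, rfl⟩
  obtain ⟨x0, hx0'⟩ : ∃ x0 : ℝ, x0 = (v - k * x * (1 - u * x)) / u := ⟨_, rfl⟩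
  have huy : u * y0 = k * x - v := by rw [hy0]; field_simp
  have hux0 : u * x0 = v - k * x * (1 - u * x) := by rw [hx0']; field_simp
  have hy00 : 0 < y0 := by rw [hy0]; exact div_pos (by linarith) hu0
  have hx00 : 0 < x0 := by rw [hx0']; exact div_pos (by linarith) hu0
  have hxy : x0 + y0 = k * x ^ 2 := by
    have : u * (x0 + y0) = u * (k * x ^ 2) := by rw [mul_add, huy, hux0]; ring
    exact mul_left_cancel₀ hu0.ne' this
  have hgap : 0 < k * x * (1 - u * x) := mul_pos hkx (by linarith)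
  obtain ⟨θ, hθ⟩ : ∃ θ : ℝ, θ = min (min (x0 / 3) (ε / 6)) (k * x * (1 - u * x) / (6 * u)) :=
    ⟨_, rfl⟩
  have hθ0 : 0 < θ := by
    rw [hθ]
    refine lt_min (lt_min (by positivity) (by positivity)) (by positivity)
  have hθ1 : 3 * θ ≤ x0 := by
    have : θ ≤ x0 / 3 := by rw [hθ]; exact (min_le_left _ _).trans (min_le_left _ _)
    linarith
  have hθ2 : 6 * θ ≤ ε := by
    have : θ ≤ ε / 6 := by rw [hθ]; exact (min_le_left _ _).trans (min_le_right _ _)
    linarith
  have hθ3 : u * (6 * θ) ≤ k * x * (1 - u * x) := by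
    have : θ ≤ k * x * (1 - u * x) / (6 * u) := by rw [hθ]; exact min_le_right _ _
    rw [le_div_iff₀ (by positivity)] at this
    linarith
  have hxu0 : 0 < x * u := mul_pos hx0 hu0
  have hxu1 : x * u < 1 := by rw [mul_comm]; exact hux
  have hx1 : x < 1 := by
    have := mul_le_mul_of_nonneg_left hu1 hx0.le
    linarith
  have hxuθ : x * u * θ < θ := by
    have := mul_lt_mul_of_pos_right hxu1 hθ0
    linarith
  have hxθ : 0 < x * θ := mul_pos hx0 hθ0
  have e1 : (x * u * (3 + x) - 3) * θ = x * u * (3 + x) * θ - 3 * θ := by ring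
  have e2 : (6 * (x * u) - 3 - x) * θ = 6 * (x * u * θ) - 3 * θ - x * θ := by ring
  have e3 : (3 + x) * θ = 3 * θ + x * θ := by ring
  have e4 : 0 < x * u * (3 + x) * θ := by positivity
  have hxuθ0 : 0 < x * u * θ := mul_pos hxu0 hθ0
  refine ⟨x0 + (x * u * (3 + x) - 3) * θ, x0 + (6 * (x * u) - 3 - x) * θ, y0 + 3 * θ,
    y0 + (3 + x) * θ, ?_, ?_, by linarith, by linarith, ?_, fun X Y g1 g2 g3 g4 => ?_⟩
  · linarith
  · have h5 : 0 < x * θ * (3 * u - 1 - x * u) := mul_pos (mul_pos hx0 hθ0) (by linarith)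
    have h6 : (6 * (x * u) - 3 - x) * θ - (x * u * (3 + x) - 3) * θ =
        x * θ * (3 * u - 1 - x * u) := by ring
    linarith
  · linarith
  obtain ⟨η, hη⟩ : ∃ η : ℝ, Y = y0 + η := ⟨Y - y0, by ring⟩
  obtain ⟨s, hs⟩ : ∃ s : ℝ, X + Y = k * x ^ 2 + s := ⟨X + Y - k * x ^ 2, by ring⟩
  have hη1 : 3 * θ < η := by linarith
  have hη2 : η < (3 + x) * θ := by linarith
  have hs1 : x * u * (3 + x) * θ < s := by linarith
  have hs2 : s < 6 * (x * u) * θ := by linarith
  have hs3 : x * u * η < s := by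
    have : x * u * η < x * u * ((3 + x) * θ) := mul_lt_mul_of_pos_left hη2 hxu0
    linarith
  have hs4 : s < 2 * (x * u) * η := by
    have : 2 * (x * u) * (3 * θ) < 2 * (x * u) * η := mul_lt_mul_of_pos_left hη1 (by linarith)
    linarith
  have hY0 : 0 < Y := by linarith
  have hX0 : 0 < X := by linarith
  have hXY0 : 0 < X + Y := by linarith
  have hT : u * Y + v = k * x + u * η := by rw [hη, mul_add, huy]; ring
  have hT0 : 0 < u * Y + v := by positivity
  have huX : u * X ≤ v := by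
    have h5 : X ≤ x0 + 6 * θ := by linarith
    have h6 := mul_le_mul_of_nonneg_left h5 hu0.le
    rw [mul_add, hux0] at h6
    linarith
  obtain ⟨K', hK'⟩ : ∃ K' : ℝ, K' = (u * Y + v) ^ 2 / (X + Y) := ⟨_, rfl⟩
  have hkK : k < K' := by
    rw [hK', lt_div_iff₀ hXY0, hT, hs]
    have h5 : k * s < k * (2 * (x * u) * η) := mul_lt_mul_of_pos_left hs4 hk0
    have h6 : (k * x + u * η) ^ 2 = k * (k * x ^ 2) + k * (2 * (x * u) * η) + (u * η) ^ 2 := by
      ring
    have h7 := sq_nonneg (u * η)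
    rw [h6, mul_add]
    linarith
  have hheight : K' * h ≤ (u * Y + v) * H := by
    have h5 : x * (u * Y + v) ≤ X + Y := by
      have h6 : x * (k * x + u * η) = k * x ^ 2 + x * u * η := by ring
      rw [hT, hs, h6]
      linarith
    have h6 : K' * (x * (u * Y + v)) ≤ (u * Y + v) ^ 2 := by
      have h7 : K' * (X + Y) = (u * Y + v) ^ 2 := by rw [hK']; field_simp
      rw [← h7]
      exact mul_le_mul_of_nonneg_left h5 (by linarith)
    have h8 : K' * x ≤ u * Y + v := by
      have h9 : (K' * x) * (u * Y + v) ≤ (u * Y + v) * (u * Y + v) :=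
        calc (K' * x) * (u * Y + v) = K' * (x * (u * Y + v)) := by ring
          _ ≤ (u * Y + v) ^ 2 := h6
          _ = (u * Y + v) * (u * Y + v) := by ring
      exact le_of_mul_le_mul_right h9 hT0
    have h9 := mul_le_mul_of_nonneg_right h8 hH.le
    have h10 : K' * (x * H) = K' * x * H := by ring
    rw [← hxH, h10]
    exact h9
  have c1 := Sur_points (κ := κ) (w := w) (H := h) (K := K') (μ := u * (u * Y + v))
    (ν := (v - u * X) * (v + u * Y) / (X + Y)) hh hw (by rw [← hk]; exact hkK) (by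
      rw [hK']; field_simp; ring) (u * (-(Y * H)))
  obtain ⟨p, q, hpq⟩ := hc
  have c2 : Sur w (RegO (u * (-(Y * H))) (v * H) (u * (u * Y + v))
      ((v - u * X) * (v + u * Y) / (X + Y))) := by
    refine c1.mono ?_
    rintro m ⟨m1, m2, m3⟩
    refine ⟨m1, m2, ?_⟩
    have : u * (-(Y * H)) + K' * h ≤ v * H := by linarith
    linarith
  have hpq' : u * p + v * q = 1 := by linarith
  have hu0' : 0 ≤ u := by omega
  have hYX : 0 < Y + X := by linarith
  refine Sur_regA (α' := u * (-(Y * H))) (β' := v * H) (μ' := u * (u * Y + v))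
    (ν' := (v - u * X) * (v + u * Y) / (X + Y)) u v p q hpq' hu0' hT0.le huX hYX rfl ?_ rfl ?_ c2
  · ring
  · rw [add_comm Y X, div_mul_cancel₀ _ hXY0.ne']

/-- a group with `k x ≥ 1` in a tube -/
theorem box_heavy {κ : Type} [Fintype κ] {w : κ → ℕ} {H h : ℝ} (hh : 1 ≤ h) (hhH : h < H)
    (hw : ∀ i, (w i : ℝ) + 1 ≤ h) (h1 : H ≤ Fintype.card κ * h) {ε : ℝ} (hε : 0 < ε) :
    Box w H (Fintype.card κ * (h / H) ^ 2 + ε) := by
  have hH : 0 < H := by linarith
  obtain ⟨k, hk⟩ : ∃ k : ℝ, k = Fintype.card κ := ⟨_, rfl⟩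
  obtain ⟨x, hx⟩ : ∃ x : ℝ, x = h / H := ⟨_, rfl⟩
  have hxH : x * H = h := by rw [hx]; field_simp
  have hx0 : 0 < x := by rw [hx]; exact div_pos (by linarith) hH
  have hx1 : x < 1 := by rw [hx, div_lt_one hH]; exact hhH
  have hk0 : 0 ≤ k := by rw [hk]; exact Nat.cast_nonneg _
  have hkx : 1 ≤ k * x := by
    rw [← hxH, ← hk] at h1
    have : 1 * H ≤ (k * x) * H := by linarith
    exact le_of_mul_le_mul_right this hH
  have hf1 := Nat.floor_le (show 0 ≤ 1 / x by positivity)
  have hf2 := Nat.lt_floor_add_one (1 / x)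
  obtain ⟨u, hu⟩ : ∃ u : ℕ, u = ⌊1 / x⌋₊ := ⟨_, rfl⟩
  rw [← hu, le_div_iff₀ hx0] at hf1
  rw [← hu, div_lt_iff₀ hx0] at hf2
  have hu1 : 1 ≤ u := by
    rw [hu]
    exact Nat.le_floor (by rw [Nat.cast_one, one_le_div hx0]; exact hx1.le)
  have hu1R : (1 : ℝ) ≤ u := by exact_mod_cast hu1
  rcases hf1.lt_or_eq with hlt | heq
  · rcases lt_or_ge 1 (k * x ^ 2) with hb | hb
    · -- one and an integer
      have hc1 := Int.ceil_lt_add_one (k * x)
      have hc2 := Int.le_ceil (k * x)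
      refine box_heavyA hh hhH hw 1 (⌈k * x⌉ - 1) le_rfl isCoprime_one_left ?_ ?_ ?_ hε
      · rw [← hx]; push_cast; linarith
      · rw [← hx, ← hk]
        push_cast
        have h5 : k * x * (1 - 1 * x) = k * x - k * x ^ 2 := by ring
        rw [h5]
        linarith
      · rw [← hx, ← hk]; push_cast; linarith
    · have hkx1 : 1 < k * x := by
        rcases hkx.lt_or_eq with g | g
        · exact g
        · exfalso
          -- `1 / x = k` would be an integer
          have e1 : 1 / x = k := by rw [g]; field_simp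
          have e2 : u = Fintype.card κ := by rw [hu, e1, hk]; exact Nat.floor_natCast _
          rw [e2, ← hk, ← g] at hlt
          exact lt_irrefl _ hlt
      refine box_heavyA hh hhH hw (u : ℤ) 1 (by exact_mod_cast hu1) isCoprime_one_right ?_ ?_ ?_ hε
      · rw [← hx]; push_cast; exact hlt
      · rw [← hx, ← hk]
        push_cast
        have h5 : 1 - u * x < x := by linarith
        have h6 : k * x * (1 - u * x) < k * x * x := mul_lt_mul_of_pos_left h5 (by linarith)
        have h7 : k * x * x = k * x ^ 2 := by ring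
        linarith
      · rw [← hx, ← hk]; push_cast; exact hkx1
  · -- `1 / x` is an integer
    rw [← hk, ← hx]
    have hux : (u : ℝ) ^ 2 * x ^ 2 = 1 := by rw [← mul_pow, heq, one_pow]
    have hxk : x ≤ k * x ^ 2 := by
      have := mul_le_mul_of_nonneg_left hkx hx0.le
      have h7 : x * (k * x) = k * x ^ 2 := by ring
      linarith
    refine ⟨k * x ^ 2, k * x ^ 2 + ε / 3, ε / 3, 2 * ε / 3, by linarith, by linarith, by positivity,
      by linarith, by linarith, fun X Y g1 g2 g3 g4 => ?_⟩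
    have huX : 1 ≤ u * X := by
      have : (u : ℝ) * x ≤ u * X := mul_le_mul_of_nonneg_left (by linarith) (by linarith)
      linarith
    have hY0 : 0 < Y := by linarith [show 0 < ε / 3 by positivity]
    have hX0 : 0 < X := by linarith
    have hkK : k < u ^ 2 * (X + Y) := by
      have h5 : (u : ℝ) ^ 2 * (k * x ^ 2) < u ^ 2 * (X + Y) :=
        mul_lt_mul_of_pos_left (by linarith) (by positivity)
      have h6 : (u : ℝ) ^ 2 * (k * x ^ 2) = k := by
        rw [show (u : ℝ) ^ 2 * (k * x ^ 2) = k * (u ^ 2 * x ^ 2) by ring, hux, mul_one]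
      linarith
    have c1 := Sur_points (κ := κ) (w := w) (H := h) (K := u ^ 2 * (X + Y))
      (μ := u * (u * Y + 1)) (ν := u * (u * X - 1)) hh hw (by rw [← hk]; exact hkK) (by ring)
      (u * (-(Y * H)))
    have e1 : (u : ℝ) * (-(Y * H)) + u ^ 2 * (X + Y) * h = u * (X * H) := by
      have : (u : ℝ) * h = H := by rw [← hxH, ← mul_assoc, heq, one_mul]
      have e2 : (u : ℝ) ^ 2 * (X + Y) * h = u * (X + Y) * (u * h) := by ring
      rw [e2, this]; ring
    rw [e1] at c1
    refine Sur_regC (α' := u * (-(Y * H))) (β' := u * (X * H)) (u : ℤ) 1 0 1 (by ring)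
      (by positivity) ?_ ?_ ?_ ?_ rfl rfl ?_
    · push_cast; positivity
    · push_cast; exact huX
    · push_cast; ring
    · push_cast; ring
    · push_cast
      exact c1

/-- adding points of the largest weight to a tube -/
theorem Box.add {κ₁ κ₂ : Type} [Fintype κ₁] [Fintype κ₂] {w₁ : κ₁ → ℕ} {w₂ : κ₂ → ℕ} {H σ : ℝ}
    (hH : 1 ≤ H) (h : Box w₁ H σ) (hw₂ : ∀ i, (w₂ i : ℝ) + 1 ≤ H) {ε : ℝ} (hε : 0 < ε) :
    Box (Sum.elim w₁ w₂) H (σ + Fintype.card κ₂ + ε) := by
  obtain ⟨lx, ux, ly, uy, h1, h2, h3, h4, h5, h6⟩ := h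
  obtain ⟨n, hn⟩ : ∃ n : ℝ, n = Fintype.card κ₂ + ε := ⟨_, rfl⟩
  have hn0 : 0 < n := by
    have : (0 : ℝ) ≤ Fintype.card κ₂ := Nat.cast_nonneg _
    linarith
  refine ⟨lx, ux, n + ly, n + uy, h1, h2, by linarith, by linarith, by linarith,
    fun X Y g1 g2 g3 g4 => ?_⟩
  have a1 := h6 X (Y - n) g1 g2 (by linarith) (by linarith)
  have a2 := Sur_points (κ := κ₂) (w := w₂) (H := H) (K := n) (μ := Y) (ν := n - Y) hH hw₂
    (by linarith) (by ring) (-(Y * H))
  have hX : 0 < X := by linarith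
  have hYn : 0 < Y - n := by linarith
  have key := Sur_cutR (-(Y - n)) (-((Y - n) * H)) (S := RegO (-(Y * H)) (-(Y * H) + n * H) Y (n - Y))
    (U := RegO (-((Y - n) * H)) (X * H) (Y - n) X) (fun m hm => by
      have := hm.2.2
      linarith) (fun m hm => by
      have := hm.2.1
      linarith) a2 a1
  have key2 : Sur (Sum.elim w₂ w₁) (RegO (-(Y * H)) (X * H) Y X) := by
    refine key.mono ?_
    rintro m (hm | hm)
    · obtain ⟨k1, k2, k3⟩ := hm
      refine ⟨k1, k2, ?_⟩
      have k4 : (m.2 : ℝ) < H := by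
        have : n * (m.2 : ℝ) < n * H := by linarith
        exact lt_of_mul_lt_mul_left this hn0.le
      have k5 : (X + (Y - n)) * (m.2 : ℝ) < (X + (Y - n)) * H :=
        mul_lt_mul_of_pos_left k4 (by linarith)
      linarith
    · obtain ⟨k1, k2, k3⟩ := hm
      refine ⟨k1, ?_, k3⟩
      have k4 : (m.2 : ℝ) < H := by
        have : (X + (Y - n)) * (m.2 : ℝ) < (X + (Y - n)) * H := by linarith
        exact lt_of_mul_lt_mul_left this (by linarith)
      have : n * (m.2 : ℝ) < n * H := mul_lt_mul_of_pos_left k4 hn0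
      linarith
  refine Pool.Agent.TH745.MN.Sur_emb (Equiv.sumComm κ₂ κ₁) (Equiv.sumComm κ₂ κ₁).injective ?_
    (fun k _ => (Equiv.sumComm κ₂ κ₁).surjective k) key2
  rintro (i | i) <;> rfl

end Pool.Agent.W2helper31.SN
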