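import Pool.Agent.W2helper31.SN.Block

/-! Iterated doubling with further points. -/

set_option autoImplicit false

namespace Pool.Agent.W2helper31.SN

open Finset Pool.Agent.TH176.Nag Pool.Agent.TH603.Sur Pool.Agent.TH2.NU Pool.Agent.TH641.UM
  Pool.Agent.TH105.QH Pool.Agent.H932R3

/-- emptiness and independence in all degrees with the corresponding sign -/
def Ex {ι : Type} [Fintype ι] (v : ι → ℕ) : Prop :=
  ∀ d, ((d + 2).choose 2 ≤ Pool.Agent.TH603.Sur.cond v → Emp v (TZ d)) ∧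
    (Pool.Agent.TH603.Sur.cond v ≤ (d + 2).choose 2 → Sur v (TZ d))

theorem Ex.of_ms {ι κ : Type} [Fintype ι] [Fintype κ] {w : ι → ℕ} {v : κ → ℕ}
    (h : ms w = ms v) (hv : Ex v) : Ex w := by
  intro d
  rw [cond_of_ms h]
  exact ⟨fun h1 => Emp_of_ms h.ge ((hv d).1 h1), fun h1 => Sur_of_ms h.symm ((hv d).2 h1)⟩

theorem Ex.of_ends {ι : Type} [Fintype ι] {v : ι → ℕ} {D : ℕ}
    (_ : (D + 2).choose 2 ≤ Pool.Agent.TH603.Sur.cond v)
    (h2 : Pool.Agent.TH603.Sur.cond v < (D + 3).choose 2) (hE : Emp v (TZ D))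
    (hS : Sur v (TZ (D + 1))) : Ex v := by
  have hled : ∀ e : ℕ, (e + 2).choose 2 ≤ Pool.Agent.TH603.Sur.cond v → e ≤ D := by
    intro e he
    by_contra hcon
    push Not at hcon
    have : (D + 3).choose 2 ≤ (e + 2).choose 2 := Nat.choose_le_choose 2 (by omega)
    omega
  refine fun e => ⟨fun he => hE.mono (TZ_sub (hled e he)), fun he => ?_⟩
  rcases Nat.lt_or_ge D e with h | h
  · exact hS.mono (TZ_sub h)
  · have h6 : (e + 2).choose 2 ≤ (D + 2).choose 2 := Nat.choose_le_choose 2 (by omega)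
    have h7 : Emp v (↑(Pool.Agent.TH387.SH.TF e) : Set (ℤ × ℤ)) := by
      rw [Pool.Agent.TH387.SH.coe_TF]
      exact hE.mono (TZ_sub h)
    have h8 := Sur_of_Emp (w := v) 0 (T := Pool.Agent.TH387.SH.TF e)
      (by rw [Pool.Agent.TH387.SH.card_TF]; omega) (Emp_zero_iff.2 h7)
    rwa [Pool.Agent.TH387.SH.coe_TF] at h8

/-- the doubling in one degree -/
theorem dbl_one {N b k d : ℕ} {e : Fin k → ℕ} (hN : 0 < N)
    (hS : Sur (Sum.elim (fun _ : Fin N => b) e) (TZ d))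
    (hE : Emp (Sum.elim (fun _ : Fin N => b + 1) e) (TZ d)) :
    ((d + 2).choose 2 ≤ Pool.Agent.TH603.Sur.cond (V N b e) → Emp (V N b e) (TZ d)) ∧
    (Pool.Agent.TH603.Sur.cond (V N b e) ≤ (d + 2).choose 2 → Sur (V N b e) (TZ d)) := by
  have hD := doublingB (N := N) (b := b) (e := e) hN (S := Pool.Agent.TH387.SH.TF d)
    (fun u hu => by
      have h1 : u ∈ TZ d := by rw [← Pool.Agent.TH387.SH.coe_TF]; exact mem_coe.2 hu
      exact ⟨h1.1, h1.2.1⟩)
    (by rw [Pool.Agent.TH387.SH.coe_TF]; exact hS) (by rw [Pool.Agent.TH387.SH.coe_TF]; exact hE)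
  rw [Pool.Agent.TH387.SH.coe_TF, Pool.Agent.TH387.SH.card_TF] at hD
  exact hD

/-- one step -/
theorem Ex.step {N b k : ℕ} {e : Fin k → ℕ} (hN : 0 < N)
    (h1 : Ex (Sum.elim (fun _ : Fin N => b) e)) (h2 : Ex (Sum.elim (fun _ : Fin N => b + 1) e))
    (hK : 2 * Pool.Agent.TH603.Sur.cond (V N b e) ≤ (N * ((b + 1) / 2)) ^ 2)
    (hc : 1 ≤ Pool.Agent.TH603.Sur.cond (V N b e)) : Ex (V N b e) := by
  obtain ⟨D, hD1, hD2⟩ := exists_crit _ hc
  obtain ⟨c, hcc⟩ : ∃ c, c = Pool.Agent.TH603.Sur.cond (V N b e) := ⟨_, rfl⟩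
  obtain ⟨K, hKK⟩ : ∃ K, K = N * ((b + 1) / 2) := ⟨_, rfl⟩
  have hD1' : 2 * (D + 2).choose 2 = (D + 1) * (D + 2) := two_choose (D + 1)
  have hD2' : 2 * (D + 3).choose 2 = (D + 2) * (D + 3) := two_choose (D + 2)
  have hcV := cond_V N b e
  rw [mul_add] at hcV
  have hc1 : Pool.Agent.TH603.Sur.cond (Sum.elim (fun _ : Fin N => b) e) =
      N * (b + 1).choose 2 + Pool.Agent.TH603.Sur.cond e := cond_sum'
  have hc2 : Pool.Agent.TH603.Sur.cond (Sum.elim (fun _ : Fin N => b + 1) e) =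
      N * (b + 2).choose 2 + Pool.Agent.TH603.Sur.cond e := cond_sum'
  have hch : N * (b + 2).choose 2 = N * (b + 1).choose 2 + N * (b + 1) := by
    have : (b + 2).choose 2 = (b + 1).choose 2 + (b + 1) := by
      have g1 := two_choose b
      have g2 : 2 * (b + 2).choose 2 = (b + 1) * (b + 2) := two_choose (b + 1)
      nlinarith
    rw [this, mul_add]
  rw [← hKK] at hK hcV
  rw [← hcc] at hK hcV hD1 hD2
  have hKb : 2 * K ≤ N * (b + 1) := by
    rw [hKK, ← mul_assoc, mul_comm 2 N, mul_assoc]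
    exact Nat.mul_le_mul_left _ (by omega)
  have hDK : D + 2 ≤ K := by
    by_contra hcon
    have g1 : K * (K + 1) ≤ (D + 1) * (D + 2) := Nat.mul_le_mul (by omega) (by omega)
    nlinarith
  have k1 := dbl_one (d := D) hN ((h1 D).2 (by rw [hc1]; nlinarith))
    ((h2 D).1 (by rw [hc2, hch]; omega))
  have k2 := dbl_one (d := D + 1) hN ((h1 (D + 1)).2 (by
    rw [hc1]
    show _ ≤ (D + 3).choose 2
    omega))
    ((h2 (D + 1)).1 (by
      rw [hc2, hch]
      show (D + 3).choose 2 ≤ _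
      nlinarith))
  rw [hcc] at hD1 hD2
  exact Ex.of_ends hD1 hD2 (k1.1 hD1) (k2.2 hD2.le)

/-- the block of a doubled even number -/
theorem ms_even (N b : ℕ) {k : ℕ} (x : Fin k → ℕ) :
    ms (Sum.elim (fun _ : Fin (4 * N) => b) x) = ms (V N (2 * b) x) := by
  unfold ms V
  rw [Fintype.sum_sum_type, Fintype.sum_sum_type, Fintype.sum_prod_type]
  have h1 : 2 * b / 2 = b := by omega
  have h2 : (2 * b + 1) / 2 = b := by omega
  simp only [Sum.elim_inl, Sum.elim_inr, Fintype.sum_prod_type, Fin.sum_univ_two, qv, Fin.val_zero,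
    Fin.val_one, add_zero, sum_const, card_univ, Fintype.card_fin, h1, h2]
  congr 1
  rw [← add_nsmul, smul_smul]
  congr 1
  ring

/-- **iterated doubling** -/
theorem Ex.iter {N B k : ℕ} {x : Fin k → ℕ} (h : Adm N B x)
    (hloss : (N + ∑ i, (x i + 1)) ^ 2 ≤ N * (B + 1) ^ 2) (j : ℕ) :
    ∀ b, B ≤ 2 ^ j * b → Ex (V (4 ^ j * N) b x) := by
  have hN := h.mass
  have hB := h.pos
  induction j with
  | zero =>
    intro b hb
    rw [pow_zero, one_mul] at hb ⊢
    obtain ⟨M, hM⟩ := h.bal hb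
    obtain ⟨M', hM'⟩ := h.bal (hb.trans (Nat.le_succ b))
    obtain ⟨D, a1, a2, a3, a4⟩ := ends (by omega) hM hM' (by
      have g1 : loss N b x ≤ N + ∑ i, (x i + 1) := by
        unfold loss
        split_ifs <;> omega
      have g2 : loss N b x ^ 2 ≤ (N + ∑ i, (x i + 1)) ^ 2 := Nat.pow_le_pow_left g1 2
      have g3 : N * (B + 1) ^ 2 ≤ N * (b + 1) ^ 2 :=
        Nat.mul_le_mul_left _ (Nat.pow_le_pow_left (by omega) 2)
      omega)
    exact Ex.of_ends a1 a2 a3 a4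
  | succ j ih =>
    intro b hb
    have hb0 : 0 < b := by
      rcases Nat.eq_zero_or_pos b with h0 | h0
      · rw [h0, mul_zero] at hb
        omega
      · exact h0
    have e4 : 4 ^ (j + 1) * N = 4 * (4 ^ j * N) := by ring
    have s1 : Ex (V (4 ^ j * N) (2 * b) x) := ih _ (by rw [pow_succ, mul_assoc] at hb; exact hb)
    have s2 : Ex (V (4 ^ j * N) (2 * (b + 1)) x) := ih _ (by
      rw [pow_succ, mul_assoc] at hb
      exact hb.trans (Nat.mul_le_mul_left _ (by omega)))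
    have t1 := Ex.of_ms (ms_even (4 ^ j * N) b x) s1
    have t2 := Ex.of_ms (ms_even (4 ^ j * N) (b + 1) x) s2
    rw [e4]
    obtain ⟨n, hn⟩ : ∃ n, n = 4 * (4 ^ j * N) := ⟨_, rfl⟩
    rw [← hn] at t1 t2 ⊢
    have hn144 : 144 ≤ n := by
      have : 1 ≤ 4 ^ j := Nat.one_le_pow _ _ (by norm_num)
      nlinarith
    -- the sizes
    have hx1 : ∑ i, (x i + 1) ^ 2 ≤ (∑ i, (x i + 1)) ^ 2 :=
      sum_sq_le_sq_sum_of_nonneg (fun i _ => Nat.zero_le _)
    have hx2 : (∑ i, (x i + 1)) ^ 2 ≤ N * (B + 1) ^ 2 :=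
      (Nat.pow_le_pow_left (Nat.le_add_left _ _) 2).trans hloss
    have hx3 : N * (B + 1) ^ 2 ≤ 4 * (N * B ^ 2) := by
      have : (B + 1) ^ 2 ≤ (2 * B) ^ 2 := Nat.pow_le_pow_left (by omega) 2
      calc N * (B + 1) ^ 2 ≤ N * (2 * B) ^ 2 := Nat.mul_le_mul_left _ this
        _ = 4 * (N * B ^ 2) := by ring
    have hx4 : N * B ^ 2 ≤ n * b ^ 2 := by
      calc N * B ^ 2 ≤ N * (2 ^ (j + 1) * b) ^ 2 :=
            Nat.mul_le_mul_left _ (Nat.pow_le_pow_left hb 2)
        _ = n * b ^ 2 := by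
            rw [hn, mul_pow, ← pow_mul, mul_comm (j + 1) 2, pow_mul]
            norm_num
            ring
    have hc := two_cond n b x
    obtain ⟨c, hcc⟩ : ∃ c, c = Pool.Agent.TH603.Sur.cond (V n b x) := ⟨_, rfl⟩
    rw [← hcc] at hc
    have hcle : 2 * c ≤ n * (b + 1) ^ 2 + 4 * (n * b ^ 2) := by omega
    refine Ex.step (by omega) t1 t2 ?_ ?_
    · rw [← hcc]
      refine hcle.trans ?_
      rcases Nat.lt_or_ge b 2 with hb2 | hb2
      · have : b = 1 := by omega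
        subst this
        norm_num
        nlinarith
      · have g1 : b ≤ 2 * ((b + 1) / 2) := by omega
        have g2 : n * b ^ 2 * n ≤ 4 * (n * ((b + 1) / 2)) ^ 2 := by
          calc n * b ^ 2 * n ≤ n * (2 * ((b + 1) / 2)) ^ 2 * n :=
                Nat.mul_le_mul_right _ (Nat.mul_le_mul_left _ (Nat.pow_le_pow_left g1 2))
            _ = 4 * (n * ((b + 1) / 2)) ^ 2 := by ring
        have g3 : 4 * (b + 1) ^ 2 ≤ 9 * b ^ 2 := by nlinarith
        have g4 : n * b ^ 2 * 144 ≤ n * b ^ 2 * n := Nat.mul_le_mul_left _ hn144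
        have g5 : n * (4 * (b + 1) ^ 2) ≤ n * (9 * b ^ 2) := Nat.mul_le_mul_left _ g3
        nlinarith
    · rw [← hcc]
      by_contra hcon
      have hc0 : c = 0 := by omega
      have g1 := cond_V n b x
      rw [← hcc, hc0] at g1
      have g2 : 0 < n * ((b + 1).choose 2 + (b + 1) / 2) :=
        Nat.mul_pos (by omega) (by have : 0 < (b + 1) / 2 := by omega
                                   omega)
      omega

end Pool.Agent.W2helper31.SN
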