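import Pool.Agent.TH745.MN.Key

/-! Emptiness at several nodes, for sets of monomials with arbitrary rows. -/

set_option autoImplicit false

namespace Pool.Agent.W2helper31.SN

open Finset Pool.Agent.TH745.MN Pool.Agent.TH603.EL Pool.Agent.TH603.EL.Scal2
  Pool.Agent.TH793.NG Pool.Agent.TH176.Nag Pool.Agent.TH603.Sur

/-- the exponents seen at a node with orders `a`, `b`, with threshold `ω l` in row `l < L` -/
def SR (L : ℕ) (a b : ℝ) (ω : ℕ → ℝ) : Set (ℤ × ℤ) :=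
  {m | 0 ≤ m.2 ∧ m.2 < (L : ℤ) ∧ a * m.1 < ω m.2.toNat ∧ -(b * m.1) < ω m.2.toNat}

/-- the monomials `x ^ i y ^ (2 l)`, `i ≤ W l`, and `x ^ i y ^ (2 l + 1)`, `i + q ≤ W l` -/
def TR (q L : ℕ) (W : ℕ → ℕ) : Set (ℤ × ℤ) :=
  {m | 0 ≤ m.1 ∧ ∃ l : ℕ, l < L ∧ ((m.2 = 2 * l ∧ m.1 ≤ W l) ∨ (m.2 = 2 * l + 1 ∧ m.1 + q ≤ W l))}

section
variable {F : Type} [Field F]

/-- expansions in powers of the equation with prescribed degrees of the coefficients -/
def Gw (R : Polynomial (HK F)) (q L : ℕ) (W : ℕ → ℕ) (p : PXY F) : Prop :=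
  ∃ A B : PXY F, (∀ j, A.coeff j = 0 ∨ (j < L ∧ (A.coeff j).natDegree ≤ W j)) ∧
    (∀ j, B.coeff j = 0 ∨ (j < L ∧ (B.coeff j).natDegree + q ≤ W j)) ∧
    p = A.comp (hR R) + B.comp (hR R) * Polynomial.X

variable {R : Polynomial (HK F)}

theorem Gw_zero {q L : ℕ} {W : ℕ → ℕ} : Gw R q L W (0 : PXY F) :=
  ⟨0, 0, fun j => Or.inl (by simp), fun j => Or.inl (by simp), by simp⟩

theorem Gw_add {q L : ℕ} {W : ℕ → ℕ} {p p' : PXY F} (hp : Gw R q L W p) (hp' : Gw R q L W p') :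
    Gw R q L W (p + p') := by
  obtain ⟨A, B, h1, h2, rfl⟩ := hp
  obtain ⟨A', B', h1', h2', rfl⟩ := hp'
  refine ⟨A + A', B + B', ?_, ?_, ?_⟩
  · intro j
    rw [Polynomial.coeff_add]
    rcases h1 j with h | h
    · rw [h, zero_add]; exact h1' j
    · rcases h1' j with h' | h'
      · rw [h', add_zero]; exact Or.inr h
      · exact Or.inr ⟨h.1, (Polynomial.natDegree_add_le _ _).trans (max_le h.2 h'.2)⟩
  · intro j
    rw [Polynomial.coeff_add]
    rcases h2 j with h | h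
    · rw [h, zero_add]; exact h2' j
    · rcases h2' j with h' | h'
      · rw [h', add_zero]; exact Or.inr h
      · refine Or.inr ⟨h.1, ?_⟩
        have := Polynomial.natDegree_add_le (B.coeff j) (B'.coeff j)
        have h3 := h.2
        have h4 := h'.2
        rcases le_max_iff.1 this with h5 | h5 <;> omega
  · rw [Polynomial.add_comp, Polynomial.add_comp]; ring

theorem Gw_sum {q L : ℕ} {W : ℕ → ℕ} {κ : Type*} (t : Finset κ) (f : κ → PXY F)
    (h : ∀ k ∈ t, Gw R q L W (f k)) : Gw R q L W (∑ k ∈ t, f k) := by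
  classical
  induction t using Finset.induction_on with
  | empty => simpa using Gw_zero
  | insert k t hk ih =>
    rw [Finset.sum_insert hk]
    exact Gw_add (h k (Finset.mem_insert_self _ _))
      (ih fun j hj => h j (Finset.mem_insert_of_mem hj))

theorem coeff_bd (p : Polynomial (HK F)) {d : ℕ} (hR : R.natDegree ≤ d) (l j : ℕ) :
    (Polynomial.C p * (Polynomial.X + Polynomial.C R) ^ l : PXY F).coeff j = 0 ∨
      (j ≤ l ∧ ((Polynomial.C p * (Polynomial.X + Polynomial.C R) ^ l : PXY F).coeff j).natDegree ≤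
        p.natDegree + d * (l - j)) := by
  rw [Polynomial.coeff_C_mul, Polynomial.coeff_X_add_C_pow]
  by_cases hj : j ≤ l
  · right
    refine ⟨hj, ?_⟩
    refine Polynomial.natDegree_mul_le.trans (Nat.add_le_add_left ?_ _)
    refine Polynomial.natDegree_mul_le.trans ?_
    rw [Polynomial.natDegree_natCast, add_zero]
    refine Polynomial.natDegree_pow_le.trans ?_
    rw [mul_comm]
    exact Nat.mul_le_mul_right _ hR
  · left
    rw [Nat.choose_eq_zero_of_lt (by omega)]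
    simp

theorem comp_hR (p : Polynomial (HK F)) (l : ℕ) :
    (Polynomial.C p * (Polynomial.X + Polynomial.C R) ^ l : PXY F).comp (hR R) =
      Polynomial.C p * Polynomial.X ^ (2 * l) := by
  have h : (hR R : PXY F) + Polynomial.C R = Polynomial.X ^ 2 := by
    unfold hR; ring
  rw [Polynomial.mul_comp, Polynomial.pow_comp, Polynomial.add_comp, Polynomial.C_comp,
    Polynomial.X_comp, Polynomial.C_comp, h, pow_mul]

theorem Gw_pf {q L d : ℕ} {W : ℕ → ℕ} (hR : R.natDegree ≤ d)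
    (hW : ∀ l < L, ∀ j ≤ l, W l + d * (l - j) ≤ W j) {f : (ℤ × ℤ) →₀ HK F}
    (hf : ∀ m ∈ f.support, m ∈ TR q L W) : Gw R q L W (pf f) := by
  unfold pf
  apply Gw_sum
  intro m hm
  obtain ⟨h0, l, hl, h⟩ := hf m hm
  have h4 := Polynomial.natDegree_C_mul_X_pow_le (f m) m.1.toNat
  obtain ⟨p, hp⟩ : ∃ p : Polynomial (HK F), p = Polynomial.C (f m) * Polynomial.X ^ m.1.toNat :=
    ⟨_, rfl⟩
  rw [← hp] at h4 ⊢
  rcases h with ⟨h1, h2⟩ | ⟨h1, h2⟩
  · have e1 : m.2.toNat = 2 * l := by omega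
    rw [e1]
    refine ⟨Polynomial.C p * (Polynomial.X + Polynomial.C R) ^ l, 0, ?_, fun j => Or.inl (by simp), ?_⟩
    · intro j
      rcases coeff_bd p hR l j with h | ⟨h, h'⟩
      · exact Or.inl h
      · refine Or.inr ⟨by omega, h'.trans ?_⟩
        have := hW l hl j h
        omega
    · rw [comp_hR, Polynomial.zero_comp, zero_mul, add_zero]
  · have e1 : m.2.toNat = 2 * l + 1 := by omega
    rw [e1]
    refine ⟨0, Polynomial.C p * (Polynomial.X + Polynomial.C R) ^ l, fun j => Or.inl (by simp), ?_, ?_⟩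
    · intro j
      rcases coeff_bd p hR l j with h | ⟨h, h'⟩
      · exact Or.inl h
      · refine Or.inr ⟨by omega, ?_⟩
        have := hW l hl j h
        omega
    · rw [comp_hR, Polynomial.zero_comp, zero_add, pow_succ, mul_assoc]

/-- the leading coefficient of a nonzero polynomial at all the nodes -/
theorem nod_leadR [CharZero F] {β : Type} [Fintype β] [DecidableEq β]
    {Rb : Polynomial F} (hodd : Odd Rb.natDegree) {q L : ℕ} {W : ℕ → ℕ}
    (hRb : Rb.natDegree + 1 ≤ 2 * q) {κ : ℝ} {a b s : β → ℝ}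
    {c : β → F} (hc : Function.Injective c) {xx yy U : β → HR F}
    (hT : ∀ i, Tb R Rb (a i) (b i) (s i) κ (c i) (xx i) (yy i) (U i))
    {ω : ℕ → ℝ} (hω0 : ∀ l < L, 0 < ω l)
    (hω : ∀ l < L, 2 * W l + 1 ≤ ∑ i, (⌈ω l / a i⌉₊ + ⌈ω l / b i⌉₊))
    (hs : ∀ i, ∀ l < L, ω l ≤ s i) {p : PXY F} (hp : p ≠ 0)
    (hg : Gw R q L W p) :
    ∃ n : ℝ, (∃ i k j, cf (EV (xx i) (yy i) p) n k j ≠ 0) ∧
      ∀ i k j, cf (EV (xx i) (yy i) p) n k j ≠ 0 → (k, j) ∈ SR L (a i) (b i) ω := by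
  classical
  obtain ⟨A, B, hA, hB, rfl⟩ := hg
  obtain ⟨N, hNA, hNB⟩ : ∃ N, A.natDegree < N ∧ B.natDegree < N :=
    ⟨max A.natDegree B.natDegree + 1, by omega, by omega⟩
  obtain ⟨G, hGd⟩ : ∃ G : β → ℕ → HR F, ∀ i j, G i j = evA (xx i) (A.coeff j) +
      evA (xx i) (B.coeff j) * yy i := ⟨_, fun _ _ => rfl⟩
  have hval : ∀ i, EV (xx i) (yy i) (A.comp (hR R) + B.comp (hR R) * Polynomial.X) =
      ∑ j ∈ Finset.range N, tz F (j * κ) 0 j * (G i j * U i ^ j) := by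
    intro i
    rw [map_add, map_mul, EV_X, Pool.Agent.TH713.MN.EV_comp_hR _ _ _ A N hNA,
      Pool.Agent.TH713.MN.EV_comp_hR _ _ _ B N hNB,
      Finset.sum_mul, ← Finset.sum_add_distrib]
    refine Finset.sum_congr rfl fun j _ => ?_
    rw [Pool.Agent.TH713.MN.EV_hR, (hT i).curve, mul_pow, Pool.Agent.TH713.MN.tz_pow, hGd i j]
    ring
  simp only [hval]
  -- the indices with nonzero sections
  obtain ⟨J, hJ⟩ : ∃ J : Finset ℕ,
      J = (Finset.range N).filter fun j => A.coeff j ≠ 0 ∨ B.coeff j ≠ 0 := ⟨_, rfl⟩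
  have hJm : ∀ j ∈ J, j < L := by
    intro j hj
    rw [hJ, Finset.mem_filter] at hj
    rcases hj.2 with h | h
    · rcases hA j with h1 | h1
      · exact absurd h1 h
      · exact h1.1
    · rcases hB j with h1 | h1
      · exact absurd h1 h
      · exact h1.1
  have hlead : ∀ j ∈ J, ∃ n : ℝ, (∀ i, Low (G i j) n) ∧ (∃ i k j', cf (G i j) n k j' ≠ 0) ∧
      ∀ i k j', cf (G i j) n k j' ≠ 0 → j' = 0 ∧ a i * k < ω j ∧
        -(b i * k) < ω j := by
    intro j hj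
    have hm := hJm j hj
    rw [hJ, Finset.mem_filter] at hj
    obtain ⟨n, h1, h2, h4⟩ := Pool.Agent.TH236.MN.g_lead hodd hc hT (m := W j) (ω := ω j)
      (hω0 j hm) (hω j hm) (fun i => hs i j hm)
      (A.coeff j) (B.coeff j) hj.2 (by
        rcases hA j with h | h
        · rw [h]; simp
        · exact h.2) (by
        rcases hB j with h | h
        · left; exact h
        · right
          have h3 := h.2
          omega)
    refine ⟨n, fun i => by rw [hGd i j]; exact h1 i, ?_, ?_⟩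
    · obtain ⟨i, k, j', h5⟩ := h2
      exact ⟨i, k, j', by rw [hGd i j]; exact h5⟩
    · intro i k j' hij
      rw [hGd i j] at hij
      exact h4 i k j' hij
  choose! nu hnu1 hnu2 hnu3 using hlead
  have hJne : J.Nonempty := by
    by_contra hcon
    rw [Finset.not_nonempty_iff_eq_empty] at hcon
    apply hp
    have hz : ∀ j, A.coeff j = 0 ∧ B.coeff j = 0 := by
      intro j
      by_cases hj : j < N
      · have : j ∉ J := by rw [hcon]; simp
        rw [hJ, Finset.mem_filter] at this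
        push Not at this
        exact this (Finset.mem_range.2 hj)
      · exact ⟨Polynomial.coeff_eq_zero_of_natDegree_lt (by omega),
          Polynomial.coeff_eq_zero_of_natDegree_lt (by omega)⟩
    have hA0 : A = 0 := by ext1 j; simpa using (hz j).1
    have hB0 : B = 0 := by ext1 j; simpa using (hz j).2
    rw [hA0, hB0]; simp
  obtain ⟨j0, hj0, hmin⟩ := Finset.exists_min_image J (fun j => nu j + j * κ) hJne
  obtain ⟨n0, hn0⟩ : ∃ n0, n0 = nu j0 + j0 * κ := ⟨_, rfl⟩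
  -- the coefficients at the level `nu j`
  have hcoef : ∀ (i : β) (j : ℕ), j ∈ J → ∃ v : F, v ≠ 0 ∧ ∀ k l : ℤ,
      cf (G i j * U i ^ j) (nu j) k l = v * cf (G i j) (nu j) k l := by
    intro i j hj
    obtain ⟨u, hu0, hu⟩ := (hT i).cU
    obtain ⟨hU1, hU2⟩ := Pool.Agent.TH713.MN.coeff_unit (hT i).lowU hu j
    refine ⟨u ^ j, pow_ne_zero _ hu0, fun k l => ?_⟩
    have h2 := (hnu1 j hj i).coeff_mul hU1
    rw [add_zero, hU2] at h2
    unfold cf
    rw [h2, mul_comm, ← Algebra.smul_def, AddMonoidAlgebra.coeff_smul, Finsupp.smul_apply,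
      smul_eq_mul]
  -- the terms
  have hterm : ∀ i, ∀ j ∈ Finset.range N, ∀ k j' : ℤ,
      cf (tz F (j * κ) 0 j * (G i j * U i ^ j)) n0 k j' ≠ 0 →
      j ∈ J ∧ nu j + j * κ = n0 ∧ j' = j ∧ cf (G i j) (nu j) k 0 ≠ 0 := by
    intro i j hj k j' h
    rw [cf_tz_mul] at h
    have hjJ : j ∈ J := by
      by_contra hcon
      rw [hJ, Finset.mem_filter] at hcon
      push Not at hcon
      obtain ⟨hA0, hB0⟩ := hcon hj
      apply h
      rw [hGd i j, hA0, hB0]
      simp [evA, cf_zero]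
    obtain ⟨u, hu0, hu⟩ := (hT i).cU
    obtain ⟨hU1, -⟩ := Pool.Agent.TH713.MN.coeff_unit (hT i).lowU hu j
    have hlow := (hnu1 j hjJ i).mul hU1
    rw [add_zero] at hlow
    have hle := hmin j hjJ
    have heq : nu j + j * κ = n0 := by
      apply le_antisymm
      · by_contra hlt
        apply h
        unfold cf
        rw [hlow _ (by linarith)]
        simp
      · rw [hn0]; exact hle
    have h1 : n0 - j * κ = nu j := by linarith
    rw [h1] at h
    obtain ⟨v, hv0, hv⟩ := hcoef i j hjJ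
    rw [hv] at h
    have h4 := right_ne_zero_of_mul h
    have h5 := hnu3 j hjJ _ _ _ h4
    have h6 : j' = j := by have := h5.1; omega
    refine ⟨hjJ, heq, h6, ?_⟩
    rw [h6, sub_self, sub_zero] at h4
    exact h4
  refine ⟨n0, ?_, ?_⟩
  · obtain ⟨i0, k0, j1, h1⟩ := hnu2 j0 hj0
    have h2 := (hnu3 j0 hj0 _ _ _ h1).1
    rw [h2] at h1
    refine ⟨i0, k0, j0, ?_⟩
    rw [cf_sum, Finset.sum_eq_single j0]
    · rw [cf_tz_mul]
      have h3 : n0 - j0 * κ = nu j0 := by linarith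
      obtain ⟨v, hv0, hv⟩ := hcoef i0 j0 hj0
      rw [h3, sub_self, sub_zero, hv]
      exact mul_ne_zero hv0 h1
    · intro j hj hne
      by_contra hcon
      have := (hterm i0 j hj _ _ hcon).2.2.1
      apply hne
      exact_mod_cast this.symm
    · intro h
      exfalso
      apply h
      rw [hJ] at hj0
      exact (Finset.mem_filter.1 hj0).1
  · intro i k j' h
    rw [cf_sum] at h
    obtain ⟨j, hj, hj'⟩ := Finset.exists_ne_zero_of_sum_ne_zero h
    obtain ⟨h1, h2, h3, h4⟩ := hterm i j hj _ _ hj'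
    obtain ⟨_, h5, h6⟩ := hnu3 j h1 _ _ _ h4
    have h7 := hJm j h1
    rw [h3]
    refine ⟨Int.natCast_nonneg _, ?_, ?_, ?_⟩
    · dsimp only
      exact_mod_cast h7
    · dsimp only
      rw [Int.toNat_natCast]
      exact h5
    · dsimp only
      rw [Int.toNat_natCast]
      exact h6

end

theorem SR_finite {L : ℕ} {a b : ℝ} (ha : 0 < a) (hb : 0 < b) (ω : ℕ → ℝ) :
    (SR L a b ω).Finite := by
  obtain ⟨Ω, hΩ⟩ : ∃ Ω : ℝ, ∀ l < L, ω l ≤ Ω := by
    refine ⟨∑ l ∈ Finset.range L, |ω l|, fun l hl => ?_⟩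
    refine (le_abs_self _).trans ?_
    exact Finset.single_le_sum (f := fun l => |ω l|) (fun i _ => abs_nonneg _)
      (Finset.mem_range.2 hl)
  refine Set.Finite.subset ((Set.finite_Icc (-⌈Ω / b⌉) ⌈Ω / a⌉).prod
    (Set.finite_Icc (0 : ℤ) (L : ℤ))) ?_
  rintro m ⟨h1, h2, h3, h4⟩
  have h5 := hΩ m.2.toNat (by omega)
  refine ⟨⟨?_, ?_⟩, h1, h2.le⟩
  · have h6 : -(m.1 : ℝ) ≤ Ω / b := by
      rw [le_div_iff₀ hb]
      linarith
    have h7 : (-(m.1 : ℤ) : ℝ) ≤ ((⌈Ω / b⌉ : ℤ) : ℝ) := h6.trans (Int.le_ceil _)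
    have h8 : -m.1 ≤ ⌈Ω / b⌉ := by exact_mod_cast h7
    show -⌈Ω / b⌉ ≤ m.1
    linarith
  · have h6 : (m.1 : ℝ) ≤ Ω / a := by
      rw [le_div_iff₀ ha]
      linarith
    have h7 : ((m.1 : ℤ) : ℝ) ≤ ((⌈Ω / a⌉ : ℤ) : ℝ) := h6.trans (Int.le_ceil _)
    exact_mod_cast h7

/-- the key lemma: emptiness on the set of monomials from emptiness at the nodes -/
theorem Emp_keyR {r q L : ℕ} (hq : q = r + 1) {W : ℕ → ℕ}
    (hW : ∀ l < L, ∀ j ≤ l, W l + (2 * r + 1) * (l - j) ≤ W j)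
    {κ : Fin r → Type} [∀ i, Finite (κ i)]
    {v : (Σ i, κ i) → ℕ} {a b : Fin r → ℝ} (ha : ∀ i, 0 < a i) (hb : ∀ i, 0 < b i) {ω : ℕ → ℝ}
    (hω0 : ∀ l < L, 0 < ω l)
    (hω : ∀ l < L, 2 * W l + 1 ≤ ∑ i, (⌈ω l / a i⌉₊ + ⌈ω l / b i⌉₊))
    (h : ∀ i, Emp (fun j => v ⟨i, j⟩) (SR L (a i) (b i) ω)) :
    Emp v (TR q L W) := by
  classical
  obtain ⟨x, y, hx, hy, hE⟩ := Pool.Agent.TH509.MN.common_points
    (fun i => SR_finite (L := L) (ha i) (hb i) ω) h
  obtain ⟨ell, hell⟩ : ∃ ell : Fin r → ℝ, ∀ i, a i + b i = ell i := ⟨_, fun i => rfl⟩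
  have hell0 : ∀ i, 0 < ell i := fun i => by
    rw [← hell i]
    exact add_pos (ha i) (hb i)
  obtain ⟨k, hk⟩ : ∃ k : ℝ, k = 2 * ∑ i, ell i + ∑ l ∈ Finset.range L, |ω l| + 1 := ⟨_, rfl⟩
  have hωs : ∀ l < L, ω l ≤ ∑ l ∈ Finset.range L, |ω l| := fun l hl =>
    (le_abs_self _).trans (Finset.single_le_sum (f := fun l => |ω l|) (fun i _ => abs_nonneg _)
      (Finset.mem_range.2 hl))
  have hωs0 : 0 ≤ ∑ l ∈ Finset.range L, |ω l| := Finset.sum_nonneg fun _ _ => abs_nonneg _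
  have hells : ∀ i, ell i ≤ ∑ i, ell i := fun i =>
    Finset.single_le_sum (fun j _ => (hell0 j).le) (Finset.mem_univ i)
  have hk2 : ∀ i, 2 * ell i < k := fun i => by
    have := hells i
    rw [hk]
    linarith
  have hs : ∀ i, ∀ l < L, ω l ≤ k - ell i := fun i l hl => by
    have h1 := hells i
    have h2 := hωs l hl
    have h3 := hell0 i
    rw [hk]
    linarith
  choose xx yy U hT using fun i =>
    Pool.Agent.TH695.MN.exists_tube (F := ℚ) hell0 (κ := k) i (ha i) (hb i) (hell i) (hk2 i)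
  have hchar : CharZero (HK ℚ) :=
    charZero_of_injective_ringHom (f := (HahnSeries.C : ℚ →+* HK ℚ)) HahnSeries.C_injective
  have hU : ∀ (q : Σ i, κ i) (l : ZMod 3),
      evp (hx q.1 q.2) (hy q.1 q.2) (UU (xx q.1) (yy q.1) l) ≠ 0 := by
    intro q l
    unfold UU
    split_ifs
    · rw [map_one]; exact one_ne_zero
    · exact (hT q.1).nx _ _ _ _
    · exact (hT q.1).ny _ _ _ _
  refine ⟨HK ℚ, inferInstance, hchar,
    fun q => evp (hx q.1 q.2) (hy q.1 q.2) (UU (xx q.1) (yy q.1) 1) /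
      evp (hx q.1 q.2) (hy q.1 q.2) (UU (xx q.1) (yy q.1) 0),
    fun q => evp (hx q.1 q.2) (hy q.1 q.2) (UU (xx q.1) (yy q.1) 2) /
      evp (hx q.1 q.2) (hy q.1 q.2) (UU (xx q.1) (yy q.1) 0),
    fun q => div_ne_zero (hU q 1) (hU q 0), fun q => div_ne_zero (hU q 2) (hU q 0), ?_⟩
  intro f hf hLM
  by_contra hne0
  obtain ⟨D, hD⟩ : ∃ D : ℕ, D = W 0 + 2 * L := ⟨_, rfl⟩
  have hf0 : ∀ m ∈ f.support, 0 ≤ m.1 ∧ 0 ≤ m.2 := by
    intro m hm
    obtain ⟨h1, l, h2, h3⟩ := hf hm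
    refine ⟨h1, ?_⟩
    rcases h3 with h3 | h3 <;> omega
  have hf1 : ∀ m ∈ f.support, 0 ≤ m.1 ∧ 0 ≤ m.2 ∧ m.1 + m.2 ≤ (D : ℤ) := by
    intro m hm
    obtain ⟨h1, l, h2, h3⟩ := hf hm
    have h4 := hW l h2 0 (Nat.zero_le _)
    have h5 : W l ≤ W 0 := le_trans (Nat.le_add_right _ _) h4
    rcases h3 with h3 | h3
    · refine ⟨h1, by omega, by omega⟩
    · refine ⟨h1, by omega, by omega⟩
  have hodd : Odd (Rb ℚ r).natDegree := by
    rw [Pool.Agent.TH113.MN.natDegree_Rb]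
    exact ⟨r, rfl⟩
  obtain ⟨n, ⟨i0, k0, j0, ha0⟩, hb0⟩ := nod_leadR hodd (q := q)
    (by rw [Pool.Agent.TH113.MN.natDegree_Rb]; omega)
    Pool.Agent.TH113.MN.cc_injective hT hω0 hω hs (pf_ne hf0 hne0)
    (Gw_pf (Pool.Agent.TH113.MN.natDegree_RR_le ell) hW fun m hm => hf hm)
  rw [← ev_hom _ _ D f] at ha0
  have h2 : ((ev (UU (xx i0) (yy i0)) (hom D f)).coeff n).coeff = 0 := by
    apply hE i0
    · intro m hm
      have hm' : cf (EV (xx i0) (yy i0) (pf f)) n m.1 m.2 ≠ 0 := by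
        rw [← ev_hom _ _ D f]
        exact Finsupp.mem_support_iff.1 hm
      exact hb0 i0 m.1 m.2 hm'
    · intro j
      exact LM_transfer (hx i0 j) (hy i0 j) (hU ⟨i0, j⟩) hf1 (hLM ⟨i0, j⟩) n
  apply ha0
  unfold cf
  rw [h2]
  rfl

end Pool.Agent.W2helper31.SN
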