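import Pool.Agent.W2helper31.SN.Tube
import Pool.Agent.TH648.SH.Plane

/-! Independence in the plane from independence at the nodes. -/

set_option autoImplicit false

namespace Pool.Agent.W2helper31.SN

open Finset Pool.Agent.TH176.Nag Pool.Agent.TH603.Sur Pool.Agent.TH181.NagM Pool.Agent.TH648.SH

/-- nodes with open conditions -/
theorem Sur_star_box {r : ℕ} (hr : 1 ≤ r) {ρ : ℝ} (hρ : (r : ℝ) + 1 ≤ ρ)
    {κ : Fin r → Type} [∀ i, Fintype (κ i)] {w : (Σ i, κ i) → ℕ} {σ : Fin r → ℝ}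
    (hσ : ∑ i, σ i ≤ 4 * ρ) {E : ℝ}
    (h : ∀ i, Box (fun j => w ⟨i, j⟩) (E / (2 * ρ)) (σ i)) (α : ℝ) :
    Sur w (RegO α (α + E) 0 ρ) := by
  choose lx ux ly uy a1 a2 a3 a4 a5 a6 using h
  obtain ⟨z, hz, hirr⟩ := Pool.Agent.TH522.MN.exists_generic (J := Fin r ⊕ Fin r)
    (Sum.elim lx ly) (Sum.elim ux uy) (by rintro (i | i) <;> simp [a1, a3])
    (by rintro (i | i) <;> simp [a2, a4])
  have z1 : ∀ i, lx i < z (Sum.inl i) ∧ z (Sum.inl i) < ux i := fun i => hz (Sum.inl i)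
  have z2 : ∀ i, ly i < z (Sum.inr i) ∧ z (Sum.inr i) < uy i := fun i => hz (Sum.inr i)
  have e : Sum.elim (fun i => z (Sum.inl i)) (fun i => z (Sum.inr i)) = z := by
    funext p
    rcases p with i | i <;> rfl
  refine Sur_star hr hρ (X := fun i => z (Sum.inl i)) (Y := fun i => z (Sum.inr i))
    (fun i => (a1 i).trans (z1 i).1) (fun i => (a3 i).trans (z2 i).1) ?_ ?_ ?_ α
  · refine le_trans (sum_le_sum fun i _ => ?_) hσ
    have := (z1 i).2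
    have := (z2 i).2
    have := a5 i
    linarith
  · intro p q hpq
    rw [e]
    exact hirr p q hpq
  · intro i
    exact a6 i _ _ (z1 i).1 (z1 i).2 (z2 i).1 (z2 i).2

theorem Box.mono {κ : Type} [Fintype κ] {w : κ → ℕ} {H H' σ σ' : ℝ} (h : Box w H σ)
    (hH : H ≤ H') (hσ : σ ≤ σ') : Box w H' σ' := by
  obtain ⟨lx, ux, ly, uy, h1, h2, h3, h4, h5, h6⟩ := h
  refine ⟨lx, ux, ly, uy, h1, h2, h3, h4, h5.trans hσ, fun X Y g1 g2 g3 g4 => ?_⟩
  refine (h6 X Y g1 g2 g3 g4).mono ?_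
  rintro m ⟨k1, k2, k3⟩
  have hX : X * H ≤ X * H' := mul_le_mul_of_nonneg_left hH (by linarith)
  have hY : Y * H ≤ Y * H' := mul_le_mul_of_nonneg_left hH (by linarith)
  exact ⟨k1, by linarith, by linarith⟩

/-- independence in the plane from independence at the nodes of a curve, for real slopes and in
every degree -/
theorem Sur_plane_box {r : ℕ} (hr : 1 ≤ r) {κ : Fin r → Type} [∀ i, Fintype (κ i)]
    {w : (Σ i, κ i) → ℕ} {d : ℕ} {H c : ℝ} (hH : 0 < H) (h6 : 6 * H ≤ c)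
    (hrc : ((r : ℝ) + 1) * (4 * H ^ 2) ≤ c ^ 2) (hc : c < d + 3)
    {σ : Fin r → ℝ} (hσ : (∑ i, σ i) * H ^ 2 ≤ c ^ 2)
    (h : ∀ i, Box (fun j => w ⟨i, j⟩) H (σ i)) : Sur w (TZ d) := by
  have hc0 : 0 < c := by linarith
  -- an irrational slope
  obtain ⟨s, hs, hs1, hs2⟩ := exists_irrational_btwn
    (show c / (2 * H) < (d + 3) / (2 * H) by gcongr)
  rw [div_lt_iff₀ (by positivity)] at hs1
  rw [lt_div_iff₀ (by positivity)] at hs2
  have hs3 : 3 ≤ s := by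
    by_contra hcon
    push Not at hcon
    nlinarith
  have hs0 : 0 < s := by linarith
  have hcs : c ^ 2 ≤ 4 * s ^ 2 * H ^ 2 := by
    have : c ^ 2 ≤ (s * (2 * H)) ^ 2 := pow_le_pow_left₀ hc0.le hs1.le 2
    linarith [show (s * (2 * H)) ^ 2 = 4 * s ^ 2 * H ^ 2 by ring]
  have hH2 : 0 < H ^ 2 := by positivity
  have hr1 : (r : ℝ) + 1 ≤ s ^ 2 := by
    have : ((r : ℝ) + 1) * (4 * H ^ 2) ≤ s ^ 2 * (4 * H ^ 2) := by linarith
    exact le_of_mul_le_mul_right this (by positivity)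
  have hσ1 : ∑ i, σ i ≤ 4 * s ^ 2 := by
    have : (∑ i, σ i) * H ^ 2 ≤ 4 * s ^ 2 * H ^ 2 := hσ.trans hcs
    exact le_of_mul_le_mul_right this hH2
  have hSP : SP w (s * (2 * H)) 0 (s ^ 2) := by
    refine ⟨by positivity, fun E hE α => ?_⟩
    rw [zero_add, Real.sqrt_sq hs0.le]
    refine Sur_star_box hr hr1 hσ1 (fun i => (h i).mono ?_ le_rfl) α
    rw [le_div_iff₀ (by positivity)]
    nlinarith
  obtain ⟨k, τ, hk, h0, h1⟩ := exists_tau s
  have h2 := (Mv_tau hs3 k hk).closed (SP_closed (by positivity)) hSP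
  have h3 := h2.2 ((d : ℝ) + 3) (by linarith) (-(((d : ℝ) + 3) * (1 + τ)))
  have e1 : 3 * (1 + τ) + 3 * (2 - τ) = (3 : ℝ) ^ 2 := by ring
  rw [e1, Real.sqrt_sq (by norm_num)] at h3
  have e2 : -(((d : ℝ) + 3) * (1 + τ)) + ((d : ℝ) + 3) * 3 = ((d : ℝ) + 3) * (2 - τ) := by ring
  rw [e2] at h3
  refine Sur_keyO h0 h1 ?_ h3
  intro hq
  obtain ⟨q, hq⟩ := hq
  apply hs
  refine ⟨(k + 3 * q) / 3, ?_⟩
  push_cast
  rw [hq]
  linarith

end Pool.Agent.W2helper31.SN
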