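import Pool.Agent.W2helper31.SN.Iter

/-! Points of equal multiplicity and further points: every degree. -/

set_option autoImplicit false

namespace Pool.Agent.W2helper31.SN

open Finset Pool.Agent.TH176.Nag Pool.Agent.TH603.Sur Pool.Agent.TH2.NU Pool.Agent.TH641.UM
  Pool.Agent.TH105.QH Pool.Agent.H932R3

theorem ms_append {n m k : ℕ} (x : Fin k → ℕ) :
    ms (Fin.append (fun _ : Fin n => m) x) = n • ({m} : Multiset ℕ) + ms x := by
  unfold ms
  rw [Fin.sum_univ_add]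
  simp

/-- the criterion -/
theorem crit_append {n m k j N : ℕ} {x : Fin k → ℕ} (hj : 1 ≤ j) (hn : 4 ^ j * N ≤ n)
    (hA : Adm N (2 ^ j * m) (Fin.append (fun _ : Fin (n - 4 ^ j * N) => m) x))
    (hloss : (N + ((n - 4 ^ j * N) * (m + 1) + ∑ i, (x i + 1))) ^ 2 ≤ N * (2 ^ j * m + 1) ^ 2) :
    Ex (Fin.append (fun _ : Fin n => m) x) := by
  obtain ⟨i, rfl⟩ := Nat.exists_eq_add_of_le hj
  have h1 := Ex.iter hA (by
    have e : ∑ l, ((Fin.append (fun _ : Fin (n - 4 ^ (1 + i) * N) => m) x) l + 1) =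
        (n - 4 ^ (1 + i) * N) * (m + 1) + ∑ i, (x i + 1) := by
      rw [Fin.sum_univ_add]
      simp only [Fin.append_left, Fin.append_right, sum_const, card_univ, Fintype.card_fin,
        smul_eq_mul]
    rw [e]
    exact hloss) i (2 * m) (by
      rw [pow_add, pow_one]
      exact le_of_eq (by ring))
  have h2 := Ex.of_ms (ms_even (4 ^ i * N) m _) h1
  refine Ex.of_ms ?_ h2
  have e4 : 4 * (4 ^ i * N) = 4 ^ (1 + i) * N := by ring
  rw [ms_append]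
  unfold ms
  rw [Fintype.sum_sum_type]
  simp only [Sum.elim_inl, Sum.elim_inr, sum_const, card_univ, Fintype.card_fin]
  have h3 := ms_append (n := n - 4 ^ (1 + i) * N) (m := m) x
  unfold ms at h3
  rw [h3, ← add_assoc, ← add_nsmul, e4, Nat.add_sub_cancel' hn]

/-- the size of the power of four -/
theorem exists_j (L : ℕ) (hL : 0 < L) {n : ℕ} (h : L * 4 ≤ n) :
    ∃ j N c : ℕ, 1 ≤ j ∧ n = 4 ^ j * N + c ∧ c < 4 ^ j ∧ L * 4 ^ j ≤ 4 * N ∧ N < L * 4 * 4 ^ j := by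
  obtain ⟨j, hj⟩ : ∃ j, j = Nat.log 16 (4 * n / L) := ⟨_, rfl⟩
  have h0 : 16 ≤ 4 * n / L := by
    rw [Nat.le_div_iff_mul_le hL]
    omega
  have h1 : 16 ^ j ≤ 4 * n / L := by
    rw [hj]
    exact Nat.pow_log_le_self 16 (by omega)
  have h2 : 4 * n / L < 16 ^ (j + 1) := by
    rw [hj]
    exact Nat.lt_pow_succ_log_self (by norm_num) _
  rw [Nat.le_div_iff_mul_le hL] at h1
  rw [Nat.div_lt_iff_lt_mul hL] at h2
  have hj1 : 1 ≤ j := by
    rw [hj]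
    exact Nat.log_pos (by norm_num) h0
  obtain ⟨i, hi⟩ := Nat.exists_eq_add_of_le hj1
  have e16 : ∀ t : ℕ, 16 ^ t = 4 ^ t * 4 ^ t := fun t => by rw [← mul_pow]; norm_num
  have hp : 0 < 4 ^ j := by positivity
  refine ⟨j, n / 4 ^ j, n % 4 ^ j, hj1, (Nat.div_add_mod n (4 ^ j)).symm, Nat.mod_lt _ hp, ?_, ?_⟩
  · have h3 : L * 4 ^ i ≤ n / 4 ^ j := by
      rw [Nat.le_div_iff_mul_le hp]
      have e1 : 4 ^ j = 4 * 4 ^ i := by rw [hi, pow_add, pow_one]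
      have e2 : 16 ^ j * L = 4 * (L * 4 ^ i * 4 ^ j) := by
        rw [e16, e1]; ring
      omega
    have e1 : 4 ^ j = 4 * 4 ^ i := by rw [hi, pow_add, pow_one]
    calc L * 4 ^ j = 4 * (L * 4 ^ i) := by rw [e1]; ring
      _ ≤ 4 * (n / 4 ^ j) := Nat.mul_le_mul_left _ h3
  · rw [Nat.div_lt_iff_lt_mul hp]
    have e2 : 16 ^ (j + 1) * L = 4 * (L * 4 * 4 ^ j * 4 ^ j) := by
      rw [pow_succ, e16]; ring
    omega

/-- the loss is small: first range -/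
theorem loss_A {N c m S A n : ℕ} (hn : n = A ^ 2 * N + c) (hc : c < A ^ 2) (h1 : 9 * A ^ 2 ≤ 4 * N)
    (h2 : N < 36 * A ^ 2) (hA : 2 ≤ A) (hm : 8 ≤ m) (hS : 16 * S ^ 2 ≤ (m - 7) ^ 2 * n) :
    (N + (c * (m + 1) + S)) ^ 2 ≤ N * (A * m + 1) ^ 2 := by
  obtain ⟨σ, hσ⟩ : ∃ σ : ℝ, σ = √(N : ℝ) := ⟨_, rfl⟩
  have hσ2 : σ ^ 2 = N := by rw [hσ]; exact Real.sq_sqrt (Nat.cast_nonneg _)
  have hσ0 : 0 ≤ σ := by rw [hσ]; exact Real.sqrt_nonneg _
  obtain ⟨a, ha⟩ : ∃ a : ℝ, a = (A : ℝ) := ⟨_, rfl⟩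
  have ha2 : 2 ≤ a := by rw [ha]; exact_mod_cast hA
  have hcR : (c : ℝ) + 1 ≤ a ^ 2 := by rw [ha]; exact_mod_cast hc
  have h1R : 9 * a ^ 2 ≤ 4 * σ ^ 2 := by rw [ha, hσ2]; exact_mod_cast h1
  have h2R : σ ^ 2 ≤ 36 * a ^ 2 := by rw [ha, hσ2]; exact_mod_cast h2.le
  have hs1 : 3 / 2 * a ≤ σ := by
    have : (3 / 2 * a) ^ 2 ≤ σ ^ 2 := by linarith [show (3 / 2 * a) ^ 2 = 9 / 4 * a ^ 2 by ring]
    exact le_of_sq_le_sq this hσ0
  have hs2 : σ ≤ 6 * a := by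
    have : σ ^ 2 ≤ (6 * a) ^ 2 := by linarith [show (6 * a) ^ 2 = 36 * a ^ 2 by ring]
    exact le_of_sq_le_sq this (by linarith)
  have hmR : (8 : ℝ) ≤ m := by exact_mod_cast hm
  have hc0 : (0 : ℝ) ≤ c := Nat.cast_nonneg _
  have hnR : (n : ℝ) = a ^ 2 * σ ^ 2 + c := by rw [hn, ha, hσ2]; push_cast; ring
  have haσ : 3 / 2 * a ^ 2 ≤ a * σ := by
    have := mul_le_mul_of_nonneg_left hs1 (show 0 ≤ a by linarith)
    linarith [show a * (3 / 2 * a) = 3 / 2 * a ^ 2 by ring]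
  have hn2 : (n : ℝ) ≤ (a * σ + 1 / 3) ^ 2 := by
    rw [hnR]
    have : (a * σ + 1 / 3) ^ 2 = a ^ 2 * σ ^ 2 + 2 / 3 * (a * σ) + 1 / 9 := by ring
    rw [this]
    linarith
  have hSR : 4 * (S : ℝ) ≤ (m - 7) * (a * σ + 1 / 3) := by
    have g1 : 16 * (S : ℝ) ^ 2 ≤ ((m : ℝ) - 7) ^ 2 * n := by
      have : ((m - 7 : ℕ) : ℝ) = (m : ℝ) - 7 := by
        rw [Nat.cast_sub (by omega)]; norm_num
      rw [← this]
      exact_mod_cast hS
    have g2 : (4 * (S : ℝ)) ^ 2 ≤ ((m - 7) * (a * σ + 1 / 3)) ^ 2 := by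
      have g3 := mul_le_mul_of_nonneg_left hn2 (sq_nonneg ((m : ℝ) - 7))
      have e1 : (4 * (S : ℝ)) ^ 2 = 16 * (S : ℝ) ^ 2 := by ring
      have e2 : (((m : ℝ) - 7) * (a * σ + 1 / 3)) ^ 2 = ((m : ℝ) - 7) ^ 2 * (a * σ + 1 / 3) ^ 2 := by
        ring
      rw [e1, e2]
      exact g1.trans g3
    refine le_of_sq_le_sq g2 (mul_nonneg (by linarith) (by nlinarith))
  have k1 : 0 ≤ (σ - 3 / 2 * a) * (6 * a - σ) := mul_nonneg (by linarith) (by linarith)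
  have k2 : 0 ≤ ((m : ℝ) - 8) * (a * (σ - 3 / 2 * a)) :=
    mul_nonneg (by linarith) (mul_nonneg (by linarith) (by linarith))
  have k3 : 0 ≤ ((m : ℝ) - 8) * a ^ 2 := mul_nonneg (by linarith) (sq_nonneg a)
  have k4 : (c : ℝ) * (m + 1) ≤ (a ^ 2 - 1) * (m + 1) :=
    mul_le_mul_of_nonneg_right (by linarith) (by linarith)
  have key : σ ^ 2 + ((c : ℝ) * (m + 1) + S) ≤ σ * (a * m + 1) := by
    have hσpos : 0 ≤ a * σ := mul_nonneg (by linarith) hσ0
    nlinarith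
  have h3 : ((N : ℝ) + ((c : ℝ) * (m + 1) + S)) ^ 2 ≤ (N : ℝ) * (A * m + 1) ^ 2 := by
    rw [← hσ2, ← ha, ← mul_pow]
    refine pow_le_pow_left₀ (by positivity) key 2
  exact_mod_cast h3

/-- the loss is small: second range -/
theorem loss_B {N c m S A n : ℕ} (hn : n = A ^ 2 * N + c) (hc : c < A ^ 2) (h1 : 9 * A ^ 2 ≤ N)
    (h2 : N < 144 * A ^ 2) (hA : 2 ≤ A) (hm : 30 ≤ m) (hS : 4 * S ^ 2 ≤ m ^ 2 * n) :
    (N + (c * (m + 1) + S)) ^ 2 ≤ N * (A * m + 1) ^ 2 := by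
  obtain ⟨σ, hσ⟩ : ∃ σ : ℝ, σ = √(N : ℝ) := ⟨_, rfl⟩
  have hσ2 : σ ^ 2 = N := by rw [hσ]; exact Real.sq_sqrt (Nat.cast_nonneg _)
  have hσ0 : 0 ≤ σ := by rw [hσ]; exact Real.sqrt_nonneg _
  obtain ⟨a, ha⟩ : ∃ a : ℝ, a = (A : ℝ) := ⟨_, rfl⟩
  have ha2 : 2 ≤ a := by rw [ha]; exact_mod_cast hA
  have hcR : (c : ℝ) + 1 ≤ a ^ 2 := by rw [ha]; exact_mod_cast hc
  have h1R : 9 * a ^ 2 ≤ σ ^ 2 := by rw [ha, hσ2]; exact_mod_cast h1
  have h2R : σ ^ 2 ≤ 144 * a ^ 2 := by rw [ha, hσ2]; exact_mod_cast h2.le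
  have hs1 : 3 * a ≤ σ := by
    have : (3 * a) ^ 2 ≤ σ ^ 2 := by linarith [show (3 * a) ^ 2 = 9 * a ^ 2 by ring]
    exact le_of_sq_le_sq this hσ0
  have hs2 : σ ≤ 12 * a := by
    have : σ ^ 2 ≤ (12 * a) ^ 2 := by linarith [show (12 * a) ^ 2 = 144 * a ^ 2 by ring]
    exact le_of_sq_le_sq this (by linarith)
  have hmR : (30 : ℝ) ≤ m := by exact_mod_cast hm
  have hc0 : (0 : ℝ) ≤ c := Nat.cast_nonneg _
  have hnR : (n : ℝ) = a ^ 2 * σ ^ 2 + c := by rw [hn, ha, hσ2]; push_cast; ring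
  have haσ : 3 * a ^ 2 ≤ a * σ := by
    have := mul_le_mul_of_nonneg_left hs1 (show 0 ≤ a by linarith)
    linarith [show a * (3 * a) = 3 * a ^ 2 by ring]
  have hn2 : (n : ℝ) ≤ (a * σ + 1 / 6) ^ 2 := by
    rw [hnR]
    have : (a * σ + 1 / 6) ^ 2 = a ^ 2 * σ ^ 2 + 1 / 3 * (a * σ) + 1 / 36 := by ring
    rw [this]
    linarith
  have hSR : 2 * (S : ℝ) ≤ m * (a * σ + 1 / 6) := by
    have g1 : 4 * (S : ℝ) ^ 2 ≤ (m : ℝ) ^ 2 * n := by exact_mod_cast hS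
    have g2 : (2 * (S : ℝ)) ^ 2 ≤ (m * (a * σ + 1 / 6)) ^ 2 := by
      have g3 := mul_le_mul_of_nonneg_left hn2 (sq_nonneg (m : ℝ))
      have e1 : (2 * (S : ℝ)) ^ 2 = 4 * (S : ℝ) ^ 2 := by ring
      have e2 : ((m : ℝ) * (a * σ + 1 / 6)) ^ 2 = (m : ℝ) ^ 2 * (a * σ + 1 / 6) ^ 2 := by
        ring
      rw [e1, e2]
      exact g1.trans g3
    refine le_of_sq_le_sq g2 (mul_nonneg (by linarith) (by nlinarith))
  have k1 : 0 ≤ (σ - 3 * a) * (12 * a - σ) := mul_nonneg (by linarith) (by linarith)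
  have k2 : 0 ≤ ((m : ℝ) - 30) * (a * (σ - 3 * a)) :=
    mul_nonneg (by linarith) (mul_nonneg (by linarith) (by linarith))
  have k3 : 0 ≤ ((m : ℝ) - 30) * a ^ 2 := mul_nonneg (by linarith) (sq_nonneg a)
  have k4 : (c : ℝ) * (m + 1) ≤ (a ^ 2 - 1) * (m + 1) :=
    mul_le_mul_of_nonneg_right (by linarith) (by linarith)
  have key : σ ^ 2 + ((c : ℝ) * (m + 1) + S) ≤ σ * (a * m + 1) := by
    have hσpos : 0 ≤ a * σ := mul_nonneg (by linarith) hσ0
    nlinarith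
  have h3 : ((N : ℝ) + ((c : ℝ) * (m + 1) + S)) ^ 2 ≤ (N : ℝ) * (A * m + 1) ^ 2 := by
    rw [← hσ2, ← ha, ← mul_pow]
    refine pow_le_pow_left₀ (by positivity) key 2
  exact_mod_cast h3

/-- the choice of the power of four -/
theorem choose_j {n m S : ℕ} (hn : 144 ≤ n) (hS : (8 ≤ m ∧ 16 * S ^ 2 ≤ (m - 7) ^ 2 * n) ∨
    (30 ≤ m ∧ 4 * S ^ 2 ≤ m ^ 2 * n)) :
    ∃ j N c : ℕ, 1 ≤ j ∧ n = 4 ^ j * N + c ∧ c < 4 ^ j ∧ 36 ≤ N ∧ 9 * 4 ^ j ≤ 4 * N ∧
      N < 144 * 4 ^ j ∧ (N + (c * (m + 1) + S)) ^ 2 ≤ N * (2 ^ j * m + 1) ^ 2 := by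
  have e4 : ∀ j : ℕ, 4 ^ j = (2 ^ j) ^ 2 := fun j => by
    rw [← pow_mul, mul_comm j 2, pow_mul]; norm_num
  rcases hS with ⟨hm, hS⟩ | ⟨hm, hS⟩
  · obtain ⟨j, N, c, hj, h1, h2, h3, h4⟩ := exists_j 9 (by norm_num) (n := n) (by omega)
    have hA : 2 ≤ 2 ^ j := by
      calc 2 = 2 ^ 1 := by norm_num
        _ ≤ 2 ^ j := Nat.pow_le_pow_right (by norm_num) hj
    refine ⟨j, N, c, hj, h1, h2, ?_, h3, by omega, ?_⟩
    · rcases Nat.lt_or_ge 1 j with hj2 | hj2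
      · have : 4 ^ 2 ≤ 4 ^ j := Nat.pow_le_pow_right (by norm_num) hj2
        omega
      · have : j = 1 := by omega
        subst this
        omega
    · rw [e4] at h1 h2 h3 h4
      exact loss_A h1 h2 h3 (by omega) hA hm hS
  · obtain ⟨j, N, c, hj, h1, h2, h3, h4⟩ := exists_j 36 (by norm_num) (n := n) (by omega)
    have hA : 2 ≤ 2 ^ j := by
      calc 2 = 2 ^ 1 := by norm_num
        _ ≤ 2 ^ j := Nat.pow_le_pow_right (by norm_num) hj
    have h5 : 4 ^ 1 ≤ 4 ^ j := Nat.pow_le_pow_right (by norm_num) hj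
    refine ⟨j, N, c, hj, h1, h2, by omega, by omega, by omega, ?_⟩
    rw [e4] at h1 h2 h3 h4
    exact loss_B h1 h2 (by omega) (by omega) hA hm hS

theorem image_append {c m k : ℕ} (x : Fin k → ℕ) :
    univ.image (Fin.append (fun _ : Fin c => m) x) ⊆ insert m (univ.image x) := by
  intro t ht
  rw [mem_image] at ht
  obtain ⟨i, -, rfl⟩ := ht
  refine Fin.addCases (fun i => ?_) (fun i => ?_) i
  · rw [Fin.append_left]
    exact mem_insert_self _ _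
  · rw [Fin.append_right]
    exact mem_insert_of_mem (mem_image.2 ⟨i, mem_univ _, rfl⟩)

/-- the criterion with a remainder -/
theorem crit_rem {n m k j N c : ℕ} {x : Fin k → ℕ} (hj : 1 ≤ j) (hn : n = 4 ^ j * N + c)
    (hA : Adm N (2 ^ j * m) (Fin.append (fun _ : Fin c => m) x))
    (hloss : (N + (c * (m + 1) + ∑ i, (x i + 1))) ^ 2 ≤ N * (2 ^ j * m + 1) ^ 2) :
    Ex (Fin.append (fun _ : Fin n => m) x) := by
  have hc : c = n - 4 ^ j * N := by omega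
  subst hc
  exact crit_append hj (by omega) hA hloss

/-- equal further points -/
theorem quasi_hom {n m k e : ℕ} (hn : 144 ≤ n) (he : 1 ≤ e)
    (hS : (8 ≤ m ∧ 16 * (k * (e + 1)) ^ 2 ≤ (m - 7) ^ 2 * n) ∨
      (30 ≤ m ∧ 4 * (k * (e + 1)) ^ 2 ≤ m ^ 2 * n)) (he2 : 37 * e ^ 2 ≤ n * m ^ 2) :
    Ex (Fin.append (fun _ : Fin n => m) (fun _ : Fin k => e)) := by
  obtain ⟨j, N, c, hj, h1, h2, h3, h4, h5, h6⟩ := choose_j hn hS
  have hm : 1 ≤ m := by rcases hS with h | h <;> omega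
  have hp : 0 < 4 ^ j := by positivity
  have e4 : 4 ^ j = (2 ^ j) ^ 2 := by
    rw [← pow_mul, mul_comm j 2, pow_mul]; norm_num
  have hcard : (univ.image (Fin.append (fun _ : Fin c => m) (fun _ : Fin k => e))).card ≤ 2 := by
    refine (card_le_card (image_append _)).trans ((card_insert_le _ _).trans ?_)
    have : (univ.image (fun _ : Fin k => e)).card ≤ 1 := by
      refine (card_le_card (t := {e}) ?_).trans (card_singleton _).le
      intro t ht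
      rw [mem_image] at ht
      obtain ⟨i, -, rfl⟩ := ht
      exact mem_singleton_self _
    omega
  have hmB : m ≤ 2 ^ j * m := Nat.le_mul_of_pos_left _ (by positivity)
  have h36 : 36 * e ^ 2 ≤ N * (2 ^ j * m) ^ 2 := by
    have g1 : 36 * n ≤ 37 * (4 ^ j * N) := by
      have : 36 * 4 ^ j ≤ 4 ^ j * N := by
        rw [mul_comm 36]
        exact Nat.mul_le_mul_left _ h3
      omega
    have g2 : 37 * (36 * e ^ 2) ≤ 37 * (4 ^ j * N * m ^ 2) := by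
      calc 37 * (36 * e ^ 2) = 36 * (37 * e ^ 2) := by ring
        _ ≤ 36 * (n * m ^ 2) := Nat.mul_le_mul_left _ he2
        _ = 36 * n * m ^ 2 := by ring
        _ ≤ 37 * (4 ^ j * N) * m ^ 2 := Nat.mul_le_mul_right _ g1
        _ = 37 * (4 ^ j * N * m ^ 2) := by ring
    have g3 : 4 ^ j * N * m ^ 2 = N * (2 ^ j * m) ^ 2 := by rw [e4]; ring
    omega
  refine crit_rem hj h1 ⟨?_, by positivity, h3, by omega, ?_⟩ ?_
  · intro i
    refine Fin.addCases (fun i => ?_) (fun i => ?_) i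
    · rw [Fin.append_left]; exact hm
    · rw [Fin.append_right]; exact he
  · by_cases heB : e ≤ 2 ^ j * m
    · left
      intro i
      refine Fin.addCases (fun i => ?_) (fun i => ?_) i
      · rw [Fin.append_left]; exact hmB
      · rw [Fin.append_right]; exact heB
    · rcases Nat.eq_zero_or_pos k with hk | hk
      · left
        intro i
        refine Fin.addCases (fun i => ?_) (fun i => ?_) i
        · rw [Fin.append_left]; exact hmB
        · exact absurd i.2 (by omega)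
      · right
        have hi0 : Fin.append (fun _ : Fin c => m) (fun _ : Fin k => e) (Fin.natAdd c ⟨0, hk⟩) = e :=
          Fin.append_right _ _ _
        refine ⟨Fin.natAdd c ⟨0, hk⟩, ?_⟩
        rw [hi0]
        refine ⟨?_, h36, ?_, ?_⟩
        · intro i
          refine Fin.addCases (fun i => ?_) (fun i => ?_) i
          · rw [Fin.append_left]; omega
          · rw [Fin.append_right]
        · refine le_trans (Nat.mul_le_mul_right _ ?_) h36
          omega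
        · have g1 : 1 ≤ (univ.filter fun i =>
              Fin.append (fun _ : Fin c => m) (fun _ : Fin k => e) i = e).card :=
            card_pos.2 ⟨Fin.natAdd c ⟨0, hk⟩, mem_filter.2 ⟨mem_univ _, hi0⟩⟩
          refine le_trans ?_ g1
          refine (card_le_card (t := {m}) ?_).trans (card_singleton _).le
          intro t ht
          rw [mem_filter] at ht
          obtain ⟨g2, g3, -⟩ := ht
          have g4 := image_append _ g2
          rw [mem_insert, mem_image] at g4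
          rcases g4 with g4 | ⟨i, -, g4⟩
          · rw [g4]; exact mem_singleton_self _
          · omega
  · have : ∑ _i : Fin k, (e + 1) = k * (e + 1) := by simp
    rw [this]
    exact h6

/-- bounded further points -/
theorem bounded {n m k : ℕ} {x : Fin k → ℕ} (hn : 144 ≤ n) (hx : ∀ i, 1 ≤ x i)
    (hx2 : ∀ i, 144 * x i ^ 4 ≤ n * m ^ 4)
    (hr : (8 * (univ.image x).card + 18) ^ 2 ≤ 9 * n)
    (hS : (8 ≤ m ∧ 16 * (∑ i, (x i + 1)) ^ 2 ≤ (m - 7) ^ 2 * n) ∨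
      (30 ≤ m ∧ 4 * (∑ i, (x i + 1)) ^ 2 ≤ m ^ 2 * n)) :
    Ex (Fin.append (fun _ : Fin n => m) x) := by
  obtain ⟨j, N, c, hj, h1, h2, h3, h4, h5, h6⟩ := choose_j hn hS
  have hm : 1 ≤ m := by rcases hS with h | h <;> omega
  have hp : 0 < 4 ^ j := by positivity
  have hmB : m ≤ 2 ^ j * m := Nat.le_mul_of_pos_left _ (by positivity)
  have hcard : (univ.image (Fin.append (fun _ : Fin c => m) x)).card ≤ (univ.image x).card + 1 :=
    (card_le_card (image_append _)).trans (card_insert_le _ _)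
  have hnN : n < 4 ^ j * (N + 1) := by rw [h1, mul_add, mul_one]; omega
  have hN : 4 * (univ.image x).card + 9 ≤ N := by
    have g1 : 9 * n < (2 * N + 1) ^ 2 := by
      calc 9 * n < 9 * (4 ^ j * (N + 1)) := by omega
        _ = (9 * 4 ^ j) * (N + 1) := by ring
        _ ≤ (4 * N) * (N + 1) := Nat.mul_le_mul_right _ h4
        _ ≤ (2 * N + 1) ^ 2 := by nlinarith
    have g2 : 8 * (univ.image x).card + 18 < 2 * N + 1 :=
      lt_of_pow_lt_pow_left₀ 2 (Nat.zero_le _) (hr.trans_lt g1)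
    omega
  have hxB : ∀ i, x i ≤ 2 ^ j * m := by
    intro i
    have g1 : n < 144 * (2 ^ j) ^ 4 := by
      have : 4 ^ j * (N + 1) ≤ 4 ^ j * (144 * 4 ^ j) := Nat.mul_le_mul_left _ (by omega)
      have e1 : 4 ^ j * (144 * 4 ^ j) = 144 * (2 ^ j) ^ 4 := by
        have : 4 ^ j = (2 ^ j) ^ 2 := by rw [← pow_mul, mul_comm j 2, pow_mul]; norm_num
        rw [this]; ring
      omega
    have g2 : n * m ^ 4 < 144 * (2 ^ j) ^ 4 * m ^ 4 := Nat.mul_lt_mul_of_pos_right g1 (by positivity)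
    have g3 : 144 * x i ^ 4 < 144 * (2 ^ j * m) ^ 4 := by
      calc 144 * x i ^ 4 ≤ n * m ^ 4 := hx2 i
        _ < 144 * (2 ^ j) ^ 4 * m ^ 4 := g2
        _ = 144 * (2 ^ j * m) ^ 4 := by ring
    have g4 : x i ^ 4 < (2 ^ j * m) ^ 4 := by omega
    exact (lt_of_pow_lt_pow_left₀ 4 (Nat.zero_le _) g4).le
  refine crit_rem hj h1 ⟨?_, by positivity, h3, by omega, Or.inl ?_⟩ h6
  · intro i
    refine Fin.addCases (fun i => ?_) (fun i => ?_) i
    · rw [Fin.append_left]; exact hm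
    · rw [Fin.append_right]; exact hx i
  · intro i
    refine Fin.addCases (fun i => ?_) (fun i => ?_) i
    · rw [Fin.append_left]; exact hmB
    · rw [Fin.append_right]; exact hxB i

/-- the expected dimension in every degree -/
theorem Ex.expDim {n : ℕ} {w : Fin n → ℕ} (h : Ex w) :
    ∃ F : MvPolynomial (Fin n × Fin 2) ℚ, F ≠ 0 ∧ ∀ {L : Type} [Field L] [CharZero L]
      (P : Fin n → Fin 2 → L), MvPolynomial.aeval (fun ij : Fin n × Fin 2 => P ij.1 ij.2) F ≠ 0 →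
      ∀ d, ExpDim L w P d :=
  expDim_of_sign (fun d => (h d).1) fun d => (h d).2

end Pool.Agent.W2helper31.SN
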