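import Pool.Agent.W2helper31.SN.Quasi

/-! Iterated doubling with a remainder in each step. -/

set_option autoImplicit false

namespace Pool.Agent.W2helper31.SN

open Finset Pool.Agent.TH176.Nag Pool.Agent.TH603.Sur Pool.Agent.TH2.NU Pool.Agent.TH641.UM
  Pool.Agent.TH105.QH Pool.Agent.H932R3

theorem ms_elim_append {n m k : ℕ} (x : Fin k → ℕ) :
    ms (Sum.elim (fun _ : Fin n => m) x) = ms (Fin.append (fun _ : Fin n => m) x) := by
  rw [ms_append]
  unfold ms
  rw [Fintype.sum_sum_type]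
  simp

theorem sum_append {c m k : ℕ} (x : Fin k → ℕ) :
    ∑ i, ((Fin.append (fun _ : Fin c => m) x) i + 1) = c * (m + 1) + ∑ i, (x i + 1) := by
  rw [Fin.sum_univ_add]
  simp only [Fin.append_left, Fin.append_right, sum_const, card_univ, Fintype.card_fin,
    smul_eq_mul]

/-- the criterion with a remainder in each step -/
theorem iterR (J : ℕ) : ∀ (n m k : ℕ) (y : Fin k → ℕ), 1 ≤ m → 36 ≤ n / 4 ^ (J + 1) →
    4 * ((univ.image y).card + (J + 1) + 1) ≤ n / 4 ^ (J + 1) →
    (∀ i, 1 ≤ y i ∧ y i ≤ 2 ^ (J + 1) * m) →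
    (n / 4 ^ (J + 1) + (3 * ((2 ^ (J + 1) - 1) * (m + 1)) + ∑ i, (y i + 1))) ^ 2 ≤
      (n / 4 ^ (J + 1)) * (2 ^ (J + 1) * m + 1) ^ 2 →
    Ex (Fin.append (fun _ : Fin n => m) y) := by
  induction J with
  | zero =>
    intro n m k y hm h36 hv hy hloss
    norm_num at h36 hv hloss
    obtain ⟨N, hN⟩ : ∃ N, N = n / 4 := ⟨_, rfl⟩
    obtain ⟨c, hc⟩ : ∃ c, c = n % 4 := ⟨_, rfl⟩
    rw [← hN] at h36 hv hloss
    have hcard : (univ.image (Fin.append (fun _ : Fin c => m) y)).card ≤ (univ.image y).card + 1 :=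
      (card_le_card (image_append _)).trans (card_insert_le _ _)
    refine crit_rem (j := 1) (N := N) (c := c) le_rfl (by omega) ⟨?_, by omega, h36, by omega,
      Or.inl ?_⟩ ?_
    · intro i
      refine Fin.addCases (fun i => ?_) (fun i => ?_) i
      · rw [Fin.append_left]; exact hm
      · rw [Fin.append_right]; exact (hy i).1
    · intro i
      refine Fin.addCases (fun i => ?_) (fun i => ?_) i
      · rw [Fin.append_left]; omega
      · rw [Fin.append_right]; simpa using (hy i).2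
    · refine le_trans (Nat.pow_le_pow_left ?_ 2) (by simpa using hloss)
      have : c * (m + 1) ≤ 3 * (m + 1) := Nat.mul_le_mul_right _ (by omega)
      omega
  | succ J ih =>
    intro n m k y hm h36 hv hy hloss
    obtain ⟨n', hn'⟩ : ∃ n', n' = n / 4 := ⟨_, rfl⟩
    obtain ⟨c, hc⟩ : ∃ c, c = n % 4 := ⟨_, rfl⟩
    have hnc : n = 4 * n' + c := by omega
    obtain ⟨P, hP⟩ : ∃ P, P = 2 ^ (J + 1) := ⟨_, rfl⟩
    have hP1 : 1 ≤ P := by rw [hP]; exact Nat.one_le_pow _ _ (by norm_num)
    have e2 : 2 ^ (J + 1 + 1) = 2 * P := by rw [hP, pow_succ]; ring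
    obtain ⟨N, hN⟩ : ∃ N, N = n / 4 ^ (J + 1 + 1) := ⟨_, rfl⟩
    have hN' : n' / 4 ^ (J + 1) = N := by
      rw [hn', hN, Nat.div_div_eq_div_mul, pow_succ' 4 (J + 1)]
    rw [← hN, e2] at hloss
    rw [← hN] at h36 hv
    obtain ⟨y', hy'⟩ : ∃ y', y' = Fin.append (fun _ : Fin c => m) y := ⟨_, rfl⟩
    have hcard : (univ.image y').card ≤ (univ.image y).card + 1 := by
      rw [hy']
      exact (card_le_card (image_append _)).trans (card_insert_le _ _)
    have hsum : ∑ i, (y' i + 1) = c * (m + 1) + ∑ i, (y i + 1) := by rw [hy', sum_append]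
    have hcm : c * (m + 1) ≤ 3 * (m + 1) := Nat.mul_le_mul_right _ (by omega)
    have hyy : ∀ i, 1 ≤ y' i ∧ y' i ≤ P * (2 * m) := by
      intro i
      rw [hy']
      refine Fin.addCases (fun i => ?_) (fun i => ?_) i
      · rw [Fin.append_left]
        exact ⟨hm, by nlinarith⟩
      · rw [Fin.append_right]
        have := hy i
        rw [e2] at this
        exact ⟨this.1, this.2.trans (le_of_eq (by ring))⟩
    obtain ⟨p, hp⟩ : ∃ p, P = p + 1 := ⟨P - 1, by omega⟩
    -- the two values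
    have s1 : Ex (Fin.append (fun _ : Fin n' => 2 * m) y') := by
      refine ih n' (2 * m) _ y' (by omega) (by rw [hN']; exact h36) (by rw [hN']; omega)
        (by rw [← hP]; exact hyy) ?_
      rw [hN', ← hP]
      refine le_trans (Nat.pow_le_pow_left ?_ 2) (hloss.trans (le_of_eq (by ring)))
      have : 3 * ((P - 1) * (2 * m + 1)) + 3 * (m + 1) ≤ 3 * ((2 * P - 1) * (m + 1)) := by
        have a1 : P - 1 = p := by omega
        have a2 : 2 * P - 1 = 2 * p + 1 := by omega
        rw [a1, a2]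
        nlinarith
      omega
    have s2 : Ex (Fin.append (fun _ : Fin n' => 2 * m + 1) y') := by
      refine ih n' (2 * m + 1) _ y' (by omega) (by rw [hN']; exact h36) (by rw [hN']; omega)
        (by
          rw [← hP]
          exact fun i => ⟨(hyy i).1, (hyy i).2.trans (Nat.mul_le_mul_left _ (Nat.le_succ _))⟩) ?_
      rw [hN', ← hP]
      refine le_trans (Nat.pow_le_pow_left ?_ 2) (hloss.trans (Nat.mul_le_mul_left _
        (Nat.pow_le_pow_left (by nlinarith) 2)))
      have : 3 * ((P - 1) * (2 * m + 1 + 1)) + 3 * (m + 1) ≤ 3 * ((2 * P - 1) * (m + 1)) := by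
        have a1 : P - 1 = p := by omega
        have a2 : 2 * P - 1 = 2 * p + 1 := by omega
        rw [a1, a2]
        nlinarith
      omega
    have t1 := Ex.of_ms (ms_elim_append (n := n') (m := 2 * m) y') s1
    have t2 := Ex.of_ms (ms_elim_append (n := n') (m := 2 * m + 1) y') s2
    -- the sizes
    have hNn : N * P ^ 2 ≤ n' := by
      have h1 : n' / 4 ^ (J + 1) * 4 ^ (J + 1) ≤ n' := Nat.div_mul_le_self _ _
      have h2 : 4 ^ (J + 1) = P ^ 2 := by
        rw [hP, ← pow_mul, mul_comm (J + 1) 2, pow_mul]; norm_num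
      rw [hN', h2] at h1
      exact h1
    have hn36 : 36 ≤ n' := by
      have : 1 ≤ P ^ 2 := Nat.one_le_pow _ _ (by omega)
      nlinarith
    have hx1 : ∑ i, (y' i + 1) ^ 2 ≤ (∑ i, (y' i + 1)) ^ 2 :=
      sum_sq_le_sq_sum_of_nonneg (fun i _ => Nat.zero_le _)
    have hx2 : (∑ i, (y' i + 1)) ^ 2 ≤ N * (2 * P * m + 1) ^ 2 := by
      refine (Nat.pow_le_pow_left ?_ 2).trans hloss
      have : 3 * (m + 1) ≤ 3 * ((2 * P - 1) * (m + 1)) :=
        Nat.mul_le_mul_left _ (Nat.le_mul_of_pos_left _ (by omega))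
      omega
    have hx3 : N * (2 * P * m + 1) ^ 2 ≤ 9 * (n' * m ^ 2) := by
      have h1 : 2 * P * m + 1 ≤ 3 * (P * m) := by
        have : 1 ≤ P * m := Nat.mul_pos (by omega) (by omega)
        nlinarith
      calc N * (2 * P * m + 1) ^ 2 ≤ N * (3 * (P * m)) ^ 2 :=
            Nat.mul_le_mul_left _ (Nat.pow_le_pow_left h1 2)
        _ = 9 * (N * P ^ 2 * m ^ 2) := by ring
        _ ≤ 9 * (n' * m ^ 2) := Nat.mul_le_mul_left _ (Nat.mul_le_mul_right _ hNn)
    have hc2 := two_cond n' (2 * m) y'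
    obtain ⟨cc, hcc⟩ : ∃ cc, cc = Pool.Agent.TH603.Sur.cond (V n' (2 * m) y') := ⟨_, rfl⟩
    rw [← hcc] at hc2
    have hV : Ex (V n' (2 * m) y') := by
      refine Ex.step (by omega) t1 t2 ?_ ?_
      · rw [← hcc]
        have g1 : (2 * m + 1) / 2 = m := by omega
        rw [g1]
        have g2 : n' * (2 * m + 1) ^ 2 ≤ 9 * (n' * m ^ 2) := by
          calc n' * (2 * m + 1) ^ 2 ≤ n' * (3 * m) ^ 2 :=
                Nat.mul_le_mul_left _ (Nat.pow_le_pow_left (by omega) 2)
            _ = 9 * (n' * m ^ 2) := by ring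
        have g3 : 18 * (n' * m ^ 2) ≤ (n' * m) ^ 2 := by
          calc 18 * (n' * m ^ 2) ≤ n' * (n' * m ^ 2) := Nat.mul_le_mul_right _ (by omega)
            _ = (n' * m) ^ 2 := by ring
        omega
      · rw [← hcc]
        by_contra hcon
        have hc0 : cc = 0 := by omega
        have g1 := cond_V n' (2 * m) y'
        rw [← hcc, hc0] at g1
        have g2 : 0 < n' * ((2 * m + 1).choose 2 + (2 * m + 1) / 2) :=
          Nat.mul_pos (by omega) (by have : 0 < (2 * m + 1) / 2 := by omega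
                                     omega)
        omega
    refine Ex.of_ms ?_ (Ex.of_ms (ms_even n' m y') hV)
    rw [ms_elim_append, ms_append, ms_append, hy', ms_append, ← add_assoc, ← add_nsmul, ← hnc]

end Pool.Agent.W2helper31.SN
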