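import Pool.Agent.W2helper31.SN.Key
import Pool.Agent.TH370.MN.Ceil
import Pool.Agent.TH592.MN.Sigma
import Pool.Agent.TH522.MN.Generic

/-! Independence on a right triangle with real slope from independence at several nodes. -/

set_option autoImplicit false

namespace Pool.Agent.W2helper31.SN

open Finset Pool.Agent.TH745.MN Pool.Agent.TH176.Nag Pool.Agent.TH603.Sur

/-- a row of a node -/
noncomputable def rowN (a b : ℝ) (ω : ℕ → ℝ) (l : ℕ) : Finset (ℤ × ℤ) :=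
  Ioo (-(⌈ω l / b⌉₊ : ℤ)) (⌈ω l / a⌉₊ : ℤ) ×ˢ {(l : ℤ)}

theorem card_rowN {a b : ℝ} (ha : 0 < a) {ω : ℕ → ℝ} {l : ℕ} (hω : 0 < ω l) :
    (rowN a b ω l).card + 1 = ⌈ω l / a⌉₊ + ⌈ω l / b⌉₊ := by
  unfold rowN
  rw [card_product, card_singleton, mul_one, Int.card_Ioo]
  have h1 : 0 < ⌈ω l / a⌉₊ := Nat.ceil_pos.2 (div_pos hω ha)
  omega

theorem SR_sub {L : ℕ} {a b : ℝ} (ha : 0 < a) (hb : 0 < b) (ω : ℕ → ℝ) :
    SR L a b ω ⊆ ↑((range L).biUnion (rowN a b ω)) := by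
  rintro ⟨x, y⟩ ⟨h1, h2, h3, h4⟩
  simp only at h1 h2 h3 h4
  obtain ⟨l, rfl⟩ := Int.eq_ofNat_of_zero_le h1
  rw [Int.toNat_natCast] at h3 h4
  rw [Finset.mem_coe, mem_biUnion]
  refine ⟨l, ?_, ?_⟩
  · rw [mem_range]
    exact_mod_cast h2
  · unfold rowN
    rw [mem_product, mem_Ioo, mem_singleton]
    refine ⟨⟨?_, ?_⟩, rfl⟩
    · have h5 : (-(x : ℝ)) < ω l / b := by
        rw [lt_div_iff₀ hb]; linarith
      have h6 : (-(x : ℝ)) < (⌈ω l / b⌉₊ : ℝ) := h5.trans_le (Nat.le_ceil _)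
      have h7 : -x < (⌈ω l / b⌉₊ : ℤ) := by exact_mod_cast h6
      show -(⌈ω l / b⌉₊ : ℤ) < x
      omega
    · have h5 : (x : ℝ) < ω l / a := by
        rw [lt_div_iff₀ ha]; linarith
      have h6 : (x : ℝ) < (⌈ω l / a⌉₊ : ℝ) := h5.trans_le (Nat.le_ceil _)
      show x < (⌈ω l / a⌉₊ : ℤ)
      exact_mod_cast h6

/-- two rows of the plane -/
noncomputable def rowP (q : ℕ) (W : ℕ → ℕ) (l : ℕ) : Finset (ℤ × ℤ) :=
  Icc (0 : ℤ) (W l : ℤ) ×ˢ {(2 * l : ℤ)} ∪ Icc (0 : ℤ) (W l - q : ℤ) ×ˢ {(2 * l + 1 : ℤ)}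

theorem card_rowP (q : ℕ) (W : ℕ → ℕ) (l : ℕ) (h : q ≤ W l + 1) :
    (rowP q W l).card + q = 2 * W l + 2 := by
  unfold rowP
  rw [card_union_of_disjoint]
  · rw [card_product, card_product, card_singleton, card_singleton, Int.card_Icc, Int.card_Icc]
    omega
  · rw [Finset.disjoint_left]
    rintro ⟨x, y⟩ h1 h2
    rw [mem_product, mem_singleton] at h1 h2
    have := h1.2
    have := h2.2
    simp only at *
    omega

theorem mem_rowP {q : ℕ} {W : ℕ → ℕ} {l : ℕ} {m : ℤ × ℤ} :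
    m ∈ rowP q W l ↔ 0 ≤ m.1 ∧ ((m.2 = 2 * l ∧ m.1 ≤ W l) ∨ (m.2 = 2 * l + 1 ∧ m.1 + q ≤ W l)) := by
  unfold rowP
  rw [mem_union, mem_product, mem_product, mem_singleton, mem_singleton, mem_Icc, mem_Icc]
  constructor
  · rintro (⟨⟨h1, h2⟩, h3⟩ | ⟨⟨h1, h2⟩, h3⟩)
    · exact ⟨h1, Or.inl ⟨h3, h2⟩⟩
    · exact ⟨h1, Or.inr ⟨h3, by omega⟩⟩
  · rintro ⟨h1, (⟨h2, h3⟩ | ⟨h2, h3⟩)⟩
    · exact Or.inl ⟨⟨h1, h3⟩, h2⟩
    · exact Or.inr ⟨⟨h1, by omega⟩, h2⟩

/-- independence on a right triangle from independence at the nodes -/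
theorem Sur_star {r : ℕ} (hr : 1 ≤ r) {ρ : ℝ} (hρ : (r : ℝ) + 1 ≤ ρ)
    {κ : Fin r → Type} [∀ i, Fintype (κ i)] {w : (Σ i, κ i) → ℕ} {X Y : Fin r → ℝ}
    (hX : ∀ i, 0 < X i) (hY : ∀ i, 0 < Y i) (hXY : ∑ i, (X i + Y i) ≤ 4 * ρ)
    (hirr : ∀ p q : Fin r ⊕ Fin r, p ≠ q → Irrational (Sum.elim X Y p / Sum.elim X Y q))
    {E : ℝ}
    (h : ∀ i, Sur (fun j => w ⟨i, j⟩) (RegO (-(Y i * (E / (2 * ρ)))) (X i * (E / (2 * ρ)))
      (Y i) (X i))) (α : ℝ) : Sur w (RegO α (α + E) 0 ρ) := by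
  classical
  have hρ0 : 0 < ρ := by
    have : (0 : ℝ) ≤ r := Nat.cast_nonneg r
    linarith
  have hne : Nonempty (Fin r ⊕ Fin r) := ⟨Sum.inl ⟨0, by omega⟩⟩
  obtain ⟨a, ha⟩ : ∃ a : Fin r → ℝ, ∀ i, a i = 1 / X i := ⟨_, fun _ => rfl⟩
  obtain ⟨b, hb⟩ : ∃ b : Fin r → ℝ, ∀ i, b i = 1 / Y i := ⟨_, fun _ => rfl⟩
  have ha0 : ∀ i, 0 < a i := fun i => by rw [ha]; exact one_div_pos.2 (hX i)
  have hb0 : ∀ i, 0 < b i := fun i => by rw [hb]; exact one_div_pos.2 (hY i)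
  have hc0 : ∀ p : Fin r ⊕ Fin r, 0 < Sum.elim a b p := by
    rintro (i | i)
    · exact ha0 i
    · exact hb0 i
  have hcx : ∀ p : Fin r ⊕ Fin r, Sum.elim a b p = 1 / Sum.elim X Y p := by
    rintro (i | i)
    · exact ha i
    · exact hb i
  have hcirr : ∀ p q : Fin r ⊕ Fin r, p ≠ q → Irrational (Sum.elim a b p / Sum.elim a b q) := by
    intro p q hpq
    rw [hcx, hcx]
    have e : 1 / Sum.elim X Y p / (1 / Sum.elim X Y q) = Sum.elim X Y q / Sum.elim X Y p := by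
      rw [one_div, one_div, div_inv_eq_mul, mul_comm, div_eq_mul_inv]
    rw [e]
    exact hirr q p (Ne.symm hpq)
  have e1 : ∀ (t : ℝ) i, t / a i = t * X i := fun t i => by rw [ha, one_div, div_inv_eq_mul]
  have e2 : ∀ (t : ℝ) i, t / b i = t * Y i := fun t i => by rw [hb, one_div, div_inv_eq_mul]
  -- the rows
  obtain ⟨z, hz⟩ : ∃ z : ℕ → ℝ, ∀ l, z l = E - 2 * ρ * (l + 1) := ⟨_, fun _ => rfl⟩
  obtain ⟨L, hL⟩ : ∃ L : ℕ, L = ⌈E / (2 * ρ)⌉₊ - 1 := ⟨_, rfl⟩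
  have hLz : ∀ l : ℕ, l < L → 0 < z l := by
    intro l hl
    have h1 : l + 1 < ⌈E / (2 * ρ)⌉₊ := by omega
    rw [Nat.lt_ceil, lt_div_iff₀ (by positivity)] at h1
    push_cast at h1
    rw [hz]
    linarith
  have hzL : ∀ l : ℕ, 0 < z l → l < L := by
    intro l hl
    rw [hz] at hl
    have h1 : l + 1 < ⌈E / (2 * ρ)⌉₊ := by
      rw [Nat.lt_ceil, lt_div_iff₀ (by positivity)]
      push_cast
      linarith
    omega
  obtain ⟨W, hW⟩ : ∃ W : ℕ → ℕ, ∀ l, W l = ⌈z l⌉₊ + r - 1 := ⟨_, fun _ => rfl⟩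
  have hW1 : ∀ l < L, W l + 1 = ⌈z l⌉₊ + r := by
    intro l hl
    have : 0 < ⌈z l⌉₊ := Nat.ceil_pos.2 (hLz l hl)
    rw [hW]
    omega
  have hWr : ∀ l < L, r ≤ W l := by
    intro l hl
    have : 0 < ⌈z l⌉₊ := Nat.ceil_pos.2 (hLz l hl)
    have := hW1 l hl
    omega
  have hsumle : ∀ l < L, ∑ i, (⌈z l / (2 * ρ) / a i⌉₊ + ⌈z l / (2 * ρ) / b i⌉₊) ≤ 2 * W l + 1 := by
    intro l hl
    have hz0 := hLz l hl
    have h1 : ((∑ i, (⌈z l / (2 * ρ) / a i⌉₊ + ⌈z l / (2 * ρ) / b i⌉₊) : ℕ) : ℝ) <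
        2 * z l + 2 * r := by
      push_cast
      have h2 : ∀ i ∈ (univ : Finset (Fin r)),
          ((⌈z l / (2 * ρ) / a i⌉₊ : ℝ) + ⌈z l / (2 * ρ) / b i⌉₊) <
          z l / (2 * ρ) * (X i + Y i) + 2 := by
        intro i _
        have h0 : 0 ≤ z l / (2 * ρ) := by positivity
        rw [e1, e2]
        have g1 := Nat.ceil_lt_add_one (mul_nonneg h0 (hX i).le)
        have g2 := Nat.ceil_lt_add_one (mul_nonneg h0 (hY i).le)
        linarith
      have h3 := sum_lt_sum_of_nonempty ⟨⟨0, by omega⟩, mem_univ _⟩ h2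
      rw [sum_add_distrib (f := fun i => z l / (2 * ρ) * (X i + Y i)), ← mul_sum] at h3
      simp only [sum_const, card_univ, Fintype.card_fin, nsmul_eq_mul] at h3
      have h4 : z l / (2 * ρ) * ∑ i, (X i + Y i) ≤ z l / (2 * ρ) * (4 * ρ) :=
        mul_le_mul_of_nonneg_left hXY (by positivity)
      have h5 : z l / (2 * ρ) * (4 * ρ) = 2 * z l := by field_simp; ring
      rw [h5] at h4
      linarith
    have h6 : ((∑ i, (⌈z l / (2 * ρ) / a i⌉₊ + ⌈z l / (2 * ρ) / b i⌉₊) : ℕ) : ℝ) <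
        ((2 * ⌈z l⌉₊ + 2 * r : ℕ) : ℝ) := by
      push_cast at h1 ⊢
      have := Nat.le_ceil (z l)
      linarith
    have h7 : ∑ i, (⌈z l / (2 * ρ) / a i⌉₊ + ⌈z l / (2 * ρ) / b i⌉₊) < 2 * ⌈z l⌉₊ + 2 * r := by
      exact_mod_cast h6
    have := hW1 l hl
    omega
  -- the thresholds
  have hω : ∀ l : ℕ, ∃ ω : ℝ, l < L → 0 < ω ∧ z l / (2 * ρ) ≤ ω ∧
      ∑ i, (⌈ω / a i⌉₊ + ⌈ω / b i⌉₊) = 2 * W l + 1 := by
    intro l
    by_cases hl : l < L
    swap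
    · exact ⟨0, fun h => absurd h hl⟩
    obtain ⟨ω, h0, h1⟩ := Pool.Agent.TH370.MN.exists_sum_ceil _ hc0 hcirr (2 * W l + 1) (by
      rw [Fintype.card_sum, Fintype.card_fin]
      have := hWr l hl
      omega)
    have h2 : ∑ i, (⌈ω / a i⌉₊ + ⌈ω / b i⌉₊) = 2 * W l + 1 := by
      rw [← h1, Fintype.sum_sum_type, sum_add_distrib]
      rfl
    refine ⟨max ω (z l / (2 * ρ)), fun _ => ⟨lt_max_of_lt_left h0, le_max_right _ _, ?_⟩⟩
    rcases le_total (z l / (2 * ρ)) ω with h3 | h3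
    · rw [max_eq_left h3]
      exact h2
    · rw [max_eq_right h3]
      refine le_antisymm (hsumle l hl) ?_
      rw [← h2]
      refine sum_le_sum fun i _ => Nat.add_le_add ?_ ?_
      · exact Nat.ceil_mono (div_le_div_of_nonneg_right h3 (ha0 i).le)
      · exact Nat.ceil_mono (div_le_div_of_nonneg_right h3 (hb0 i).le)
  choose ω hω using hω
  have hWW : ∀ l < L, ∀ j ≤ l, W l + (2 * r + 1) * (l - j) ≤ W j := by
    intro l hl j hj
    have hjL : j < L := by omega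
    have h1 := hW1 l hl
    have h2 := hW1 j hjL
    have h3 : ⌈z l⌉₊ + (2 * r + 2) * (l - j) ≤ ⌈z j⌉₊ := by
      have h4 : z l + (((2 * r + 2) * (l - j) : ℕ) : ℝ) ≤ z j := by
        rw [hz, hz]
        push_cast [Nat.cast_sub hj]
        have h5 : (0 : ℝ) ≤ (l : ℝ) - j := by
          have : (j : ℝ) ≤ l := by exact_mod_cast hj
          linarith
        have := mul_le_mul_of_nonneg_right hρ h5
        nlinarith
      have h5 := Nat.ceil_mono h4
      rwa [Nat.ceil_add_natCast (hLz l hl).le] at h5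
    have h4 : (2 * r + 1) * (l - j) ≤ (2 * r + 2) * (l - j) := Nat.mul_le_mul_right _ (by omega)
    omega
  obtain ⟨S, hS⟩ : ∃ S : Finset (ℤ × ℤ), S = (range L).biUnion (rowP (r + 1) W) := ⟨_, rfl⟩
  obtain ⟨S', hS'⟩ : ∃ S' : Fin r → Finset (ℤ × ℤ),
    ∀ i, S' i = (range L).biUnion (rowN (a i) (b i) ω) := ⟨_, fun _ => rfl⟩
  have hcard : ∑ i, (S' i).card ≤ S.card := by
    have h1 : ∀ i, (S' i).card ≤ ∑ l ∈ range L, (rowN (a i) (b i) ω l).card := by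
      intro i
      rw [hS']
      exact card_biUnion_le
    have h2 : ∑ l ∈ range L, (rowP (r + 1) W l).card = S.card := by
      rw [hS, card_biUnion]
      intro l _ l' _ hne
      rw [Function.onFun, Finset.disjoint_left]
      rintro ⟨x, y⟩ g1 g2
      rw [mem_rowP] at g1 g2
      simp only at g1 g2
      omega
    refine (sum_le_sum fun i _ => h1 i).trans (le_trans ?_ h2.le)
    rw [sum_comm]
    refine sum_le_sum fun l hl => ?_
    rw [mem_range] at hl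
    have h5 : ∑ i, (rowN (a i) (b i) ω l).card + r = 2 * W l + 1 := by
      rw [← (hω l hl).2.2, ← sum_congr rfl fun i _ => card_rowN (b := b i) (ha0 i) (hω l hl).1,
        sum_add_distrib]
      simp
    have h6 := card_rowP (r + 1) W l (by have := hWr l hl; omega)
    omega
  have key : Sur w (↑S : Set (ℤ × ℤ)) := by
    refine Pool.Agent.TH592.MN.Sur_sigma (S' := S') hcard ?_ ?_
    · intro κ' _ v hv
      have h1 : Emp v (TR (r + 1) L W) := by
        refine Emp_keyR (r := r) rfl hWW ha0 hb0 (ω := ω) (fun l hl => (hω l hl).1)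
          (fun l hl => (hω l hl).2.2.ge) fun i => ?_
        refine (hv i).mono ?_
        rw [hS']
        exact SR_sub (ha0 i) (hb0 i) ω
      refine h1.mono ?_
      intro m hm
      rw [hS, mem_coe, mem_biUnion] at hm
      obtain ⟨l, hl, hm⟩ := hm
      rw [mem_rowP] at hm
      exact ⟨hm.1, l, mem_range.1 hl, by simpa using hm.2⟩
    · intro i
      refine (h i).shift 0 1 ?_
      rintro ⟨m, l⟩ ⟨hl, h1, h2⟩
      simp only at hl h1 h2
      obtain ⟨l, rfl⟩ : ∃ l' : ℕ, l = l' + 1 := ⟨(l - 1).toNat, by omega⟩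
      push_cast at h1 h2
      have hzl : z l / (2 * ρ) = E / (2 * ρ) - (l + 1) := by
        rw [hz]; field_simp
      have h1' : -(Y i * (z l / (2 * ρ))) < m := by rw [hzl]; linarith
      have h2' : m < X i * (z l / (2 * ρ)) := by rw [hzl]; linarith
      have hzpos : 0 < z l := by
        by_contra hcon
        push Not at hcon
        have g0 : z l / (2 * ρ) ≤ 0 := div_nonpos_of_nonpos_of_nonneg hcon (by positivity)
        have g1 := mul_nonpos_of_nonneg_of_nonpos (hX i).le g0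
        have g2 := mul_nonpos_of_nonneg_of_nonpos (hY i).le g0
        linarith
      have hlL := hzL l hzpos
      obtain ⟨hω1, hω2, -⟩ := hω l hlL
      rw [hS', mem_coe, mem_biUnion]
      refine ⟨l, mem_range.2 hlL, ?_⟩
      unfold rowN
      rw [mem_product, mem_Ioo, mem_singleton]
      refine ⟨⟨?_, ?_⟩, by simp⟩
      · have h5 : (-(m : ℝ)) < ω l / b i := by
          rw [e2]
          have := mul_le_mul_of_nonneg_right hω2 (hY i).le
          linarith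
        have h6 : (-(m : ℝ)) < (⌈ω l / b i⌉₊ : ℝ) := h5.trans_le (Nat.le_ceil _)
        have h7 : -m < (⌈ω l / b i⌉₊ : ℤ) := by exact_mod_cast h6
        show -(⌈ω l / b i⌉₊ : ℤ) < m - 0
        omega
      · have h5 : (m : ℝ) < ω l / a i := by
          rw [e1]
          have := mul_le_mul_of_nonneg_right hω2 (hX i).le
          linarith
        have h6 : (m : ℝ) < (⌈ω l / a i⌉₊ : ℝ) := h5.trans_le (Nat.le_ceil _)
        have h7 : m < (⌈ω l / a i⌉₊ : ℤ) := by exact_mod_cast h6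
        show m - 0 < (⌈ω l / a i⌉₊ : ℤ)
        omega
  refine key.shift (-(⌊α⌋ + 1)) (-1) ?_
  rintro ⟨m, k⟩ hm
  rw [hS, mem_coe, mem_biUnion] at hm
  obtain ⟨l, hl, hm⟩ := hm
  rw [mem_range] at hl
  rw [mem_rowP] at hm
  simp only at hm
  obtain ⟨h0, hm⟩ := hm
  have h0' : (0 : ℝ) ≤ m := by exact_mod_cast h0
  have hf1 := Int.floor_le α
  have hf2 := Int.lt_floor_add_one α
  have hzl := hLz l hl
  have hc := Nat.ceil_lt_add_one hzl.le
  have hWl := hW1 l hl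
  have hWR : (W l : ℝ) + 1 = ⌈z l⌉₊ + r := by exact_mod_cast hWl
  rcases hm with ⟨h1, h2⟩ | ⟨h1, h2⟩
  · subst h1
    have h2' : (m : ℝ) ≤ W l := by exact_mod_cast h2
    refine ⟨by simp only; omega, ?_, ?_⟩
    · simp only; push_cast; linarith
    · simp only; push_cast
      rw [hz] at hc hzl
      have e : E - 2 * ρ * ((l : ℝ) + 1) = E - ρ * (2 * l - -1) - ρ := by ring
      have h3 : z l = E - 2 * ρ * ((l : ℝ) + 1) := hz l
      have h4 : (⌈z l⌉₊ : ℝ) < z l + 1 := Nat.ceil_lt_add_one (by rw [hz]; exact hzl.le)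
      linarith
  · subst h1
    have h2' : (m : ℝ) + (r + 1) ≤ W l := by exact_mod_cast h2
    refine ⟨by simp only; omega, ?_, ?_⟩
    · simp only; push_cast; linarith
    · simp only; push_cast
      have h3 : z l = E - 2 * ρ * ((l : ℝ) + 1) := hz l
      have h4 : (⌈z l⌉₊ : ℝ) < z l + 1 := Nat.ceil_lt_add_one hzl.le
      linarith

end Pool.Agent.W2helper31.SN
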