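import Pool.Agent.W2helper31.SN.Star
import Pool.Agent.TH335.EN.EndS
import Pool.Agent.TH745.MN.Main
import Pool.Agent.TH648.SH.Absorb

/-! Tubes for independence: points of the largest weight, and a light group with points of the
largest weight. -/

set_option autoImplicit false

namespace Pool.Agent.W2helper31.SN

open Finset Pool.Agent.TH176.Nag Pool.Agent.TH603.Sur Pool.Agent.TH181.NagM

/-- points of weight at most `H - 1` on the triangles of height `H` and larger total slope -/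
theorem Sur_points {κ : Type} [Fintype κ] {w : κ → ℕ} {H K μ ν : ℝ} (hH : 1 ≤ H)
    (hw : ∀ i, (w i : ℝ) + 1 ≤ H) (hK : (Fintype.card κ : ℝ) < K) (hμν : μ + ν = K) (α : ℝ) :
    Sur w (RegO α (α + K * H) μ ν) := by
  have hN0 : (0 : ℝ) ≤ Fintype.card κ := Nat.cast_nonneg _
  have hK0 : 0 < K := by linarith
  obtain ⟨N, hN⟩ : ∃ N : ℝ, N = Fintype.card κ := ⟨_, rfl⟩
  rw [← hN] at hN0 hK
  have hs : 0 < √K := Real.sqrt_pos.2 hK0
  have hss : √K * √K = K := Real.mul_self_sqrt hK0.le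
  obtain ⟨c, hc⟩ : ∃ c : ℝ, c = (K * H - (K - N)) / √K := ⟨_, rfl⟩
  have hc0 : 0 ≤ c := by
    rw [hc]
    refine div_nonneg ?_ hs.le
    nlinarith
  have hcK : c * √K = K * H - (K - N) := by rw [hc]; field_simp
  have hSP : SP w c 0 K := by
    refine ⟨by linarith, fun E hE α => ?_⟩
    rw [zero_add]
    apply Sur_final
    rintro k ⟨i, hi⟩
    have h1 : c * √K < E * √K := mul_lt_mul_of_pos_right hE hs
    rw [hcK] at h1
    have hk2 : (k : ℝ) + 2 ≤ H := by
      have : ((k + 1 : ℕ) : ℝ) ≤ w i := by exact_mod_cast hi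
      push_cast at this
      linarith [hw i]
    have h2 : ((∑ i, (w i - k) : ℕ) : ℝ) ≤ N * (H - 1 - k) := by
      push_cast
      have h3 : ∑ i, ((w i - k : ℕ) : ℝ) ≤ ∑ _i : κ, (H - 1 - k) := by
        refine sum_le_sum fun i _ => ?_
        rcases le_total (w i) k with h | h
        · rw [Nat.sub_eq_zero_of_le h]
          push_cast
          linarith
        · rw [Nat.cast_sub h]
          linarith [hw i]
      rwa [sum_const, card_univ, nsmul_eq_mul, ← hN] at h3
    have h4 : (K - N) * 1 ≤ (K - N) * (H - 1 - k) :=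
      mul_le_mul_of_nonneg_left (by linarith) (by linarith)
    nlinarith
  have h2 := (Mv.toRT (μ := μ) (ν := ν) (by rw [hμν]; exact hK0)).closed (SP_closed hc0)
    (by rw [hμν]; exact hSP)
  obtain ⟨-, h3⟩ := h2
  have hE : c < H * √K := by
    rw [hc, div_lt_iff₀ hs]
    have : H * √K * √K = K * H := by rw [mul_assoc, hss]; ring
    rw [this]
    linarith
  have h4 := h3 (H * √K) hE α
  rw [hμν] at h4
  have e : H * √K * √K = K * H := by rw [mul_assoc, hss]; ring
  rwa [e] at h4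

/-- two sets separated by a real line -/
theorem Sur_cutR {ι κ : Type} [Fintype ι] [Fintype κ] {w : ι → ℕ} {v : κ → ℕ}
    {S U : Set (ℤ × ℤ)} (ρ c : ℝ) (hS : ∀ m ∈ S, (m.1 : ℝ) + ρ * m.2 < c)
    (hU : ∀ m ∈ U, c < (m.1 : ℝ) + ρ * m.2) (h1 : Sur w S) (h2 : Sur v U) :
    Sur (Sum.elim w v) (S ∪ U) := by
  classical
  obtain ⟨T1, a1, a2, a3⟩ := h1
  obtain ⟨T2, b1, b2, b3⟩ := h2
  obtain ⟨a, b, hab⟩ := Pool.Agent.TH648.SH.exists_dir T1.finite_toSet T2.finite_toSet (-ρ)
    (fun m hm m' hm' => by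
      have g1 := hS m (a1 hm)
      have g2 := hU m' (b1 hm')
      linarith)
  obtain ⟨B, hB⟩ : ∃ B : ℤ, ∀ m ∈ T1 ∪ T2, 0 ≤ m.1 + B ∧ 0 ≤ m.2 + B := by
    refine ⟨∑ m ∈ T1 ∪ T2, (|m.1| + |m.2|), fun m hm => ?_⟩
    have g1 : |m.1| + |m.2| ≤ ∑ m ∈ T1 ∪ T2, (|m.1| + |m.2|) :=
      Finset.single_le_sum (f := fun m : ℤ × ℤ => |m.1| + |m.2|)
        (fun _ _ => add_nonneg (abs_nonneg _) (abs_nonneg _)) hm
    have g2 := neg_abs_le m.1
    have g3 := neg_abs_le m.2
    have g4 := abs_nonneg m.1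
    have g5 := abs_nonneg m.2
    constructor <;> linarith
  have hs1 : Sur w {m : ℤ × ℤ | (m.1 - B, m.2 - B) ∈ (↑T1 : Set (ℤ × ℤ))} := by
    have h0 : Sur w (↑T1 : Set (ℤ × ℤ)) := ⟨T1, subset_rfl, a2, a3⟩
    refine h0.shift (-B) (-B) ?_
    intro m hm
    have : (m.1 - -B - B, m.2 - -B - B) = m := by ext <;> simp
    rw [Set.mem_ofPred_eq, this]
    exact hm
  have hs2 : Sur v {m : ℤ × ℤ | (m.1 - B, m.2 - B) ∈ (↑T2 : Set (ℤ × ℤ))} := by
    have h0 : Sur v (↑T2 : Set (ℤ × ℤ)) := ⟨T2, subset_rfl, b2, b3⟩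
    refine h0.shift (-B) (-B) ?_
    intro m hm
    have : (m.1 - -B - B, m.2 - -B - B) = m := by ext <;> simp
    rw [Set.mem_ofPred_eq, this]
    exact hm
  have key := Pool.Agent.TH335.EN.Sur_cut (a := a) (b := b) (S := {m : ℤ × ℤ | (m.1 - B, m.2 - B) ∈
    (↑T1 : Set (ℤ × ℤ))}) (U := {m : ℤ × ℤ | (m.1 - B, m.2 - B) ∈ (↑T2 : Set (ℤ × ℤ))})
    (fun m hm => by
      have := hB _ (mem_union_left T2 (mem_coe.1 hm))
      simpa using this)
    (fun m hm => by
      have := hB _ (mem_union_right T1 (mem_coe.1 hm))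
      simpa using this)
    (fun m hm m' hm' => by
      have := hab _ hm _ hm'
      simp only at this
      linarith) hs1 hs2
  refine key.shift B B ?_
  intro m hm
  rcases hm with hm | hm
  · exact Or.inl (a1 hm)
  · exact Or.inr (b1 hm)

/-- flattening of a triangle without a corner -/
theorem Sur_corner {κ : Type} [Fintype κ] {w : κ → ℕ} {μ ν k H α : ℝ} (hμ : 0 < μ) (hμk : μ < k)
    (hν : 0 < ν)
    (h : Sur w (RegO (α + μ ^ 2 * H / k) (α + (μ + ν) * H) (μ * (1 - μ / k)) ν)) :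
    Sur w {m : ℤ × ℤ | m ∈ RegO α (α + (μ + ν) * H) μ ν ∧ α + μ * H < m.1 + (k - μ) * m.2} := by
  have hk : 0 < k := hμ.trans hμk
  have hkμ : 0 < k - μ := by linarith
  have h1 : Sur w {p : ℤ × ℤ | (p.1, p.2 + 1) ∈
      RegO (α + μ ^ 2 * H / k) (α + (μ + ν) * H) (μ * (1 - μ / k)) ν} := by
    refine h.shift 0 1 ?_
    rintro ⟨a, b⟩ hab
    simpa using hab
  refine Sur_flat 1 0 1 0 (by norm_num) ?_ h1
  rintro ⟨x, b⟩ ⟨hb, h2, h3⟩
  simp only at hb h2 h3
  push_cast at h2 h3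
  have hb0 : (0 : ℝ) ≤ b := by exact_mod_cast (by omega : 0 ≤ b)
  refine ⟨by simp only; omega, ?_⟩
  have hμ' : 0 < μ * (1 - μ / k) := by
    have : μ / k < 1 := by rw [div_lt_one hk]; exact hμk
    exact mul_pos hμ (by linarith)
  rcases le_or_gt (α + μ * H) x with hx | hx
  · refine ⟨1, fun s hs1 hs2 => ?_⟩
    simp only at hs2
    have hs0 : (1 : ℝ) ≤ s := by exact_mod_cast hs1
    have hs3 : (s : ℝ) ≤ 1 + b := by exact_mod_cast hs2
    have hsH : (s : ℝ) < H := by
      have : ν * (s : ℝ) < ν * H := by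
        have := mul_le_mul_of_nonneg_left hs3 hν.le
        nlinarith
      exact lt_of_mul_lt_mul_left this hν.le
    refine ⟨⟨by simp only; omega, ?_, ?_⟩, ?_⟩
    · simp only
      push_cast
      have := mul_lt_mul_of_pos_left hsH hμ
      linarith
    · simp only
      push_cast
      have := mul_le_mul_of_nonneg_left hs3 hν.le
      linarith
    · simp only
      push_cast
      have : 0 < (k - μ) * (s : ℝ) := mul_pos hkμ (by linarith)
      linarith
  · obtain ⟨y, hy⟩ : ∃ y : ℝ, y = (α + μ * H - x) / (k - μ) := ⟨_, rfl⟩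
    have hy0 : 0 < y := by rw [hy]; exact div_pos (by linarith) hkμ
    have hy1 : (k - μ) * y = α + μ * H - x := by rw [hy]; field_simp
    refine ⟨⌊y⌋ + 1, fun s hs1 hs2 => ?_⟩
    simp only at hs2
    have hf1 := Int.floor_le y
    have hf2 := Int.lt_floor_add_one y
    have hs3 : (⌊y⌋ : ℝ) + 1 ≤ s := by exact_mod_cast hs1
    have hs4 : (s : ℝ) ≤ ⌊y⌋ + 1 + b := by exact_mod_cast hs2
    have hys : y < s := by linarith
    have hsy : (s : ℝ) ≤ y + (b + 1) := by linarith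
    -- the left side
    have hleft : μ * (s : ℝ) < x - α := by
      have g1 : μ * (1 - μ / k) * (b + 1) < x - α - μ ^ 2 * H / k := by linarith
      have g2 : (k - μ) * (μ * (b + 1)) < k * (x - α) - μ ^ 2 * H := by
        have e1 : (k - μ) * (μ * ((b : ℝ) + 1)) = k * (μ * (1 - μ / k) * (b + 1)) := by
          field_simp
        have e2 : k * (x - α) - μ ^ 2 * H = k * (x - α - μ ^ 2 * H / k) := by
          field_simp
        rw [e1, e2]
        exact mul_lt_mul_of_pos_left g1 hk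
      have g3 : (k - μ) * (μ * s) ≤ μ * ((k - μ) * y) + (k - μ) * (μ * (b + 1)) := by
        have := mul_le_mul_of_nonneg_left hsy (mul_pos hkμ hμ).le
        linarith
      rw [hy1] at g3
      have g4 : (k - μ) * (μ * s) < (k - μ) * (x - α) := by linarith
      exact lt_of_mul_lt_mul_left g4 hkμ.le
    have hsH : (s : ℝ) < H := by
      have : μ * (s : ℝ) < μ * H := by linarith
      exact lt_of_mul_lt_mul_left this hμ.le
    refine ⟨⟨?_, ?_, ?_⟩, ?_⟩
    · simp only
      have : (0 : ℝ) < s := by linarith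
      have : 0 < s := by exact_mod_cast this
      omega
    · simp only
      push_cast
      linarith
    · simp only
      push_cast
      have := mul_lt_mul_of_pos_left hsH hν
      linarith
    · simp only
      push_cast
      have := mul_lt_mul_of_pos_left hys hkμ
      linarith

/-- independence at a node for an open set of shapes -/
def Box {κ : Type} [Fintype κ] (w : κ → ℕ) (H σ : ℝ) : Prop :=
  ∃ lx ux ly uy : ℝ, 0 < lx ∧ lx < ux ∧ 0 < ly ∧ ly < uy ∧ ux + uy ≤ σ ∧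
    ∀ X Y : ℝ, lx < X → X < ux → ly < Y → Y < uy →
      Sur w (RegO (-(Y * H)) (X * H) Y X)

/-- the points of the largest weight at a node -/
theorem box_points {κ : Type} [Fintype κ] {w : κ → ℕ} {H : ℝ} (hH : 1 ≤ H)
    (hw : ∀ i, (w i : ℝ) + 1 ≤ H) {ε : ℝ} (hε : 0 < ε) : Box w H (Fintype.card κ + ε) := by
  have hN0 : (0 : ℝ) ≤ Fintype.card κ := Nat.cast_nonneg _
  refine ⟨Fintype.card κ / 2 + ε / 4, Fintype.card κ / 2 + ε / 2, Fintype.card κ / 2 + ε / 4,
    Fintype.card κ / 2 + ε / 2, by positivity, by linarith, by positivity, by linarith,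
    by linarith, fun X Y h1 h2 h3 h4 => ?_⟩
  have key := Sur_points (κ := κ) (w := w) (H := H) (K := X + Y) (μ := Y) (ν := X) hH hw
    (by linarith) (by ring) (-(Y * H))
  have e : -(Y * H) + (X + Y) * H = X * H := by ring
  rwa [e] at key

/-- a light group and points of the largest weight at a node -/
theorem box_light {κ₁ κ₂ : Type} [Fintype κ₁] [Fintype κ₂] {w₁ : κ₁ → ℕ} {w₂ : κ₂ → ℕ}
    {H h : ℝ} (hh : 1 ≤ h) (hhH : h < H) (hw₁ : ∀ i, (w₁ i : ℝ) + 1 ≤ h)
    (hw₂ : ∀ i, (w₂ i : ℝ) + 1 ≤ H)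
    (hN : (Fintype.card κ₁ : ℝ) * (h / H) * (1 - h / H) ≤ Fintype.card κ₂) {ε : ℝ} (hε : 0 < ε) :
    Box (Sum.elim w₁ w₂) H (Fintype.card κ₂ + Fintype.card κ₁ * (h / H) ^ 2 + ε) := by
  have hH : 0 < H := by linarith
  obtain ⟨k, hk⟩ : ∃ k : ℝ, k = Fintype.card κ₁ := ⟨_, rfl⟩
  obtain ⟨N, hNN⟩ : ∃ N : ℝ, N = Fintype.card κ₂ := ⟨_, rfl⟩
  obtain ⟨x, hx⟩ : ∃ x : ℝ, x = h / H := ⟨_, rfl⟩
  have hxH : x * H = h := by rw [hx]; field_simp
  have hx0 : 0 < x := by rw [hx]; exact div_pos (by linarith) hH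
  have hx1 : x < 1 := by rw [hx, div_lt_one hH]; exact hhH
  have hk0 : 0 ≤ k := by rw [hk]; exact Nat.cast_nonneg _
  rw [← hk, ← hNN, ← hx] at hN ⊢
  refine ⟨N - k * x * (1 - x) + ε / 4, N - k * x * (1 - x) + ε / 2, k * x + ε / 4, k * x + ε / 2,
    by linarith, by linarith, by positivity, by linarith, by nlinarith, fun X Y h1 h2 h3 h4 => ?_⟩
  have hkx : 0 ≤ k * x := mul_nonneg hk0 hx0.le
  have hY0 : 0 < Y := by linarith
  have hX0 : 0 < X := by linarith
  obtain ⟨k', hk'⟩ : ∃ k' : ℝ, k' = Y / x := ⟨_, rfl⟩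
  have hk'x : k' * x = Y := by rw [hk']; field_simp
  have hkk' : k < k' := by rw [hk', lt_div_iff₀ hx0]; linarith
  have hk'0 : 0 < k' := by linarith
  have hYk' : Y < k' := by
    rw [← hk'x]
    exact mul_lt_of_lt_one_right hk'0 hx1
  have hYx : Y / k' = x := by rw [← hk'x]; field_simp
  have hYH : Y * H = k' * h := by rw [← hxH, ← hk'x]; ring
  -- the corner
  have c1 := Sur_points (κ := κ₁) (w := w₁) (H := h) (K := k') (μ := Y) (ν := k' - Y) hh hw₁
    (by rw [← hk]; exact hkk') (by ring) (-(Y * H))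
  -- the remaining triangle
  have hxY : (1 - x) * (k * x) ≤ (1 - x) * Y := mul_le_mul_of_nonneg_left (by linarith) (by linarith)
  have c2 := Sur_points (κ := κ₂) (w := w₂) (H := H) (K := X + (1 - x) * Y) (μ := Y * (1 - x))
    (ν := X) (by linarith) hw₂ (by rw [← hNN]; linarith) (by ring) (-(Y * H) + Y ^ 2 * H / k')
  have e1 : -(Y * H) + Y ^ 2 * H / k' + (X + (1 - x) * Y) * H = -(Y * H) + (Y + X) * H := by
    have : Y ^ 2 * H / k' = Y * (Y / k') * H := by ring
    rw [this, hYx]; ring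
  rw [e1, ← hYx] at c2
  have c3 := Sur_corner hY0 hYk' hX0 c2
  have e2 : -(Y * H) + (Y + X) * H = X * H := by ring
  rw [e2] at c3
  have e3 : -(Y * H) + k' * h = 0 := by rw [hYH]; ring
  rw [e3] at c1
  have key := Sur_cutR (k' - Y) 0 (fun m hm => by
      have := hm.2.2
      linarith) (fun m hm => by
      have := hm.2
      linarith) c1 c3
  refine key.mono ?_
  rintro m (hm | hm)
  · obtain ⟨g1, g2, g3⟩ := hm
    have g0 : (0 : ℝ) < m.2 := by exact_mod_cast g1
    refine ⟨g1, g2, ?_⟩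
    have g4 : (m.2 : ℝ) < h := by
      have : k' * (m.2 : ℝ) < k' * h := by linarith
      exact lt_of_mul_lt_mul_left this hk'0.le
    have g5 : X * (m.2 : ℝ) < X * H := mul_lt_mul_of_pos_left (by linarith) hX0
    have g6 : 0 < (k' - Y) * (m.2 : ℝ) := mul_pos (by linarith) g0
    linarith
  · exact hm.1

end Pool.Agent.W2helper31.SN
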